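import Mathlib

/-!
# MP_ca1492_al, module QSh: the quantum shuffle algebra of type `A_∞`.

Letters are pairs `(l, i)`, `l : Λ` a line and `i` an integer.  `QSh Λ R q` is the set of all
functions `List (Λ × ℤ) → R`, with the quantum shuffle product: graded characters of modules over the quiver Hecke algebra, induction product.
The product is defined by recursion on the word:
`(f * g) [] = f [] * g []`, `(f * g) (x :: u) = (D x f * g) u + (T x f * D x g) u`.
-/

set_option linter.unusedSectionVars false

namespace PC

variable {Λ : Type} [DecidableEq Λ]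

/-- degree of the crossing of the letter `x` with the letter `y`:
`-2` for `x = y`, `1` for neighbours on a line, `0` otherwise -/
def kp (x y : Λ × ℤ) : ℤ :=
  if y.1 = x.1 then (if y.2 = x.2 then -2 else if y.2 = x.2 + 1 ∨ y.2 = x.2 - 1 then 1 else 0)
  else 0

/-- degree of the crossing of the letter `x` with the word `w` -/
def kap (x : Λ × ℤ) : List (Λ × ℤ) → ℤ
  | [] => 0
  | y :: w => kp x y + kap x w

theorem kp_comm (x y : Λ × ℤ) : kp x y = kp y x := by
  unfold kp
  by_cases h : y.1 = x.1
  · rw [if_pos h, if_pos h.symm]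
    split_ifs <;> omega
  · rw [if_neg h, if_neg (fun h' => h h'.symm)]

@[simp] theorem kap_nil (x : Λ × ℤ) : kap x [] = 0 := rfl
@[simp] theorem kap_cons (x y : Λ × ℤ) (w : List (Λ × ℤ)) :
    kap x (y :: w) = kp x y + kap x w := rfl

/-- The quantum shuffle algebra. -/
def QSh (Λ R : Type) [CommRing R] (_q : Rˣ) : Type := List (Λ × ℤ) → R

variable {R : Type} [CommRing R] {q : Rˣ}

namespace QSh

instance : AddCommGroup (QSh Λ R q) := inferInstanceAs (AddCommGroup (List (Λ × ℤ) → R))
instance : Module R (QSh Λ R q) := inferInstanceAs (Module R (List (Λ × ℤ) → R))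

@[ext] theorem ext {f g : QSh Λ R q} (h : ∀ w, f w = g w) : f = g := funext h

@[simp] theorem add_apply (f g : QSh Λ R q) (w : List (Λ × ℤ)) : (f + g) w = f w + g w := rfl
@[simp] theorem sub_apply (f g : QSh Λ R q) (w : List (Λ × ℤ)) : (f - g) w = f w - g w := rfl
@[simp] theorem neg_apply (f : QSh Λ R q) (w : List (Λ × ℤ)) : (-f) w = -f w := rfl
@[simp] theorem zero_apply (w : List (Λ × ℤ)) : (0 : QSh Λ R q) w = 0 := rfl
@[simp] theorem smul_apply (c : R) (f : QSh Λ R q) (w : List (Λ × ℤ)) : (c • f) w = c * f w := rfl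

/-- strip the first letter `x` -/
def D (x : Λ × ℤ) : QSh Λ R q →ₗ[R] QSh Λ R q where
  toFun f := fun w => f (x :: w)
  map_add' _ _ := rfl
  map_smul' _ _ := rfl

/-- weight twist -/
def T (x : Λ × ℤ) : QSh Λ R q →ₗ[R] QSh Λ R q where
  toFun f := fun w => ((q ^ kap x w : Rˣ) : R) * f w
  map_add' f g := by ext w; exact mul_add _ _ _
  map_smul' c f := by ext w; exact mul_left_comm _ _ _

@[simp] theorem D_apply (x : Λ × ℤ) (f : QSh Λ R q) (w : List (Λ × ℤ)) : D x f w = f (x :: w) := rfl
@[simp] theorem T_apply (x : Λ × ℤ) (f : QSh Λ R q) (w : List (Λ × ℤ)) :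
    T x f w = ((q ^ kap x w : Rˣ) : R) * f w := rfl

/-- the value of the product at a word -/
def mulAux : List (Λ × ℤ) → QSh Λ R q → QSh Λ R q → R
  | [], f, g => f [] * g []
  | x :: u, f, g => mulAux u (D x f) g + mulAux u (T x f) (D x g)

instance : Mul (QSh Λ R q) := ⟨fun f g w => mulAux w f g⟩

/-- the unit: the indicator of the empty word -/
instance : One (QSh Λ R q) := ⟨fun w => if w = [] then 1 else 0⟩

theorem one_apply (w : List (Λ × ℤ)) : (1 : QSh Λ R q) w = if w = [] then 1 else 0 := rfl
@[simp] theorem one_nil : (1 : QSh Λ R q) [] = 1 := rfl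
@[simp] theorem one_cons (x : Λ × ℤ) (w : List (Λ × ℤ)) : (1 : QSh Λ R q) (x :: w) = 0 := rfl
@[simp] theorem mul_nil (f g : QSh Λ R q) : (f * g) [] = f [] * g [] := rfl
theorem mul_cons (f g : QSh Λ R q) (x : Λ × ℤ) (u : List (Λ × ℤ)) :
    (f * g) (x :: u) = (D x f * g) u + (T x f * D x g) u := rfl
theorem D_mul (x : Λ × ℤ) (f g : QSh Λ R q) : D x (f * g) = D x f * g + T x f * D x g := rfl
@[simp] theorem D_one (x : Λ × ℤ) : D x (1 : QSh Λ R q) = 0 := rfl

@[simp] theorem T_one (x : Λ × ℤ) : T x (1 : QSh Λ R q) = 1 := by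
  ext w
  cases w with
  | nil => simp
  | cons y w => simp

theorem D_T (x y : Λ × ℤ) (f : QSh Λ R q) :
    D y (T x f) = ((q ^ kp x y : Rˣ) : R) • T x (D y f) := by
  ext w
  simp only [D_apply, T_apply, smul_apply, kap_cons, zpow_add, Units.val_mul]
  ring

theorem T_T (x y : Λ × ℤ) (f : QSh Λ R q) : T y (T x f) = T x (T y f) := by
  ext w
  simp only [T_apply]
  ring

/-! ### algebraic laws, by induction on the word -/

theorem add_mul_apply (w : List (Λ × ℤ)) : ∀ f g h : QSh Λ R q,
    ((f + g) * h) w = (f * h) w + (g * h) w := by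
  induction w with
  | nil => intro f g h; simp [add_mul]
  | cons x u ih =>
    intro f g h
    simp only [mul_cons, map_add, ih]
    ring

theorem mul_add_apply (w : List (Λ × ℤ)) : ∀ f g h : QSh Λ R q,
    (f * (g + h)) w = (f * g) w + (f * h) w := by
  induction w with
  | nil => intro f g h; simp [mul_add]
  | cons x u ih =>
    intro f g h
    simp only [mul_cons, map_add, ih]
    ring

theorem smul_mul_apply (c : R) (w : List (Λ × ℤ)) : ∀ f g : QSh Λ R q,
    ((c • f) * g) w = c * (f * g) w := by
  induction w with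
  | nil => intro f g; simp [mul_assoc]
  | cons x u ih =>
    intro f g
    simp only [mul_cons, map_smul, ih]
    ring

theorem mul_smul_apply (c : R) (w : List (Λ × ℤ)) : ∀ f g : QSh Λ R q,
    (f * (c • g)) w = c * (f * g) w := by
  induction w with
  | nil => intro f g; simp [mul_left_comm]
  | cons x u ih =>
    intro f g
    simp only [mul_cons, map_smul, ih]
    ring

theorem zero_mul' (g : QSh Λ R q) : (0 : QSh Λ R q) * g = 0 := by
  have h := fun w => smul_mul_apply (0 : R) w (0 : QSh Λ R q) g
  ext w
  have := h w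
  rwa [zero_smul, zero_mul] at this

theorem mul_zero' (g : QSh Λ R q) : g * (0 : QSh Λ R q) = 0 := by
  have h := fun w => mul_smul_apply (0 : R) w g (0 : QSh Λ R q)
  ext w
  have := h w
  rwa [zero_smul, zero_mul] at this

theorem one_mul' (g : QSh Λ R q) : 1 * g = g := by
  have h : ∀ w, ∀ g : QSh Λ R q, (1 * g) w = g w := by
    intro w
    induction w with
    | nil => intro g; simp
    | cons x u ih =>
      intro g
      rw [mul_cons, D_one, zero_mul', T_one, ih]
      simp
  exact ext fun w => h w g

theorem mul_one' (g : QSh Λ R q) : g * 1 = g := by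
  have h : ∀ w, ∀ g : QSh Λ R q, (g * 1) w = g w := by
    intro w
    induction w with
    | nil => intro g; simp
    | cons x u ih =>
      intro g
      rw [mul_cons, D_one, mul_zero', ih]
      simp
  exact ext fun w => h w g

theorem T_mul (x : Λ × ℤ) (f g : QSh Λ R q) : T x (f * g) = T x f * T x g := by
  have h : ∀ w, ∀ f g : QSh Λ R q, (T x (f * g)) w = (T x f * T x g) w := by
    intro w
    induction w with
    | nil => intro f g; simp
    | cons y u ih =>
      intro f g
      have e1 : (T x (f * g)) (y :: u) = ((q ^ kp x y : Rˣ) : R) * (T x (D y (f * g))) u := by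
        have := congrFun (D_T x y (f * g)) u
        exact this
      rw [e1, D_mul, map_add, add_apply, ih, ih, mul_cons, D_T, D_T, smul_mul_apply,
        mul_smul_apply, T_T]
      ring
  exact ext fun w => h w f g

theorem mul_assoc' (f g h : QSh Λ R q) : f * g * h = f * (g * h) := by
  have key : ∀ w, ∀ f g h : QSh Λ R q, (f * g * h) w = (f * (g * h)) w := by
    intro w
    induction w with
    | nil => intro f g h; simp [mul_assoc]
    | cons x u ih =>
      intro f g h
      rw [mul_cons, D_mul, add_mul_apply, T_mul, ih, ih, ih, mul_cons f, D_mul, mul_add_apply]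
      ring
  exact ext fun w => key w f g h

instance : Ring (QSh Λ R q) :=
  { (inferInstance : AddCommGroup (QSh Λ R q)), (inferInstance : Mul (QSh Λ R q)),
    (inferInstance : One (QSh Λ R q)) with
    left_distrib := fun f g h => ext fun w => mul_add_apply w f g h
    right_distrib := fun f g h => ext fun w => add_mul_apply w f g h
    zero_mul := zero_mul'
    mul_zero := mul_zero'
    mul_assoc := mul_assoc'
    one_mul := one_mul'
    mul_one := mul_one' }

instance : Algebra R (QSh Λ R q) :=
  Algebra.ofModule (fun c f g => ext fun w => smul_mul_apply c w f g)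
    (fun c f g => ext fun w => mul_smul_apply c w f g)

/-- indicator of a word -/
def wd (u : List (Λ × ℤ)) : QSh Λ R q := fun w => if w = u then 1 else 0

theorem wd_apply (u w : List (Λ × ℤ)) : (wd u : QSh Λ R q) w = if w = u then 1 else 0 := rfl

/-- the value at the empty word, a ring homomorphism -/
def eps : QSh Λ R q →+* R where
  toFun f := f []
  map_one' := rfl
  map_mul' _ _ := rfl
  map_zero' := rfl
  map_add' _ _ := rfl

@[simp] theorem eps_apply (f : QSh Λ R q) : eps f = f [] := rfl

/-- the product of the letters of `w`: the character of `V(w)` -/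
def let_ (w : List (Λ × ℤ)) : QSh Λ R q := (w.map (fun x => (wd [x] : QSh Λ R q))).prod

/-- strip the word `w` from the left -/
def strip (w : List (Λ × ℤ)) (g : QSh Λ R q) : QSh Λ R q := fun v => g (w ++ v)

/-- change of letters `(l, i) ↦ (l, -i)` -/
def neg' (f : QSh Λ R q) : QSh Λ R q := fun w => f (w.map (fun x => (x.1, -x.2)))

/-- change of scalars -/
def mp {S : Type} [CommRing S] (φ : R →+* S) (q' : Sˣ) (f : QSh Λ R q) : QSh Λ S q' :=
  fun w => φ (f w)

end QSh

end PC
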