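import Mathlib
import Pool.Agent.Lib.MP_ca1492_al.QSh

/-!
# MP_ca1492_al, module CombDefs: definitions of the combinatorial part.

Segments, the row insertion process (standard tableaux of rectangles), determinants by Laplace
expansion, the iterated `q`-commutators of the operators `D x`, the Fischer pairing.
-/

set_option linter.unusedSectionVars false

namespace PC

/-- A rectangle: line `l`, content `t` of the top left box, `a` rows, `b` columns; the box
`(i, j)` (`i < a`, `j < b`) has content `t + j - i`. -/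
structure Rect (Λ : Type) where
  l : Λ
  t : ℤ
  a : ℕ
  b : ℕ

/-- determinant by Laplace expansion along the first row: rows labelled by `c`, columns by `e`,
entries `G (c i) (e k)`, sign `p ^ k` in place of `(-1) ^ k` -/
def rdet {R A : Type} [CommRing R] [Ring A] [Algebra R A] (p : R) (G : ℤ → ℤ → A) :
    (m : ℕ) → (Fin m → ℤ) → (Fin m → ℤ) → A
  | 0, _, _ => 1
  | m + 1, c, e => ∑ k : Fin (m + 1),
      p ^ (k : ℕ) • (G (c 0) (e k) * rdet p G m (fun i => c i.succ) (fun i => e (k.succAbove i)))

/-- the Fischer pairing of polynomials: monomials are orthogonal, `⟨X^α, X^α⟩ = α!` -/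
noncomputable def Fis {V : Type} (P Q : MvPolynomial V ℤ) : ℤ :=
  ∑ α ∈ P.support, P.coeff α * (α.prod (fun _ n => (n.factorial : ℤ))) * Q.coeff α

namespace QSh

variable {Λ : Type} [DecidableEq Λ] {R : Type} [CommRing R] {q : Rˣ}

/-- the word `(l, i), (l, i + 1), ..., (l, i + n - 1)` -/
def up (l : Λ) : ℤ → ℕ → List (Λ × ℤ)
  | _, 0 => []
  | i, n + 1 => (l, i) :: up l (i + 1) n

/-- the increasing segment `[i, j]` on the line `l`; `1` if `j = i - 1`; `0` if `j < i - 1` -/
def seg (l : Λ) (i j : ℤ) : QSh Λ R q := if j + 1 < i then 0 else wd (up l i (j + 1 - i).toNat)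

/-- the exponent of `T x` on `seg l i j` -/
def sk (l : Λ) (x : Λ × ℤ) (i j : ℤ) : ℤ :=
  if j < i ∨ x.1 ≠ l then 0 else
    (if i ≤ x.2 ∧ x.2 ≤ j then -2 else 0) + (if i ≤ x.2 - 1 ∧ x.2 - 1 ≤ j then 1 else 0) +
      (if i ≤ x.2 + 1 ∧ x.2 + 1 ≤ j then 1 else 0)

/-- the row insertion process on the line `l`: `c i` is the next letter of row `i`, `e i` is the
last letter of row `i`; a letter may be taken from row `i` if the new positions are still strictly
decreasing -/
def IsTab (l : Λ) {m : ℕ} (e : Fin m → ℤ) : List (Λ × ℤ) → (Fin m → ℤ) → Prop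
  | [], c => ∀ i, c i = e i + 1
  | x :: u, c => ∃ i, x = (l, c i) ∧ StrictAnti (Function.update c i (c i + 1)) ∧
      IsTab l e u (Function.update c i (c i + 1))

open Classical in
/-- the character of the skew shape with rows `[c i, e i]`: the indicator of the set of content
words of its standard fillings -/
noncomputable def chTab (l : Λ) {m : ℕ} (c e : Fin m → ℤ) : QSh Λ R q :=
  fun u => if IsTab l e u c then 1 else 0

/-- change of letters `(l, i) ↦ (l, -i)` as a linear map -/
def negL : QSh Λ R q →ₗ[R] QSh Λ R q where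
  toFun f := neg' f
  map_add' _ _ := rfl
  map_smul' _ _ := rfl

/-- the operator of the segment `i, i + 1, ..., i + n`: iterated `q`-commutator of the `D x` -/
def Eop (l : Λ) : ℤ → ℕ → (QSh Λ R q →ₗ[R] QSh Λ R q)
  | i, 0 => D (l, i)
  | i, n + 1 => (Eop l (i + 1) n) ∘ₗ (D (l, i)) -
      ((q⁻¹ : Rˣ) : R) • ((D (l, i)) ∘ₗ (Eop l (i + 1) n))

/-- segments of the two types: on the set of contents `[i, j]`, `false` = increasing word,
`true` = decreasing word -/
def Sg (τ : Bool) (l : Λ) (i j : ℤ) : QSh Λ R q :=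
  if τ then neg' (seg l (-j) (-i)) else seg l i j

/-- the operators of the two types -/
def Ev (τ : Bool) (l : Λ) (i j : ℤ) : QSh Λ R q →ₗ[R] QSh Λ R q :=
  if τ then negL ∘ₗ (Eop l (-j) (j - i).toNat) ∘ₗ negL else Eop l i (j - i).toNat

/-- `Good bar F L`: there are coefficients `a_w` such that `F = ∑ a_w x_w` (`x_w` the product of
the letters of `w`) and `L g = ∑ bar(a_w) strip w g`. -/
def Good (bar : R →+* R) (F : QSh Λ R q) (L : QSh Λ R q → QSh Λ R q) : Prop :=
  ∃ a : List (Λ × ℤ) →₀ R,
    F = a.sum (fun w x => x • let_ w) ∧ ∀ g, L g = a.sum (fun w x => bar x • strip w g)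

end QSh

/-- the sign of a typed segment -/
def sn (τ : Bool) (i j : ℤ) : ℤ := if τ then (-1) ^ (j - i).toNat else 1

/-- `Sy ok G G' d a b`: `a` and `b` are the images of one and the same integral combination of
words of length `d` (in letters `v` with `ok v`), evaluated by `G` and by `G'`. -/
def Sy {V A B : Type} [Ring A] [Ring B] (ok : V → Prop) (G : V → A) (G' : V → B) (d : ℕ)
    (a : A) (b : B) : Prop :=
  ∃ t : List (ℤ × List V), (∀ x ∈ t, x.2.length = d ∧ ∀ v ∈ x.2, ok v) ∧
    a = (t.map (fun x => x.1 • (x.2.map G).prod)).sum ∧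
    b = (t.map (fun x => x.1 • (x.2.map G').prod)).sum

namespace Rect

variable {Λ : Type} [DecidableEq Λ] {R : Type} [CommRing R] {q : Rˣ}

/-- first content of row `i` -/
def rs (r : Rect Λ) (i : Fin r.a) : ℤ := r.t - (i : ℕ)

/-- last content of row `i` -/
def re (r : Rect Λ) (i : Fin r.a) : ℤ := r.t - (i : ℕ) + r.b - 1

/-- the character of the rectangle (all standard tableaux) -/
noncomputable def ch (r : Rect Λ) : QSh Λ R q := QSh.chTab r.l r.rs r.re

/-- the transposed rectangle with negated contents -/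
def flip (r : Rect Λ) : Rect Λ := ⟨r.l, -r.t, r.b, r.a⟩

/-- more rows than columns -/
def tall (r : Rect Λ) : Bool := decide (r.b < r.a)

/-- the rectangle or its flip, with at least as many columns as rows -/
def nrm (r : Rect Λ) : Rect Λ := if r.tall then r.flip else r

/-- entries of the determinant of `r.ch` (rows and columns of `r.nrm`) -/
def gS (r : Rect Λ) (s e : ℤ) : QSh Λ R q :=
  if r.tall then QSh.Sg true r.l (-e) (-s) else QSh.Sg false r.l s e

/-- the corresponding operators -/
def gE (r : Rect Λ) (s e : ℤ) : QSh Λ R q →ₗ[R] QSh Λ R q :=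
  if r.tall then QSh.Ev true r.l (-e) (-s) else QSh.Ev false r.l s e

/-- the corresponding variables, with signs -/
noncomputable def gX (r : Rect Λ) (s e : ℤ) : MvPolynomial ((Λ × ℤ) × (Λ × ℤ)) ℤ :=
  if r.tall then MvPolynomial.C (sn true (-e) (-s)) * MvPolynomial.X ((r.l, -e), (r.l, -s))
  else MvPolynomial.C (sn false s e) * MvPolynomial.X ((r.l, s), (r.l, e))

/-- the smallest contents of the rows (of the columns if `r` is tall) -/
def low (r : Rect Λ) (i : Fin r.nrm.a) : Λ × ℤ :=
  (r.l, if r.tall then -(r.nrm.re i) else r.nrm.rs i)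

/-- the multiset of smallest contents -/
def lowM (r : Rect Λ) : Multiset (Λ × ℤ) :=
  (Finset.univ : Finset (Fin r.nrm.a)).val.map r.low

/-- the multiset of contents -/
def cont (r : Rect Λ) : Multiset (Λ × ℤ) :=
  (Finset.univ : Finset (Fin r.a × Fin r.b)).val.map
    (fun p => (r.l, r.t + (p.2 : ℕ) - (p.1 : ℕ)))

end Rect

end PC
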