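import Mathlib
import Pool.Agent.Lib.MP_ca1492_al.CombDefs

/-!
# MP_ca1492_al, module FisA: the Fischer pairing.

`Fis P Q = ∑_α P_α α! Q_α`: bilinear and symmetric.  `fis_X_mul`: `⟨X_v P, Q⟩ = ⟨P, ∂_v Q⟩`: by
bilinearity for monomials, `α! = α_v (α - v)!`.
`fis_count`: if the monomials `∑_e single (a e)` and `∑_f single (b f)` differ, both sides vanish;
if they agree, there is `σ₀ : E ≃ F` with `b ∘ σ₀ = a`, the left side is `∏_v #{e | a e = v}!` and
the right side is `#{σ : Perm E | a ∘ σ = a}` = the same product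
(`DomMulAct.stabilizer_card'`).
-/

namespace PC

open MvPolynomial

variable {V : Type}

theorem FisA_eq (P Q : MvPolynomial V ℤ) (s : Finset (V →₀ ℕ)) (hs : P.support ⊆ s) :
    Fis P Q = ∑ α ∈ s, P.coeff α * (α.prod (fun _ n => (n.factorial : ℤ))) * Q.coeff α := by
  unfold Fis
  refine Finset.sum_subset hs ?_
  intro α _ hα
  rw [MvPolynomial.notMem_support_iff.1 hα]
  ring

theorem fis_add_left (P P' Q : MvPolynomial V ℤ) : Fis (P + P') Q = Fis P Q + Fis P' Q := by
  classical
  rw [FisA_eq (P + P') Q (P.support ∪ P'.support) MvPolynomial.support_add,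
    FisA_eq P Q (P.support ∪ P'.support) Finset.subset_union_left,
    FisA_eq P' Q (P.support ∪ P'.support) Finset.subset_union_right, ← Finset.sum_add_distrib]
  refine Finset.sum_congr rfl fun α _ => ?_
  rw [coeff_add]
  ring

theorem fis_add_right (P Q Q' : MvPolynomial V ℤ) : Fis P (Q + Q') = Fis P Q + Fis P Q' := by
  unfold Fis
  rw [← Finset.sum_add_distrib]
  refine Finset.sum_congr rfl fun α _ => ?_
  rw [coeff_add]
  ring

theorem fis_smul_left (c : ℤ) (P Q : MvPolynomial V ℤ) : Fis (C c * P) Q = c * Fis P Q := by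
  classical
  have hs : (C c * P).support ⊆ P.support := by
    intro α hα
    rw [mem_support_iff] at hα ⊢
    intro h
    apply hα
    rw [coeff_C_mul, h, mul_zero]
  rw [FisA_eq (C c * P) Q P.support hs]
  unfold Fis
  rw [Finset.mul_sum]
  refine Finset.sum_congr rfl fun α _ => ?_
  rw [coeff_C_mul]
  ring

theorem fis_smul_right (c : ℤ) (P Q : MvPolynomial V ℤ) : Fis P (C c * Q) = c * Fis P Q := by
  unfold Fis
  rw [Finset.mul_sum]
  refine Finset.sum_congr rfl fun α _ => ?_
  rw [coeff_C_mul]
  ring

theorem FisA_zero_left (Q : MvPolynomial V ℤ) : Fis 0 Q = 0 := by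
  unfold Fis
  simp

theorem FisA_zero_right (P : MvPolynomial V ℤ) : Fis P 0 = 0 := by
  unfold Fis
  simp

theorem fis_sum_left {ι : Type} (s : Finset ι) (P : ι → MvPolynomial V ℤ)
    (Q : MvPolynomial V ℤ) : Fis (∑ i ∈ s, P i) Q = ∑ i ∈ s, Fis (P i) Q := by
  classical
  induction s using Finset.induction_on with
  | empty => simp [FisA_zero_left]
  | insert i s hi ih => rw [Finset.sum_insert hi, Finset.sum_insert hi, fis_add_left, ih]

theorem fis_sum_right {ι : Type} (s : Finset ι) (P : MvPolynomial V ℤ)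
    (Q : ι → MvPolynomial V ℤ) : Fis P (∑ i ∈ s, Q i) = ∑ i ∈ s, Fis P (Q i) := by
  classical
  induction s using Finset.induction_on with
  | empty => simp [FisA_zero_right]
  | insert i s hi ih => rw [Finset.sum_insert hi, Finset.sum_insert hi, fis_add_right, ih]

theorem FisA_monomial (α : V →₀ ℕ) (c : ℤ) (Q : MvPolynomial V ℤ) :
    Fis (monomial α c) Q = c * (α.prod (fun _ n => (n.factorial : ℤ))) * Q.coeff α := by
  classical
  rw [FisA_eq (monomial α c) Q {α} support_monomial_subset, Finset.sum_singleton, coeff_monomial,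
    if_pos rfl]

theorem fis_one_one : Fis (1 : MvPolynomial V ℤ) 1 = 1 := by
  have h := FisA_monomial (V := V) 0 1 1
  have h1 : (monomial (0 : V →₀ ℕ)) (1 : ℤ) = 1 := rfl
  rw [h1] at h
  rw [h]
  simp

theorem FisA_fact [DecidableEq V] (v : V) (α : V →₀ ℕ) :
    ((Finsupp.single v 1 + α).prod (fun _ n => (n.factorial : ℤ))) =
      (α v + 1) * α.prod (fun _ n => (n.factorial : ℤ)) := by
  have h0 : ∀ β : V →₀ ℕ, ∀ s : Finset V, β.support ⊆ s →
      β.prod (fun _ n => (n.factorial : ℤ)) = ∏ u ∈ s, ((β u).factorial : ℤ) := by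
    intro β s hs
    exact Finsupp.prod_of_support_subset β hs _ (by simp)
  have h1 : α.support ⊆ insert v α.support := Finset.subset_insert _ _
  have h2 : (Finsupp.single v 1 + α).support ⊆ insert v α.support := by
    intro u hu
    rw [Finset.mem_insert]
    by_cases huv : u = v
    · exact Or.inl huv
    · right
      rw [Finsupp.mem_support_iff] at hu ⊢
      rw [Finsupp.add_apply, Finsupp.single_eq_of_ne huv, zero_add] at hu
      exact hu
  rw [h0 _ _ h1, h0 _ _ h2, ← Finset.mul_prod_erase _ _ (Finset.mem_insert_self v α.support),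
    ← Finset.mul_prod_erase _ (fun u => ((α u).factorial : ℤ))
      (Finset.mem_insert_self v α.support)]
  have h3 : ∏ u ∈ (insert v α.support).erase v,
      (((Finsupp.single v 1 + α : V →₀ ℕ) u).factorial : ℤ)
      = ∏ u ∈ (insert v α.support).erase v, ((α u).factorial : ℤ) := by
    refine Finset.prod_congr rfl fun u hu => ?_
    rw [Finsupp.add_apply, Finsupp.single_eq_of_ne (Finset.ne_of_mem_erase hu), zero_add]
  rw [h3, Finsupp.add_apply, Finsupp.single_eq_same, add_comm 1 (α v), Nat.factorial_succ]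
  push_cast
  ring

theorem fis_X_mul (v : V) (P Q : MvPolynomial V ℤ) : Fis (X v * P) Q = Fis P (pderiv v Q) := by
  classical
  induction P using MvPolynomial.induction_on' with
  | add p q hp hq => rw [mul_add, fis_add_left, fis_add_left, hp, hq]
  | monomial α c =>
    have h1 : (X v : MvPolynomial V ℤ) * monomial α c = monomial (Finsupp.single v 1 + α) c := by
      rw [X, monomial_mul, one_mul]
    rw [h1, FisA_monomial, FisA_monomial, coeff_pderiv, FisA_fact, add_comm (Finsupp.single v 1) α]
    ring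

theorem FisA_prod_X {E : Type} [Fintype E] (a : E → V) :
    (∏ e, (X (a e) : MvPolynomial V ℤ)) = monomial (∑ e, Finsupp.single (a e) 1) 1 := by
  classical
  rw [MvPolynomial.monomial_sum_one]
  rfl

theorem FisA_sum_apply {E : Type} [Fintype E] [DecidableEq V] (a : E → V) (v : V) :
    (∑ e, Finsupp.single (a e) 1 : V →₀ ℕ) v = Fintype.card {e // a e = v} := by
  rw [Finsupp.finset_sum_apply, Fintype.card_subtype, Finset.card_filter]
  refine Finset.sum_congr rfl fun e _ => ?_
  rw [Finsupp.single_apply]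

theorem fis_count {E F : Type} [Fintype E] [Fintype F] [DecidableEq E] [DecidableEq F]
    [DecidableEq V] (a : E → V) (b : F → V) :
    Fis (∏ e, (X (a e) : MvPolynomial V ℤ)) (∏ f, X (b f)) =
      (Fintype.card {σ : E ≃ F // ∀ e, b (σ e) = a e} : ℤ) := by
  rw [FisA_prod_X, FisA_prod_X, FisA_monomial, coeff_monomial]
  by_cases hab : (∑ f, Finsupp.single (b f) 1 : V →₀ ℕ) = ∑ e, Finsupp.single (a e) 1
  · rw [if_pos hab, one_mul, mul_one]
    -- the base bijection
    have hc : ∀ v, Fintype.card {e // a e = v} = Fintype.card {f // b f = v} := by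
      intro v
      rw [← FisA_sum_apply, ← FisA_sum_apply, hab]
    let σ₀ : E ≃ F := Equiv.ofFiberEquiv (f := a) (g := b)
      (fun v => Fintype.equivOfCardEq (hc v))
    have hσ₀ : ∀ e, b (σ₀ e) = a e := fun e => Equiv.ofFiberEquiv_map _ e
    have hcard : Fintype.card {σ : E ≃ F // ∀ e, b (σ e) = a e}
        = Fintype.card {g : Equiv.Perm E // a ∘ g = a} := by
      refine Fintype.card_congr ?_
      refine Equiv.subtypeEquiv (Equiv.equivCongr (Equiv.refl E) σ₀.symm) ?_
      intro σ
      constructor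
      · intro h
        funext e
        change a (σ₀.symm (σ e)) = a e
        rw [← hσ₀, Equiv.apply_symm_apply]
        exact h e
      · intro h e
        have h1 : a (σ₀.symm (σ e)) = a e := congrFun h e
        rw [← hσ₀, Equiv.apply_symm_apply] at h1
        exact h1
    rw [hcard, DomMulAct.stabilizer_card']
    have hsup : (∑ e, Finsupp.single (a e) 1 : V →₀ ℕ).support ⊆ Finset.univ.image a := by
      intro v hv
      rw [Finsupp.mem_support_iff, FisA_sum_apply] at hv
      obtain ⟨e, he⟩ := Fintype.card_pos_iff.1 (Nat.pos_of_ne_zero hv)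
      exact Finset.mem_image.2 ⟨e, Finset.mem_univ _, he⟩
    rw [Finsupp.prod_of_support_subset _ hsup _ (by simp), Nat.cast_prod]
    refine Finset.prod_congr rfl fun v _ => ?_
    rw [FisA_sum_apply]
  · rw [if_neg hab, mul_zero]
    have he : IsEmpty {σ : E ≃ F // ∀ e, b (σ e) = a e} := by
      refine ⟨fun σ => hab ?_⟩
      rw [← Equiv.sum_comp σ.1]
      refine Finset.sum_congr rfl fun e _ => ?_
      rw [σ.2 e]
    rw [Fintype.card_eq_zero]
    simp

end PC
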