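import Mathlib

/-!
# MP_ca1492_al, module GrpPos: positivity by a projection and non-vanishing by a domain.

`E` finite, `j : E → J`, `k : E → K`, `s : E → C` with `(j,s)` and `(k,s)` injective.
`H = {w : Perm E | j ∘ w = j}`, `H' = {w' | k ∘ w' = k}`, `f σ = [s ∘ σ = s]`,
`φ σ = ∑_{w ∈ H, w' ∈ H'} sgn w sgn w' f (w' σ w⁻¹)`.  Then `φ (w' σ w⁻¹) = sgn w sgn w' φ σ`,
`∑ φ(σ)² = |H| |H'| ∑ f(σ) φ(σ)` (substitute `σ ↦ w'⁻¹ σ w`), so `∑ f φ > 0` if `φ ≠ 0`.
Non-vanishing (`lin_ne`): `ℓ σ = sgn σ ∏_e z_{j e, k (σ e)}` in `ℤ[z]` satisfies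
`ℓ (w' σ w⁻¹) = sgn w sgn w' ℓ σ`, hence `∑ ℓ φ = |H| |H'| ∑ ℓ f`, and `∑ ℓ f = det M` with
`M e e' = [s e = s e'] z_{j e, k e'}` (up to transposition), block diagonal for `s`:
`det M = ∏_x det M_x` (`Matrix.BlockTriangular.det` after an injection of the finite set of labels
into `ℕ`, or `Matrix.det_blockDiagonal'`), and `det M_x ≠ 0`: the ring homomorphism
`z_{u,v} ↦ 1` if some `e` with `s e = x` has `j e = u`, `k e = v`, and `0` otherwise, maps `M_x` to
the identity matrix (injectivity).  The polynomial ring over `ℤ` is a domain.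
`grp_pos` in terms of a sum over triples: for `w, w'` the number of `σ` with `s ∘ σ = s` and
`s ∘ w' ∘ σ = s ∘ w` is `∑_σ f(σ) f(w' σ w⁻¹)`.
`grp_pos'`: two sets of cells, transport along `σ₀`.
-/

namespace PC

open Equiv Finset

theorem GrpPos_ai {E : Type} (w : Perm E) (e : E) : w (w⁻¹ e) = e := w.apply_symm_apply e

theorem GrpPos_ia {E : Type} (w : Perm E) (e : E) : w⁻¹ (w e) = e := w.symm_apply_apply e

/-- a block of the matrix has nonzero determinant -/
theorem GrpPos_block {E J K : Type} [Fintype E] [DecidableEq E] (j : E → J) (k : E → K)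
    (hj : Function.Injective j) (hk : Function.Injective k) :
    (Matrix.of fun e' e : E => (MvPolynomial.X (j e, k e') : MvPolynomial (J × K) ℤ)).det ≠ 0 := by
  classical
  intro h
  let φ : MvPolynomial (J × K) ℤ →+* ℤ :=
    MvPolynomial.eval fun p => if ∃ e, j e = p.1 ∧ k e = p.2 then 1 else 0
  have h1 := congrArg φ h
  rw [map_zero, RingHom.map_det] at h1
  have h2 : φ.mapMatrix (Matrix.of fun e' e : E =>
      (MvPolynomial.X (j e, k e') : MvPolynomial (J × K) ℤ)) = 1 := by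
    ext e' e
    rw [RingHom.mapMatrix_apply, Matrix.map_apply, Matrix.of_apply, MvPolynomial.eval_X,
      Matrix.one_apply]
    by_cases he : e' = e
    · rw [if_pos he, if_pos ⟨e, rfl, by rw [he]⟩]
    · rw [if_neg he, if_neg]
      rintro ⟨x, hx1, hx2⟩
      exact he ((hk hx2).symm.trans (hj hx1))
  rw [h2, Matrix.det_one] at h1
  exact one_ne_zero h1

theorem lin_ne {E J K C : Type} [Fintype E] [DecidableEq E] [DecidableEq C] (j : E → J)
    (k : E → K) (s : E → C) (hj : ∀ e e', j e = j e' → s e = s e' → e = e')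
    (hk : ∀ e e', k e = k e' → s e = s e' → e = e') :
    (∑ σ : Perm E, if ∀ e, s (σ e) = s e then
      ((Perm.sign σ : ℤ) : MvPolynomial (J × K) ℤ) * ∏ e, MvPolynomial.X (j e, k (σ e)) else 0)
      ≠ 0 := by
  classical
  obtain ⟨t, ht⟩ : ∃ t : E → ℕ, ∀ e e', t e = t e' ↔ s e = s e' := by
    refine ⟨fun e => ((Finset.univ.image s).equivFin
      ⟨s e, Finset.mem_image_of_mem s (Finset.mem_univ e)⟩).val, fun e e' => ?_⟩
    rw [← Fin.ext_iff, Equiv.apply_eq_iff_eq, Subtype.mk.injEq]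
  set M : Matrix E E (MvPolynomial (J × K) ℤ) :=
    Matrix.of fun e' e => if s e' = s e then MvPolynomial.X (j e, k e') else 0 with hM
  have hdet : M.det = ∑ σ : Perm E, if ∀ e, s (σ e) = s e then
      ((Perm.sign σ : ℤ) : MvPolynomial (J × K) ℤ) * ∏ e, MvPolynomial.X (j e, k (σ e)) else 0 := by
    rw [Matrix.det_apply']
    refine Finset.sum_congr rfl fun σ _ => ?_
    have h1 : ∏ i, M (σ i) i = if ∀ e, s (σ e) = s e then
        ∏ e, (MvPolynomial.X (j e, k (σ e)) : MvPolynomial (J × K) ℤ) else 0 := by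
      by_cases h : ∀ e, s (σ e) = s e
      · rw [if_pos h]
        refine Finset.prod_congr rfl fun e _ => ?_
        rw [hM, Matrix.of_apply, if_pos (h e)]
      · rw [if_neg h]
        push Not at h
        obtain ⟨e, he⟩ := h
        refine Finset.prod_eq_zero (Finset.mem_univ e) ?_
        rw [hM, Matrix.of_apply, if_neg he]
    rw [h1, mul_ite, mul_zero]
  rw [← hdet]
  have hbt : M.BlockTriangular t := by
    intro i i' hlt
    rw [hM, Matrix.of_apply, if_neg]
    intro h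
    exact absurd ((ht i i').2 h) (ne_of_gt hlt)
  rw [hbt.det]
  refine Finset.prod_ne_zero_iff.2 fun a _ => ?_
  have hblk : M.toSquareBlock t a = Matrix.of fun e' e : {i // t i = a} =>
      (MvPolynomial.X (j e.1, k e'.1) : MvPolynomial (J × K) ℤ) := by
    ext1 e' e
    rw [Matrix.toSquareBlock_def]
    show M e'.1 e.1 = _
    rw [hM, Matrix.of_apply, if_pos ((ht _ _).1 (e'.2.trans e.2.symm)), Matrix.of_apply]
  rw [hblk]
  refine GrpPos_block (fun e : {i // t i = a} => j e.1) (fun e => k e.1) ?_ ?_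
  · intro e e' h
    exact Subtype.ext (hj _ _ h ((ht _ _).1 (e.2.trans e'.2.symm)))
  · intro e e' h
    exact Subtype.ext (hk _ _ h ((ht _ _).1 (e.2.trans e'.2.symm)))

/-- the projection of `f` -/
def GrpPos_phi {E : Type} [Fintype E] [DecidableEq E] (P P' : Perm E → Prop) [DecidablePred P]
    [DecidablePred P'] (f : Perm E → ℤ) (σ : Perm E) : ℤ :=
  ∑ w : Perm E, ∑ w' : Perm E, if P w ∧ P' w' then
    (Perm.sign w : ℤ) * (Perm.sign w' : ℤ) * f (w' * σ * w⁻¹) else 0

theorem GrpPos_proj {E A : Type} [Fintype E] [DecidableEq E] [AddCommGroup A]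
    (P P' : Perm E → Prop) [DecidablePred P] [DecidablePred P'] (f : Perm E → ℤ) (g : Perm E → A)
    (hg : ∀ w w', P w → P' w' → ∀ σ, g (w' * σ * w⁻¹)
      = ((Perm.sign w : ℤ) * (Perm.sign w' : ℤ)) • g σ) :
    ∑ σ, GrpPos_phi P P' f σ • g σ
      = (∑ w : Perm E, ∑ w' : Perm E, if P w ∧ P' w' then (1 : ℤ) else 0) • ∑ σ, f σ • g σ := by
  have h1 : ∀ w w' : Perm E, ∑ σ : Perm E, (if P w ∧ P' w' then
      (Perm.sign w : ℤ) * (Perm.sign w' : ℤ) * f (w' * σ * w⁻¹) else 0) • g σ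
      = (if P w ∧ P' w' then (1 : ℤ) else 0) • ∑ σ, f σ • g σ := by
    intro w w'
    by_cases h : P w ∧ P' w'
    · rw [if_pos h, one_smul,
        ← Equiv.sum_comp ((Equiv.mulLeft w').trans (Equiv.mulRight w⁻¹)) fun σ => f σ • g σ]
      refine Finset.sum_congr rfl fun σ _ => ?_
      rw [if_pos h, Equiv.trans_apply, Equiv.coe_mulLeft, Equiv.coe_mulRight,
        hg w w' h.1 h.2, smul_smul]
      congr 1
      ring
    · rw [if_neg h, zero_smul]
      refine Finset.sum_eq_zero fun σ _ => ?_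
      rw [if_neg h, zero_smul]
  simp only [GrpPos_phi, Finset.sum_smul]
  rw [Finset.sum_comm]
  refine Finset.sum_congr rfl fun w _ => ?_
  rw [Finset.sum_comm]
  exact Finset.sum_congr rfl fun w' _ => h1 w w'

theorem GrpPos_phi_conj {E : Type} [Fintype E] [DecidableEq E] (P P' : Perm E → Prop)
    [DecidablePred P] [DecidablePred P'] (f : Perm E → ℤ)
    (hP : ∀ v, P v → ∀ w, P (w * v) ↔ P w) (hP' : ∀ v, P' v → ∀ w, P' (w * v) ↔ P' w)
    (v v' : Perm E) (hv : P v) (hv' : P' v') (σ : Perm E) :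
    GrpPos_phi P P' f (v' * σ * v⁻¹)
      = ((Perm.sign v : ℤ) * (Perm.sign v' : ℤ)) • GrpPos_phi P P' f σ := by
  have key : ∀ w w' : Perm E, (if P (w * v) ∧ P' (w' * v') then
      (Perm.sign (w * v) : ℤ) * (Perm.sign (w' * v') : ℤ) *
        f ((w' * v') * σ * (w * v)⁻¹) else 0) = ((Perm.sign v : ℤ) * (Perm.sign v' : ℤ)) •
      (if P w ∧ P' w' then
        (Perm.sign w : ℤ) * (Perm.sign w' : ℤ) * f (w' * (v' * σ * v⁻¹) * w⁻¹) else 0) := by
    intro w w'
    by_cases h : P w ∧ P' w'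
    · have h' : P (w * v) ∧ P' (w' * v') := ⟨(hP v hv w).2 h.1, (hP' v' hv' w').2 h.2⟩
      rw [if_pos h', if_pos h, Perm.sign_mul, Perm.sign_mul, mul_inv_rev]
      have e : w' * v' * σ * (v⁻¹ * w⁻¹) = w' * (v' * σ * v⁻¹) * w⁻¹ := by group
      rw [e, Units.val_mul, Units.val_mul, smul_eq_mul]
      ring
    · have h' : ¬ (P (w * v) ∧ P' (w' * v')) := fun h1 =>
        h ⟨(hP v hv w).1 h1.1, (hP' v' hv' w').1 h1.2⟩
      rw [if_neg h', if_neg h, smul_zero]
  have h1 : ((Perm.sign v : ℤˣ) : ℤ) * ((Perm.sign v : ℤˣ) : ℤ) = 1 := by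
    rw [← Units.val_mul, Int.units_mul_self, Units.val_one]
  have h2 : ((Perm.sign v' : ℤˣ) : ℤ) * ((Perm.sign v' : ℤˣ) : ℤ) = 1 := by
    rw [← Units.val_mul, Int.units_mul_self, Units.val_one]
  have h3 : GrpPos_phi P P' f σ = ((Perm.sign v : ℤ) * (Perm.sign v' : ℤ)) •
      GrpPos_phi P P' f (v' * σ * v⁻¹) := by
    unfold GrpPos_phi
    rw [Finset.smul_sum, ← Equiv.sum_comp (Equiv.mulRight v)]
    refine Finset.sum_congr rfl fun w _ => ?_
    rw [Finset.smul_sum, ← Equiv.sum_comp (Equiv.mulRight v')]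
    refine Finset.sum_congr rfl fun w' _ => ?_
    exact key w w'
  rw [h3, smul_smul]
  have h4 : (Perm.sign v : ℤ) * (Perm.sign v' : ℤ) * ((Perm.sign v : ℤ) * (Perm.sign v' : ℤ)) = 1 := by
    calc (Perm.sign v : ℤ) * (Perm.sign v' : ℤ) * ((Perm.sign v : ℤ) * (Perm.sign v' : ℤ))
        = ((Perm.sign v : ℤ) * (Perm.sign v : ℤ)) * ((Perm.sign v' : ℤ) * (Perm.sign v' : ℤ)) := by
          ring
      _ = 1 := by rw [h1, h2, one_mul]
  rw [h4, one_smul]

theorem grp_pos {E J K C : Type} [Fintype E] [DecidableEq E] [DecidableEq J] [DecidableEq K]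
    [DecidableEq C] (j : E → J) (k : E → K) (s : E → C)
    (hj : ∀ e e', j e = j e' → s e = s e' → e = e')
    (hk : ∀ e e', k e = k e' → s e = s e' → e = e') :
    0 < ∑ w : Perm E, ∑ w' : Perm E, if (∀ e, j (w e) = j e) ∧ (∀ e, k (w' e) = k e) then
      ((Perm.sign w : ℤ) * (Perm.sign w' : ℤ) *
        (Fintype.card {σ : Perm E // (∀ e, s (σ e) = s e) ∧ ∀ e, s (w' (σ e)) = s (w e)} : ℤ))
      else 0 := by
  classical
  set P : Perm E → Prop := fun w => ∀ e, j (w e) = j e with hPd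
  set P' : Perm E → Prop := fun w => ∀ e, k (w e) = k e with hPd'
  set f : Perm E → ℤ := fun σ => if ∀ e, s (σ e) = s e then 1 else 0 with hf
  have hP : ∀ v, P v → ∀ w, P (w * v) ↔ P w := by
    intro v hv w
    constructor
    · intro h e
      have h1 := h (v⁻¹ e)
      rw [Perm.mul_apply, GrpPos_ai] at h1
      rw [h1, ← hv (v⁻¹ e), GrpPos_ai]
    · intro h e
      rw [Perm.mul_apply, h, hv]
  have hP' : ∀ v, P' v → ∀ w, P' (w * v) ↔ P' w := by
    intro v hv w
    constructor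
    · intro h e
      have h1 := h (v⁻¹ e)
      rw [Perm.mul_apply, GrpPos_ai] at h1
      rw [h1, ← hv (v⁻¹ e), GrpPos_ai]
    · intro h e
      rw [Perm.mul_apply, h, hv]
  set φ := GrpPos_phi P P' f with hφ
  set N : ℤ := ∑ w : Perm E, ∑ w' : Perm E, if P w ∧ P' w' then (1 : ℤ) else 0 with hN
  have hN0 : 0 < N := by
    have h1 : (0 : ℤ) < if P 1 ∧ P' 1 then (1 : ℤ) else 0 := by
      rw [if_pos ⟨fun e => rfl, fun e => rfl⟩]
      exact one_pos
    have hnn : ∀ w w' : Perm E, (0 : ℤ) ≤ if P w ∧ P' w' then (1 : ℤ) else 0 := by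
      intro w w'
      split_ifs <;> simp
    refine lt_of_lt_of_le h1 ?_
    refine le_trans ?_ (Finset.single_le_sum (f := fun w : Perm E =>
      ∑ w' : Perm E, if P w ∧ P' w' then (1 : ℤ) else 0)
      (fun w _ => Finset.sum_nonneg fun w' _ => hnn w w') (Finset.mem_univ 1))
    exact Finset.single_le_sum (f := fun w' : Perm E => if P 1 ∧ P' w' then (1 : ℤ) else 0)
      (fun w' _ => hnn 1 w') (Finset.mem_univ 1)
  -- the sum is `∑ f φ`
  have hsum : (∑ w : Perm E, ∑ w' : Perm E, if (∀ e, j (w e) = j e) ∧ (∀ e, k (w' e) = k e) then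
      ((Perm.sign w : ℤ) * (Perm.sign w' : ℤ) *
        (Fintype.card {σ : Perm E // (∀ e, s (σ e) = s e) ∧ ∀ e, s (w' (σ e)) = s (w e)} : ℤ))
      else 0) = ∑ σ, f σ • φ σ := by
    have h1 : ∀ w w' : Perm E, ((Fintype.card {σ : Perm E // (∀ e, s (σ e) = s e) ∧
        ∀ e, s (w' (σ e)) = s (w e)} : ℕ) : ℤ) = ∑ σ, f σ * f (w' * σ * w⁻¹) := by
      intro w w'
      rw [Fintype.card_subtype, Finset.card_filter, Nat.cast_sum]
      refine Finset.sum_congr rfl fun σ _ => ?_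
      have h2 : (∀ e, s ((w' * σ * w⁻¹) e) = s e) ↔ ∀ e, s (w' (σ e)) = s (w e) := by
        constructor
        · intro h e
          have h3 := h (w e)
          rw [Perm.mul_apply, Perm.mul_apply, GrpPos_ia] at h3
          exact h3
        · intro h e
          have h3 := h (w⁻¹ e)
          rw [GrpPos_ai] at h3
          rw [Perm.mul_apply, Perm.mul_apply]
          exact h3
      simp only [hf, h2]
      by_cases ha : ∀ e, s (σ e) = s e <;> by_cases hb : ∀ e, s (w' (σ e)) = s (w e)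
      · rw [if_pos ⟨ha, hb⟩, if_pos ha, if_pos hb]; simp
      · rw [if_neg (fun h => hb h.2), if_neg hb]; simp
      · rw [if_neg (fun h => ha h.1), if_neg ha]; simp
      · rw [if_neg (fun h => ha h.1), if_neg ha]; simp
    simp only [hφ, GrpPos_phi, Finset.smul_sum]
    symm
    rw [Finset.sum_comm]
    refine Finset.sum_congr rfl fun w _ => ?_
    rw [Finset.sum_comm]
    refine Finset.sum_congr rfl fun w' _ => ?_
    rw [h1 w w']
    by_cases h : P w ∧ P' w'
    · have h' : (∀ e, j (w e) = j e) ∧ ∀ e, k (w' e) = k e := h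
      rw [if_pos h', Finset.mul_sum]
      refine Finset.sum_congr rfl fun σ _ => ?_
      rw [if_pos h, smul_eq_mul]
      ring
    · have h' : ¬ ((∀ e, j (w e) = j e) ∧ ∀ e, k (w' e) = k e) := h
      rw [if_neg h']
      refine Finset.sum_eq_zero fun σ _ => ?_
      rw [if_neg h, smul_zero]
  rw [hsum]
  -- the norm of `φ`
  have hnorm : ∑ σ, φ σ • φ σ = N • ∑ σ, f σ • φ σ :=
    GrpPos_proj P P' f φ fun w w' hw hw' σ => GrpPos_phi_conj P P' f hP hP' w w' hw hw' σ
  -- the pairing with `ℓ`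
  set g : Perm E → MvPolynomial (J × K) ℤ := fun σ =>
    ((Perm.sign σ : ℤ) : MvPolynomial (J × K) ℤ) * ∏ e, MvPolynomial.X (j e, k (σ e)) with hg
  have hgc : ∀ w w', P w → P' w' → ∀ σ, g (w' * σ * w⁻¹)
      = ((Perm.sign w : ℤ) * (Perm.sign w' : ℤ)) • g σ := by
    intro w w' hw hw' σ
    have h1 : (∏ e, (MvPolynomial.X (j e, k ((w' * σ * w⁻¹) e)) : MvPolynomial (J × K) ℤ))
        = ∏ e, MvPolynomial.X (j e, k (σ e)) := by
      rw [← Equiv.prod_comp w]
      refine Finset.prod_congr rfl fun e _ => ?_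
      have h2 : (w' * σ * w⁻¹) (w e) = w' (σ e) := by
        rw [Perm.mul_apply, Perm.mul_apply, GrpPos_ia]
      rw [h2, hw e, hw' (σ e)]
    simp only [hg]
    rw [h1, Perm.sign_mul, Perm.sign_mul, Perm.sign_inv, Units.val_mul, Units.val_mul,
      zsmul_eq_mul]
    push_cast
    ring
  have hpair : ∑ σ, φ σ • g σ = N • ∑ σ, f σ • g σ := GrpPos_proj P P' f g hgc
  have hne : ∑ σ, f σ • g σ ≠ 0 := by
    have h1 := lin_ne j k s hj hk
    have h2 : ∑ σ, f σ • g σ = ∑ σ : Perm E, if ∀ e, s (σ e) = s e then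
        ((Perm.sign σ : ℤ) : MvPolynomial (J × K) ℤ) * ∏ e, MvPolynomial.X (j e, k (σ e))
        else 0 := by
      refine Finset.sum_congr rfl fun σ _ => ?_
      simp only [hf, hg]
      by_cases h : ∀ e, s (σ e) = s e
      · rw [if_pos h, if_pos h, one_smul]
      · rw [if_neg h, if_neg h, zero_smul]
    rw [h2]
    exact h1
  by_contra hle
  push Not at hle
  have h1 : ∑ σ, φ σ • φ σ ≤ 0 := by
    rw [hnorm, smul_eq_mul]
    exact mul_nonpos_of_nonneg_of_nonpos hN0.le hle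
  have h2 : ∀ σ, φ σ = 0 := by
    intro σ
    have h3 : φ σ • φ σ ≤ ∑ σ, φ σ • φ σ :=
      Finset.single_le_sum (f := fun σ => φ σ • φ σ)
        (fun τ _ => by rw [smul_eq_mul]; exact mul_self_nonneg _) (Finset.mem_univ σ)
    rw [smul_eq_mul] at h3
    have h4 : φ σ * φ σ = 0 := le_antisymm (h3.trans h1) (mul_self_nonneg _)
    exact mul_self_eq_zero.1 h4
  have h5 : ∑ σ, φ σ • g σ = 0 := Finset.sum_eq_zero fun σ _ => by rw [h2 σ, zero_smul]
  rw [h5] at hpair
  rcases smul_eq_zero.1 hpair.symm with h6 | h6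
  · exact absurd h6 hN0.ne'
  · exact hne h6

theorem grp_pos' {E F J K C : Type} [Fintype E] [DecidableEq E] [Fintype F] [DecidableEq F]
    [DecidableEq J] [DecidableEq K] [DecidableEq C] (j : E → J) (k : F → K) (s : E → C)
    (s' : F → C) (σ₀ : E ≃ F) (h₀ : ∀ e, s' (σ₀ e) = s e)
    (hj : ∀ e e', j e = j e' → s e = s e' → e = e')
    (hk : ∀ e e', k e = k e' → s' e = s' e' → e = e') :
    0 < ∑ w : Perm E, ∑ w' : Perm F, if (∀ e, j (w e) = j e) ∧ (∀ e, k (w' e) = k e) then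
      ((Perm.sign w : ℤ) * (Perm.sign w' : ℤ) *
        (Fintype.card {σ : E ≃ F // (∀ e, s' (σ e) = s e) ∧ ∀ e, s' (w' (σ e)) = s (w e)} : ℤ))
      else 0 := by
  classical
  have h := grp_pos j (fun e => k (σ₀ e)) s hj (by
    intro e e' h1 h2
    exact σ₀.injective (hk _ _ h1 (by rw [h₀, h₀, h2])))
  refine lt_of_lt_of_eq h (Finset.sum_congr rfl fun w _ => ?_)
  rw [← Equiv.sum_comp σ₀.permCongr]
  refine Finset.sum_congr rfl fun w' _ => ?_
  have happ : ∀ x, σ₀.permCongr w' x = σ₀ (w' (σ₀.symm x)) := fun x => rfl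
  have hcond : (∀ e, k ((σ₀.permCongr w') e) = k e) ↔ ∀ e, k (σ₀ (w' e)) = k (σ₀ e) := by
    constructor
    · intro h1 e
      have h2 := h1 (σ₀ e)
      rw [happ, Equiv.symm_apply_apply] at h2
      exact h2
    · intro h1 x
      have h2 := h1 (σ₀.symm x)
      rw [Equiv.apply_symm_apply] at h2
      rw [happ]
      exact h2
  have hs' : ∀ x, s' x = s (σ₀.symm x) := by
    intro x
    rw [← h₀, Equiv.apply_symm_apply]
  have hcard : Fintype.card {σ : Perm E // (∀ e, s (σ e) = s e) ∧ ∀ e, s (w' (σ e)) = s (w e)}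
      = Fintype.card {σ : E ≃ F // (∀ e, s' (σ e) = s e) ∧
        ∀ e, s' ((σ₀.permCongr w') (σ e)) = s (w e)} := by
    refine Fintype.card_congr (Equiv.subtypeEquiv (Equiv.mk (fun σ : Perm E => σ.trans σ₀)
      (fun σ : E ≃ F => σ.trans σ₀.symm) (fun σ => ?_) (fun σ => ?_)) fun σ => ?_)
    · ext e
      simp
    · ext e
      simp
    · show _ ↔ (∀ e, s' (σ₀ (σ e)) = s e) ∧ ∀ e, s' ((σ₀.permCongr w') (σ₀ (σ e))) = s (w e)
      simp only [hs', happ, Equiv.symm_apply_apply]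
  have hsign : Perm.sign (σ₀.permCongr w') = Perm.sign w' := Perm.sign_permCongr _ _
  by_cases hc : (∀ e, j (w e) = j e) ∧ ∀ e, k (σ₀ (w' e)) = k (σ₀ e)
  · rw [if_pos hc, if_pos ⟨hc.1, hcond.2 hc.2⟩, hsign, hcard]
  · rw [if_neg hc, if_neg fun h' => hc ⟨h'.1, hcond.1 h'.2⟩]

end PC
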