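import Mathlib
import Pool.Agent.Lib.MP_ca1492_al.FisA
import Pool.Agent.Lib.MP_ca1492_al.GrpPos

/-!
# MP_ca1492_al, module FisPos: positivity of the Fischer pairing of products of principal minors.

`∏_j det (X (lab (c j i) (c j k)))_{i,k}` is, by `Matrix.det_apply'` and `Finset.prod_univ_sum`, the
sum over `w ∈ ∏_j Perm (Fin (m j))` of `sgn w ∏_{(j,i)} X (lab (c j i) (c j (w_j i)))` (up to
inverting `w`), i.e. with `E = Σ j, Fin (m j)` the sum over the `w : Perm E` preserving the first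
component (`Equiv.Perm.sigmaCongrRightHom`, its range is the set of these permutations
(`Equiv.Perm.sigmaCongrRightHom...`), signs by `Equiv.Perm.sign_sigmaCongrRight` or
`prod_sign`).  The Fischer pairing of the monomials of `w` and `w'` is by `fis_count` the number of
`σ : E ≃ F` with `lab (c' (σ e)) (c' (w' (σ e))) = lab (c e) (c (w e))`, i.e. both labels agree
(`lab` injective).  So the pairing is the sum of `grp_pos'`.  `σ₀` exists because the fibres of the
labels have the same size.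
-/

namespace PC

open MvPolynomial Equiv

theorem FisPos_swap {ι : Type} [DecidableEq ι] (m : ι → ℕ) (i : ι)
    (a b : Fin (m i)) :
    Perm.sigmaCongrRight (Pi.mulSingle i (swap a b) : ∀ j, Perm (Fin (m j))) =
      (swap ⟨i, a⟩ ⟨i, b⟩ : Perm (Σ j, Fin (m j))) := by
  ext1 e
  obtain ⟨j, c⟩ := e
  by_cases h : j = i
  · subst h
    simp only [Perm.sigmaCongrRight, Equiv.sigmaCongrRight_apply, Pi.mulSingle_eq_same,
      swap_apply_def]
    split_ifs <;> simp_all
  · have h1 : (⟨j, c⟩ : Σ j, Fin (m j)) ≠ ⟨i, a⟩ := fun h2 => h (congrArg Sigma.fst h2)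
    have h2 : (⟨j, c⟩ : Σ j, Fin (m j)) ≠ ⟨i, b⟩ := fun h2 => h (congrArg Sigma.fst h2)
    rw [swap_apply_of_ne_of_ne h1 h2]
    simp only [Perm.sigmaCongrRight, Equiv.sigmaCongrRight_apply]
    rw [Pi.mulSingle_eq_of_ne h]
    rfl

theorem FisPos_sign_single {ι : Type} [Fintype ι] [DecidableEq ι] (m : ι → ℕ) (i : ι)
    (x : Perm (Fin (m i))) :
    Perm.sign (Perm.sigmaCongrRightHom (fun j => Fin (m j)) (Pi.mulSingle i x)) =
      Perm.sign x := by
  induction x using Equiv.Perm.swap_induction_on with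
  | one => rw [Pi.mulSingle_one, map_one, map_one, map_one]
  | swap_mul f a b hab ih =>
    rw [Pi.mulSingle_mul, map_mul, map_mul, map_mul, ih]
    congr 1
    have h1 := FisPos_swap m i a b
    have h2 : Perm.sigmaCongrRightHom (fun j => Fin (m j)) (Pi.mulSingle i (swap a b)) =
      (swap ⟨i, a⟩ ⟨i, b⟩ : Perm (Σ j, Fin (m j))) := h1
    rw [h2, Perm.sign_swap hab, Perm.sign_swap]
    intro h3
    apply hab
    simpa using h3

theorem FisPos_sign {ι : Type} [Fintype ι] [DecidableEq ι] (m : ι → ℕ)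
    (σ : ∀ j, Perm (Fin (m j))) :
    Perm.sign (Perm.sigmaCongrRightHom (fun j => Fin (m j)) σ) = ∏ j, Perm.sign (σ j) := by
  let F : (∀ j, Perm (Fin (m j))) →* ℤˣ :=
    Perm.sign.comp (Perm.sigmaCongrRightHom (fun j => Fin (m j)))
  let G : (∀ j, Perm (Fin (m j))) →* ℤˣ :=
    { toFun := fun σ => ∏ j, Perm.sign (σ j)
      map_one' := by simp
      map_mul' := fun a b => by simp [Finset.prod_mul_distrib] }
  have h : F = G := by
    apply MonoidHom.pi_ext
    intro i x
    show Perm.sign (Perm.sigmaCongrRightHom (fun j => Fin (m j)) (Pi.mulSingle i x)) =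
      ∏ j, Perm.sign ((Pi.mulSingle i x : ∀ j, Perm (Fin (m j))) j)
    rw [FisPos_sign_single, Finset.prod_eq_single i]
    · rw [Pi.mulSingle_eq_same]
    · intro j _ hj
      rw [Pi.mulSingle_eq_of_ne hj, map_one]
    · intro h
      exact absurd (Finset.mem_univ i) h
  exact congrArg (fun H : (∀ j, Perm (Fin (m j))) →* ℤˣ => H σ) h

/-- permutations preserving the first component -/
theorem FisPos_surj {ι : Type} (m : ι → ℕ) (w : Perm (Σ j, Fin (m j)))
    (hw : ∀ e, (w e).1 = e.1) :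
    ∃ σ : ∀ j, Perm (Fin (m j)), Perm.sigmaCongrRightHom (fun j => Fin (m j)) σ = w := by
  have h1 : ∀ j (i : Fin (m j)), ∃ i' : Fin (m j), (⟨j, i'⟩ : Σ j, Fin (m j)) = w ⟨j, i⟩ := by
    intro j i
    have h2 := hw ⟨j, i⟩
    generalize w ⟨j, i⟩ = e at h2
    obtain ⟨j', i'⟩ := e
    simp only at h2
    subst h2
    exact ⟨i', rfl⟩
  choose f hf using h1
  have hinj : ∀ j, Function.Injective (f j) := by
    intro j a b hab
    have h2 : w ⟨j, a⟩ = w ⟨j, b⟩ := by rw [← hf, ← hf, hab]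
    have h3 := w.injective h2
    simpa using h3
  refine ⟨fun j => Equiv.ofBijective (f j) (Finite.injective_iff_bijective.1 (hinj j)), ?_⟩
  ext1 e
  obtain ⟨j, i⟩ := e
  exact hf j i

theorem det_prod_expand {ι T V : Type} [Fintype ι] [DecidableEq ι] (m : ι → ℕ)
    (c : ∀ j, Fin (m j) → T) (lab : T → T → V) :
    (∏ j, Matrix.det (Matrix.of fun i k => (X (lab (c j i) (c j k)) : MvPolynomial V ℤ))) =
      ∑ w : Equiv.Perm (Σ j, Fin (m j)), if ∀ e, (w e).1 = e.1 then
        C (Equiv.Perm.sign w : ℤ) * ∏ e, X (lab (c e.1 e.2) (c (w e).1 (w e).2)) else 0 := by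
  classical
  have h1 : ∀ j, Matrix.det (Matrix.of fun i k => (X (lab (c j i) (c j k)) : MvPolynomial V ℤ)) =
      ∑ σ : Perm (Fin (m j)), (C ((Perm.sign σ : ℤ)) : MvPolynomial V ℤ) *
        ∏ i, X (lab (c j i) (c j (σ i))) := by
    intro j
    rw [← Matrix.det_transpose, Matrix.det_apply']
    refine Finset.sum_congr rfl fun σ _ => ?_
    congr 1
  simp only [h1]
  rw [Finset.prod_univ_sum, Fintype.piFinset_univ, ← Finset.sum_filter]
  refine Finset.sum_bij (fun σ _ => Perm.sigmaCongrRightHom (fun j => Fin (m j)) σ) ?_ ?_ ?_ ?_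
  · intro σ _
    rw [Finset.mem_filter]
    exact ⟨Finset.mem_univ _, fun e => rfl⟩
  · intro σ _ τ _ h
    exact Perm.sigmaCongrRightHom_injective h
  · intro w hw
    rw [Finset.mem_filter] at hw
    obtain ⟨σ, hσ⟩ := FisPos_surj m w hw.2
    exact ⟨σ, Finset.mem_univ _, hσ⟩
  · intro σ _
    rw [Finset.prod_mul_distrib, FisPos_sign, Fintype.prod_sigma]
    congr 1
    rw [Units.coe_prod, map_prod]

theorem FisPos_zero_left {V : Type} (Q : MvPolynomial V ℤ) : Fis 0 Q = 0 := by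
  simp [Fis]

theorem FisPos_zero_right {V : Type} (P : MvPolynomial V ℤ) : Fis P 0 = 0 := by
  simp [Fis]

/-- a bijection of the cells compatible with the labels -/
theorem FisPos_equiv {E F T : Type} [Fintype E] [Fintype F] [DecidableEq T] (s : E → T)
    (s' : F → T) (h : ∀ x, Fintype.card {e : E // s e = x} = Fintype.card {f : F // s' f = x}) :
    ∃ σ₀ : E ≃ F, ∀ e, s' (σ₀ e) = s e := by
  let g : ∀ x, {e : E // s e = x} ≃ {f : F // s' f = x} := fun x =>
    Fintype.equivOfCardEq (h x)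
  refine ⟨(Equiv.sigmaFiberEquiv s).symm.trans
    ((Equiv.sigmaCongrRight g).trans (Equiv.sigmaFiberEquiv s')), fun e => ?_⟩
  exact (g (s e) ⟨e, rfl⟩).2

theorem fis_pos {ι κ T V : Type} [Fintype ι] [Fintype κ] [DecidableEq ι] [DecidableEq κ]
    [DecidableEq T] [DecidableEq V] (m : ι → ℕ) (c : ∀ j, Fin (m j) → T)
    (hc : ∀ j, Function.Injective (c j)) (m' : κ → ℕ) (c' : ∀ j, Fin (m' j) → T)
    (hc' : ∀ j, Function.Injective (c' j)) (lab : T → T → V)
    (hlab : ∀ a b a' b', lab a b = lab a' b' → a = a' ∧ b = b')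
    (hmult : ∀ x, Fintype.card {e : Σ j, Fin (m j) // c e.1 e.2 = x} =
      Fintype.card {f : Σ j, Fin (m' j) // c' f.1 f.2 = x}) :
    0 < Fis (∏ j, Matrix.det (Matrix.of fun i k =>
          (X (lab (c j i) (c j k)) : MvPolynomial V ℤ)))
        (∏ j, Matrix.det (Matrix.of fun i k => (X (lab (c' j i) (c' j k)) : MvPolynomial V ℤ))) := by
  classical
  obtain ⟨σ₀, h₀⟩ := FisPos_equiv (fun e : Σ j, Fin (m j) => c e.1 e.2)
    (fun f : Σ j, Fin (m' j) => c' f.1 f.2) hmult
  have hj : ∀ e e' : Σ j, Fin (m j), e.1 = e'.1 → c e.1 e.2 = c e'.1 e'.2 → e = e' := by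
    rintro ⟨j, i⟩ ⟨j', i'⟩ h1 h2
    simp only at h1 h2
    subst h1
    rw [hc j h2]
  have hk : ∀ e e' : Σ j, Fin (m' j), e.1 = e'.1 → c' e.1 e.2 = c' e'.1 e'.2 → e = e' := by
    rintro ⟨j, i⟩ ⟨j', i'⟩ h1 h2
    simp only at h1 h2
    subst h1
    rw [hc' j h2]
  have hpos := grp_pos' (E := Σ j, Fin (m j)) (F := Σ j, Fin (m' j)) (fun e => e.1)
    (fun e => e.1) (fun e => c e.1 e.2) (fun e => c' e.1 e.2) σ₀ h₀ hj hk
  rw [det_prod_expand, det_prod_expand, fis_sum_left]
  refine lt_of_lt_of_eq hpos ?_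
  refine Finset.sum_congr rfl fun w _ => ?_
  rw [fis_sum_right]
  refine Finset.sum_congr rfl fun w' _ => ?_
  by_cases hw : ∀ e, (w e).1 = e.1
  · by_cases hw' : ∀ e, (w' e).1 = e.1
    · rw [if_pos ⟨hw, hw'⟩, if_pos hw, if_pos hw', fis_smul_left, fis_smul_right, fis_count,
        mul_assoc]
      congr 2
      rw [Nat.cast_inj]
      refine Fintype.card_congr (Equiv.subtypeEquivRight fun σ => ?_)
      constructor
      · rintro ⟨h1, h2⟩ e
        rw [h1 e, h2 e]
      · intro h1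
        exact ⟨fun e => (hlab _ _ _ _ (h1 e)).1, fun e => (hlab _ _ _ _ (h1 e)).2⟩
    · rw [if_neg (fun h => hw' h.2), if_neg hw', FisPos_zero_right]
  · rw [if_neg (fun h => hw h.1), if_neg hw, FisPos_zero_left]

end PC
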