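import Mathlib
import Pool.Agent.Lib.MP_ca1492_al.CombDefs

/-!
# MP_ca1492_al, module Supp: contents determine the smallest contents.

All rectangles on the line `l` have the same centre: `2 t - a + b = δ l`.  For one rectangle with
`a, b > 0`, `m = min a b`, the smallest contents are `t - a + 1, ..., t - a + m` (rows: `t - i`,
`i < a = m`; columns of a tall rectangle: `t + i - a + 1`, `i < b = m`).  The number of boxes of
content `x` is `N x = #{(i,j) | t + j - i = x}`, and
`[t - a + 1 ≤ x ≤ t - a + m] = if 2 x ≤ δ then N x - N (x - 1) else 0`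
(for `x ≤ t + b - m` the number of boxes of content `x` is `min m (x - (t - a))` if `x > t - a` and
`0` otherwise, and `2 x ≤ δ` implies `x ≤ t + b - m`; and `2 (t - a + m) ≤ δ`).
Hence the count of `(l, x)` in the multiset of smallest contents is a function of the counts of
`(l, x)` and `(l, x - 1)` in the multiset of contents; sum over the list of rectangles.
-/

namespace PC

variable {Λ : Type} [DecidableEq Λ]

theorem Supp_sum_up (t x : ℤ) (m : ℕ) :
    (∑ i ∈ Finset.range m, (if x = t + (i : ℕ) then (1 : ℤ) else 0)) =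
      if t ≤ x ∧ x < t + m then 1 else 0 := by
  induction m with
  | zero => rw [Finset.sum_range_zero, if_neg (by omega)]
  | succ m ih =>
    rw [Finset.sum_range_succ, ih]
    split_ifs <;> omega

theorem Supp_sum_down (t x : ℤ) (m : ℕ) :
    (∑ i ∈ Finset.range m, (if x = t - (i : ℕ) then (1 : ℤ) else 0)) =
      if t - m < x ∧ x ≤ t then 1 else 0 := by
  induction m with
  | zero => rw [Finset.sum_range_zero, if_neg (by omega)]
  | succ m ih =>
    rw [Finset.sum_range_succ, ih]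
    split_ifs <;> omega

theorem Supp_sum_box (t x : ℤ) (a b : ℕ) :
    (∑ i ∈ Finset.range a, ∑ j ∈ Finset.range b,
      (if x = t + (j : ℕ) - (i : ℕ) then (1 : ℤ) else 0)) =
      max 0 (min (min (a : ℤ) b) (min (x - t + a) (t + b - x))) := by
  have h1 : ∀ i : ℕ, (∑ j ∈ Finset.range b,
      (if x = t + (j : ℕ) - (i : ℕ) then (1 : ℤ) else 0)) =
      if t - i ≤ x ∧ x < t - i + b then 1 else 0 := by
    intro i
    rw [← Supp_sum_up]
    refine Finset.sum_congr rfl fun j _ => ?_
    split_ifs <;> omega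
  rw [Finset.sum_congr rfl fun i _ => h1 i]
  induction a with
  | zero => rw [Finset.sum_range_zero]; omega
  | succ a ih =>
    rw [Finset.sum_range_succ, ih]
    split_ifs <;> omega

theorem Supp_count_map {ι : Type} [Fintype ι] (g : ι → Λ × ℤ) (p : Λ × ℤ) :
    ((((Finset.univ : Finset ι).val.map g).count p : ℕ) : ℤ) =
      ∑ i : ι, (if p = g i then (1 : ℤ) else 0) := by
  rw [Multiset.count_map, ← Finset.filter_val, Finset.card_val, Finset.card_filter]
  push_cast
  rfl

theorem Rect.count_cont' (r : Rect Λ) (x : ℤ) :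
    ((r.cont.count (r.l, x) : ℕ) : ℤ) =
      max 0 (min (min (r.a : ℤ) r.b) (min (x - r.t + r.a) (r.t + r.b - x))) := by
  unfold Rect.cont
  rw [Supp_count_map, Fintype.sum_prod_type, ← Supp_sum_box,
    ← Fin.sum_univ_eq_sum_range (fun i => ∑ j ∈ Finset.range r.b,
      (if x = r.t + (j : ℕ) - (i : ℕ) then (1 : ℤ) else 0))]
  refine Finset.sum_congr rfl fun i _ => ?_
  rw [← Fin.sum_univ_eq_sum_range (fun j => (if x = r.t + (j : ℕ) - (i : ℕ) then (1 : ℤ) else 0))]
  refine Finset.sum_congr rfl fun j _ => ?_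
  simp only [Prod.mk.injEq, true_and]

theorem Rect.count_cont_ne (r : Rect Λ) (l : Λ) (x : ℤ) (h : l ≠ r.l) :
    r.cont.count (l, x) = 0 := by
  rw [Multiset.count_eq_zero]
  intro hm
  unfold Rect.cont at hm
  rw [Multiset.mem_map] at hm
  obtain ⟨p, _, hp⟩ := hm
  rw [Prod.mk.injEq] at hp
  exact h hp.1.symm

omit [DecidableEq Λ] in
theorem Rect.mem_lowM (r : Rect Λ) (p : Λ × ℤ) (hp : p ∈ r.lowM) : p.1 = r.l := by
  unfold Rect.lowM at hp
  rw [Multiset.mem_map] at hp
  obtain ⟨i, _, hi⟩ := hp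
  rw [← hi]
  rfl

theorem Rect.count_lowM_ne (r : Rect Λ) (l : Λ) (x : ℤ) (h : l ≠ r.l) :
    r.lowM.count (l, x) = 0 := by
  rw [Multiset.count_eq_zero]
  intro hm
  exact h (r.mem_lowM _ hm)

theorem Rect.count_lowM' (r : Rect Λ) (x : ℤ) :
    ((r.lowM.count (r.l, x) : ℕ) : ℤ) =
      if r.t - r.a + 1 ≤ x ∧ x < r.t - r.a + 1 + min (r.a : ℤ) r.b then 1 else 0 := by
  unfold Rect.lowM
  rw [Supp_count_map]
  have h1 : ∀ i : Fin r.nrm.a, (if (r.l, x) = r.low i then (1 : ℤ) else 0) =
      (fun k : ℕ => if x = (if r.tall then -(r.nrm.t - (k : ℤ) + r.nrm.b - 1)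
        else r.nrm.t - (k : ℤ)) then (1 : ℤ) else 0) (i : ℕ) := by
    intro i
    simp only [Rect.low, Rect.re, Rect.rs, Prod.mk.injEq, true_and]
  rw [Finset.sum_congr rfl fun i _ => h1 i]
  refine (Fin.sum_univ_eq_sum_range (fun k : ℕ => if x = (if r.tall then
    -(r.nrm.t - (k : ℤ) + r.nrm.b - 1) else r.nrm.t - (k : ℤ)) then (1 : ℤ) else 0) _).trans ?_
  by_cases h : r.b < r.a
  · have ht : r.tall = true := by simp [Rect.tall, h]
    have hn : r.nrm = r.flip := by rw [Rect.nrm, if_pos ht]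
    rw [hn]
    simp only [ht, if_true, Rect.flip]
    have h2 : ∀ k : ℕ, (if x = -(-r.t - (k : ℤ) + r.a - 1) then (1 : ℤ) else 0) =
        if x = (r.t - r.a + 1) + (k : ℕ) then (1 : ℤ) else 0 := by
      intro k
      split_ifs <;> omega
    rw [Finset.sum_congr rfl fun k _ => h2 k, Supp_sum_up]
    split_ifs <;> omega
  · have ht : r.tall = false := by simp [Rect.tall, h]
    have hn : r.nrm = r := by rw [Rect.nrm, if_neg (by rw [ht]; exact Bool.false_ne_true)]
    rw [hn]
    simp only [ht, Bool.false_eq_true, if_false]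
    rw [Supp_sum_down]
    split_ifs <;> omega

theorem Rect.count_lowM (r : Rect Λ) (ha : 0 < r.a) (hb : 0 < r.b) (l : Λ) (x : ℤ) :
    ((r.lowM.count (l, x) : ℕ) : ℤ) = if 2 * x ≤ 2 * r.t - r.a + r.b then
      ((r.cont.count (l, x) : ℕ) : ℤ) - ((r.cont.count (l, x - 1) : ℕ) : ℤ) else 0 := by
  by_cases h : l = r.l
  · subst h
    rw [r.count_lowM', r.count_cont', r.count_cont']
    split_ifs <;> omega
  · rw [r.count_lowM_ne l x h, r.count_cont_ne l x h, r.count_cont_ne l (x - 1) h]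
    simp

theorem Supp_count_sum (s : List (Multiset (Λ × ℤ))) (p : Λ × ℤ) :
    s.sum.count p = (s.map (Multiset.count p)).sum := by
  induction s with
  | nil => simp
  | cons m s ih => rw [List.sum_cons, Multiset.count_add, ih, List.map_cons, List.sum_cons]

omit [DecidableEq Λ] in
theorem Supp_countP_sum (s : List (Multiset (Λ × ℤ))) (P : Λ × ℤ → Prop) [DecidablePred P] :
    s.sum.countP P = (s.map (Multiset.countP P)).sum := by
  induction s with
  | nil => simp
  | cons m s ih => rw [List.sum_cons, Multiset.countP_add, ih, List.map_cons, List.sum_cons]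

theorem Supp_sum_low (M : List (Rect Λ)) (δ : Λ → ℤ)
    (hM : ∀ r ∈ M, 0 < r.a ∧ 0 < r.b ∧ 2 * r.t - r.a + r.b = δ r.l) (l : Λ) (x : ℤ) :
    (((M.map Rect.lowM).sum.count (l, x) : ℕ) : ℤ) = if 2 * x ≤ δ l then
      (((M.map Rect.cont).sum.count (l, x) : ℕ) : ℤ) -
        (((M.map Rect.cont).sum.count (l, x - 1) : ℕ) : ℤ) else 0 := by
  induction M with
  | nil => simp
  | cons r M ih =>
    rw [List.map_cons, List.sum_cons, List.map_cons, List.sum_cons, Multiset.count_add,
      Multiset.count_add, Multiset.count_add]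
    push_cast
    rw [ih fun r' hr' => hM r' (List.mem_cons_of_mem _ hr')]
    obtain ⟨ha, hb, hd⟩ := hM r List.mem_cons_self
    by_cases h : l = r.l
    · rw [r.count_lowM ha hb, hd, ← h]
      split_ifs
      · ring
      · rfl
    · rw [r.count_lowM_ne l x h, r.count_cont_ne l x h, r.count_cont_ne l (x - 1) h]
      simp

theorem lowM_eq (M N : List (Rect Λ)) (δ : Λ → ℤ)
    (hM : ∀ r ∈ M, 0 < r.a ∧ 0 < r.b ∧ 2 * r.t - r.a + r.b = δ r.l)
    (hN : ∀ r ∈ N, 0 < r.a ∧ 0 < r.b ∧ 2 * r.t - r.a + r.b = δ r.l)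
    (h : (M.map Rect.cont).sum = (N.map Rect.cont).sum) :
    (M.map Rect.lowM).sum = (N.map Rect.lowM).sum := by
  refine Multiset.ext.2 fun p => ?_
  obtain ⟨l, x⟩ := p
  have h1 := Supp_sum_low M δ hM l x
  have h2 := Supp_sum_low N δ hN l x
  rw [h, ← h2] at h1
  exact_mod_cast h1

/-- the smallest contents as an explicit multiset -/
theorem Rect.lowM_eq_map (r : Rect Λ) :
    r.lowM = (Multiset.range (min r.a r.b)).map
      (fun i : ℕ => (r.l, r.t - r.a + 1 + (i : ℤ))) := by
  refine Multiset.ext.2 fun p => ?_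
  obtain ⟨l, x⟩ := p
  by_cases h : l = r.l
  · subst h
    have h1 := r.count_lowM' x
    have h2 : ((((Multiset.range (min r.a r.b)).map
        (fun i : ℕ => (r.l, r.t - r.a + 1 + (i : ℤ)))).count (r.l, x) : ℕ) : ℤ) =
        if r.t - r.a + 1 ≤ x ∧ x < r.t - r.a + 1 + min (r.a : ℤ) r.b then 1 else 0 := by
      rw [Multiset.count_map, ← Finset.range_val, ← Finset.filter_val, Finset.card_val,
        Finset.card_filter]
      push_cast
      rw [← Nat.cast_min, ← Supp_sum_up]
      refine Finset.sum_congr rfl fun i _ => ?_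
      simp only [Prod.mk.injEq, true_and]
    rw [← h2] at h1
    exact_mod_cast h1
  · rw [r.count_lowM_ne l x h, eq_comm, Multiset.count_eq_zero]
    intro hm
    rw [Multiset.mem_map] at hm
    obtain ⟨i, _, hi⟩ := hm
    rw [Prod.mk.injEq] at hi
    exact h hi.1.symm

theorem Rect.countP_lowM (r : Rect Λ) (l : Λ) (x d : ℤ) (hd : 2 * r.t - r.a + r.b = d)
    (hl : l = r.l) :
    ((r.lowM.countP (fun p => p.1 = l ∧ p.2 ≤ x ∧ p.2 ≤ d - x) : ℕ) : ℤ) =
      ((r.cont.count (l, x) : ℕ) : ℤ) := by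
  subst hl
  rw [r.count_cont', r.lowM_eq_map, Multiset.countP_map, ← Finset.range_val,
    ← Finset.filter_val, Finset.card_val, Finset.card_filter]
  push_cast
  have key : ∀ m : ℕ, (∑ i ∈ Finset.range m,
      (if r.l = r.l ∧ r.t - r.a + 1 + (i : ℤ) ≤ x ∧ r.t - r.a + 1 + (i : ℤ) ≤ d - x
        then (1 : ℤ) else 0)) = max 0 (min (m : ℤ) (min (x - r.t + r.a) (r.t + r.b - x))) := by
    intro m
    induction m with
    | zero => rw [Finset.sum_range_zero]; omega
    | succ m ih =>
      rw [Finset.sum_range_succ, ih]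
      simp only [true_and]
      split_ifs <;> omega
  rw [key, Nat.cast_min]

theorem Rect.countP_lowM_ne (r : Rect Λ) (l : Λ) (x d : ℤ) (hl : l ≠ r.l) :
    r.lowM.countP (fun p => p.1 = l ∧ p.2 ≤ x ∧ p.2 ≤ d - x) = 0 := by
  rw [Multiset.countP_eq_zero]
  intro p hp hp2
  exact hl (hp2.1.symm.trans (r.mem_lowM p hp))

theorem Supp_sum_cont (M : List (Rect Λ)) (δ : Λ → ℤ)
    (hM : ∀ r ∈ M, 0 < r.a ∧ 0 < r.b ∧ 2 * r.t - r.a + r.b = δ r.l) (l : Λ) (x : ℤ) :
    (((M.map Rect.cont).sum.count (l, x) : ℕ) : ℤ) =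
      (((M.map Rect.lowM).sum.countP (fun p => p.1 = l ∧ p.2 ≤ x ∧ p.2 ≤ δ l - x) : ℕ) : ℤ) := by
  induction M with
  | nil => simp
  | cons r M ih =>
    rw [List.map_cons, List.sum_cons, List.map_cons, List.sum_cons, Multiset.count_add,
      Multiset.countP_add]
    push_cast
    rw [ih fun r' hr' => hM r' (List.mem_cons_of_mem _ hr')]
    obtain ⟨ha, hb, hd⟩ := hM r List.mem_cons_self
    by_cases h : l = r.l
    · rw [r.countP_lowM l x (δ l) (by rw [h]; exact hd) h]
    · rw [r.countP_lowM_ne l x (δ l) h, r.count_cont_ne l x h]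

/-- conversely (not needed for the main theorem): the smallest contents determine the contents -/
theorem cont_eq (M N : List (Rect Λ)) (δ : Λ → ℤ)
    (hM : ∀ r ∈ M, 0 < r.a ∧ 0 < r.b ∧ 2 * r.t - r.a + r.b = δ r.l)
    (hN : ∀ r ∈ N, 0 < r.a ∧ 0 < r.b ∧ 2 * r.t - r.a + r.b = δ r.l)
    (h : (M.map Rect.lowM).sum = (N.map Rect.lowM).sum) :
    (M.map Rect.cont).sum = (N.map Rect.cont).sum := by
  refine Multiset.ext.2 fun p => ?_
  obtain ⟨l, x⟩ := p
  have h1 := Supp_sum_cont M δ hM l x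
  have h2 := Supp_sum_cont N δ hN l x
  rw [h, ← h2] at h1
  exact_mod_cast h1

end PC
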