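import Mathlib
import Pool.Agent.Lib.MP_ca1492_al.FisA

/-!
# MP_ca1492_al, module Pair: derivations applied to products in the augmentation ideal.

Let `d_a` be derivations of `S`, `ε : S → ℤ` a ring homomorphism, `I = ker ε`.  Then
`d_a (I ^ (k+1)) ⊆ I ^ k`, so the value `ε (d_h ... d_1 z)` is `0` for `z ∈ I ^ (h+1)`.  Induction
on the list `la` (for all `lb` of the same length): by the Leibniz rule `d_a (∏ y_b)` is the sum
over the positions of `lb` of `d_a (y_b) * (product of the others)`, and
`d_a (y_b) = ε (d_a y_b) + z`, `z ∈ I`, where the `z` term contributes `0`.  On the other side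
`Fis ((C s * X v) * P) Q = s * Fis P (∂_v Q)` and `∂_v` of `∏ C (sB b) * X (πB b)` is the sum over
the positions with `πB b = v` of `sB b * (product of the others)`.
-/

namespace PC

open MvPolynomial

/-- Leibniz rule for the product of a list -/
theorem pair_leibniz {S B : Type} [CommRing S] (D : S → S)
    (hmul : ∀ f g, D (f * g) = D f * g + f * D g) (y : B → S) (l : List B) :
    D (l.map y).prod = ∑ i : Fin l.length, D (y (l.get i)) * ((l.eraseIdx i).map y).prod := by
  induction l with
  | nil =>
    have h := hmul 1 1
    simp only [mul_one, one_mul] at h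
    have h1 : D (1 : S) = 0 := by simpa using h
    simpa using h1
  | cons b l ih =>
    rw [List.map_cons, List.prod_cons, hmul, ih, Finset.mul_sum]
    have e : (∑ i : Fin (b :: l).length, D (y ((b :: l).get i)) *
        (((b :: l).eraseIdx i).map y).prod) = ∑ i : Fin (l.length + 1),
          D (y ((b :: l).get i)) * (((b :: l).eraseIdx i).map y).prod := rfl
    rw [e, Fin.sum_univ_succ]
    congr 1
    refine Finset.sum_congr rfl fun i _ => ?_
    have hg : (b :: l).get i.succ = l.get i := rfl
    rw [hg]
    simp only [Fin.val_succ, List.eraseIdx_cons_succ, List.map_cons, List.prod_cons]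
    ring

/-- A derivation lowers the powers of an ideal by one. -/
theorem pair_lower {S : Type} [CommRing S] (I : Ideal S) (D : S → S)
    (hadd : ∀ f g, D (f + g) = D f + D g) (hmul : ∀ f g, D (f * g) = D f * g + f * D g) (k : ℕ) :
    ∀ z ∈ I ^ (k + 1), D z ∈ I ^ k := by
  induction k with
  | zero => intro z _; rw [pow_zero, Ideal.one_eq_top]; exact Submodule.mem_top
  | succ k ih =>
    intro z hz
    rw [pow_succ] at hz
    refine Submodule.mul_induction_on hz ?_ ?_
    · intro u hu v hv
      rw [hmul]
      refine add_mem ?_ ?_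
      · rw [pow_succ]
        exact Ideal.mul_mem_mul (ih u hu) hv
      · exact Ideal.mul_mem_right _ _ hu
    · intro u v hu hv
      rw [hadd]
      exact add_mem hu hv

/-- The iterated derivations as an additive map. -/
def pairHom {S A : Type} [CommRing S] (d : A → S → S)
    (hadd : ∀ a f g, d a (f + g) = d a f + d a g) (la : List A) : S →+ S :=
  AddMonoidHom.mk' (fun z => la.foldl (fun f a => d a f) z) (by
    induction la with
    | nil => intro f g; rfl
    | cons a la ih =>
      intro f g
      simp only [List.foldl_cons, hadd]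
      exact ih _ _)

theorem pairHom_apply {S A : Type} [CommRing S] (d : A → S → S)
    (hadd : ∀ a f g, d a (f + g) = d a f + d a g) (la : List A) (z : S) :
    pairHom d hadd la z = la.foldl (fun f a => d a f) z := rfl

theorem pair_vanish {S A : Type} [CommRing S] (ε : S →+* ℤ) (d : A → S → S)
    (hadd : ∀ a f g, d a (f + g) = d a f + d a g)
    (hmul : ∀ a f g, d a (f * g) = d a f * g + f * d a g) (la : List A) :
    ∀ z ∈ RingHom.ker ε ^ (la.length + 1), ε (pairHom d hadd la z) = 0 := by
  induction la with
  | nil =>
    intro z hz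
    rw [List.length_nil, zero_add, pow_one] at hz
    exact hz
  | cons a la ih =>
    intro z hz
    exact ih _ (pair_lower _ (d a) (hadd a) (hmul a) _ z hz)

theorem pair_prod_mem {S B : Type} [CommRing S] (I : Ideal S) (y : B → S) (l : List B)
    (hy : ∀ b ∈ l, y b ∈ I) : (l.map y).prod ∈ I ^ l.length := by
  induction l with
  | nil => rw [List.length_nil, pow_zero, Ideal.one_eq_top]; exact Submodule.mem_top
  | cons b l ih =>
    rw [List.map_cons, List.prod_cons, List.length_cons, pow_succ']
    exact Ideal.mul_mem_mul (hy b (List.mem_cons_self ..))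
      (ih fun c hc => hy c (List.mem_cons_of_mem _ hc))

theorem pair_pderiv {V : Type} [DecidableEq V] (v w : V) (c : ℤ) :
    pderiv v (C c * X w : MvPolynomial V ℤ) = C (if v = w then c else 0) := by
  rw [pderiv_C_mul, pderiv_X]
  by_cases h : v = w
  · subst h
    simp
  · rw [if_neg h, Pi.single_eq_of_ne (fun h' => h h'.symm)]
    simp

theorem pairing {S : Type} [CommRing S] (ε : S →+* ℤ) {A B V : Type} [DecidableEq V]
    (d : A → S → S) (hadd : ∀ a f g, d a (f + g) = d a f + d a g)
    (hmul : ∀ a f g, d a (f * g) = d a f * g + f * d a g)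
    (y : B → S) (πA : A → V) (πB : B → V) (sA : A → ℤ) (sB : B → ℤ)
    (la : List A) (lb : List B) (hlen : la.length = lb.length)
    (hy : ∀ b ∈ lb, ε (y b) = 0)
    (hM : ∀ a ∈ la, ∀ b ∈ lb, ε (d a (y b)) = if πA a = πB b then sA a * sB b else 0) :
    ε (la.foldl (fun f a => d a f) (lb.map y).prod) =
      Fis (la.map (fun a => (C (sA a) * X (πA a) : MvPolynomial V ℤ))).prod
        (lb.map (fun b => (C (sB b) * X (πB b) : MvPolynomial V ℤ))).prod := by
  induction la generalizing lb with
  | nil =>
    have h : lb = [] := List.length_eq_zero_iff.1 (by simpa using hlen.symm)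
    subst h
    simp only [List.foldl_nil, List.map_nil, List.prod_nil, map_one]
    exact fis_one_one.symm
  | cons a la ih =>
    have hlen' : la.length + 1 = lb.length := by simpa using hlen
    have hel : ∀ i : Fin lb.length, (lb.eraseIdx i).length = la.length := by
      intro i
      rw [List.length_eraseIdx_of_lt i.2]
      omega
    rw [List.foldl_cons, ← pairHom_apply d hadd la, pair_leibniz (d a) (hmul a) y lb, map_sum,
      map_sum, List.map_cons, List.prod_cons, mul_assoc, fis_smul_left, fis_X_mul,
      pair_leibniz (fun f => pderiv (πA a) f) (fun f g => ?_)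
        (fun b => (C (sB b) * X (πB b) : MvPolynomial V ℤ)) lb, fis_sum_right, Finset.mul_sum]
    swap
    · rw [Derivation.leibniz, smul_eq_mul, smul_eq_mul]
      ring
    refine Finset.sum_congr rfl fun i _ => ?_
    have hmem : lb.get i ∈ lb := List.get_mem lb i
    have hsub : ∀ b ∈ lb.eraseIdx i, b ∈ lb := fun b hb => List.mem_of_mem_eraseIdx hb
    have hI := ih (lb.eraseIdx i) (hel i).symm (fun b hb => hy b (hsub b hb))
      (fun a' ha' b hb => hM a' (List.mem_cons_of_mem _ ha') b (hsub b hb))
    rw [pair_pderiv, fis_smul_right, ← hI, ← pairHom_apply d hadd la]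
    set P := ((lb.eraseIdx i).map y).prod with hP
    set c : ℤ := ε (d a (y (lb.get i))) with hc
    have hz : ε (pairHom d hadd la ((d a (y (lb.get i)) - (c : S)) * P)) = 0 := by
      apply pair_vanish ε d hadd hmul la
      rw [pow_succ']
      refine Ideal.mul_mem_mul ?_ ?_
      · rw [RingHom.mem_ker, map_sub, map_intCast, ← hc, Int.cast_id, sub_self]
      · rw [← hel i]
        exact pair_prod_mem _ _ _ fun b hb => (RingHom.mem_ker).2 (hy b (hsub b hb))
    have h1 : d a (y (lb.get i)) * P = (d a (y (lb.get i)) - (c : S)) * P + c • P := by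
      rw [zsmul_eq_mul]
      ring
    rw [h1, map_add, map_add, hz, zero_add, map_zsmul, map_zsmul, smul_eq_mul]
    have h2 : c = if πA a = πB (lb.get i) then sA a * sB (lb.get i) else 0 :=
      hM a (List.mem_cons_self ..) _ hmem
    rw [h2]
    by_cases h : πA a = πB (lb.get i)
    · rw [if_pos h, if_pos h]
      ring
    · rw [if_neg h, if_neg h]
      ring

end PC
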