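import Mathlib
import Pool.Agent.Lib.MP_ca1492_al.CombDefs

/-!
# MP_ca1492_al, module NegMap: the letter change `(l,i) ↦ (l,-i)` and change of scalars.

`neg'` is a ring automorphism (`kp` is invariant): `(neg' f * neg' g) w = (f * g) (neg w)` by
induction on `w`, using `D x (neg' f) = neg' (D x̄ f)`, `T x (neg' f) = neg' (T x̄ f)`, `x̄ = neg x`.
`mp φ q'` is a ring homomorphism if `φ q = q'`, commuting with `D`, `T`, `neg'`.
-/

set_option linter.unusedSectionVars false

namespace PC
namespace QSh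

variable {Λ : Type} [DecidableEq Λ] {R : Type} [CommRing R] {q : Rˣ}

theorem NegMap_map_map (w : List (Λ × ℤ)) :
    (w.map (fun x => (x.1, -x.2))).map (fun x => (x.1, -x.2)) = w := by
  rw [List.map_map]
  have h : ((fun x : Λ × ℤ => (x.1, -x.2)) ∘ fun x => (x.1, -x.2)) = id := by
    funext x
    simp
  rw [h, List.map_id]

theorem NegMap_kp (x y : Λ × ℤ) : kp (x.1, -x.2) (y.1, -y.2) = kp x y := by
  unfold kp
  by_cases h : y.1 = x.1
  · simp only [h, if_true]
    split_ifs <;> omega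
  · simp only [h, if_false]

theorem NegMap_kap (x : Λ × ℤ) (w : List (Λ × ℤ)) :
    kap (x.1, -x.2) (w.map (fun x => (x.1, -x.2))) = kap x w := by
  induction w with
  | nil => rfl
  | cons y w ih =>
    rw [List.map_cons, kap_cons, kap_cons, ih, NegMap_kp]

theorem neg'_neg' (f : QSh Λ R q) : neg' (neg' f) = f := by
  ext w
  change f _ = f w
  rw [NegMap_map_map]

theorem D_neg' (x : Λ × ℤ) (f : QSh Λ R q) : D x (neg' f) = neg' (D (x.1, -x.2) f) := rfl

theorem T_neg' (x : Λ × ℤ) (f : QSh Λ R q) : T x (neg' f) = neg' (T (x.1, -x.2) f) := by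
  ext w
  change ((q ^ kap x w : Rˣ) : R) * f _ =
    ((q ^ kap (x.1, -x.2) (w.map (fun x => (x.1, -x.2))) : Rˣ) : R) * f _
  rw [NegMap_kap]

theorem neg'_mul (f g : QSh Λ R q) : neg' (f * g) = neg' f * neg' g := by
  have key : ∀ w : List (Λ × ℤ), ∀ f g : QSh Λ R q,
      (neg' (f * g)) w = (neg' f * neg' g) w := by
    intro w
    induction w with
    | nil => intro f g; rfl
    | cons x u ih =>
      intro f g
      have e1 : (neg' (f * g)) (x :: u) =
          (neg' (D (x.1, -x.2) f * g)) u + (neg' (T (x.1, -x.2) f * D (x.1, -x.2) g)) u := rfl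
      rw [e1, ih, ih, mul_cons, D_neg', D_neg', T_neg']
  exact ext fun w => key w f g

theorem neg'_one : neg' (1 : QSh Λ R q) = 1 := by
  ext w
  cases w with
  | nil => rfl
  | cons x w => rfl

theorem neg'_wd (u : List (Λ × ℤ)) :
    neg' (wd u : QSh Λ R q) = wd (u.map (fun x => (x.1, -x.2))) := by
  ext w
  change (if w.map (fun x => (x.1, -x.2)) = u then (1 : R) else 0) =
    if w = u.map (fun x => (x.1, -x.2)) then 1 else 0
  have h : (w.map (fun x => (x.1, -x.2)) = u) ↔ (w = u.map (fun x => (x.1, -x.2))) := by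
    constructor
    · intro h
      rw [← h, NegMap_map_map]
    · intro h
      rw [h, NegMap_map_map]
  simp only [h]

theorem NegMap_prod (L : List (QSh Λ R q)) : neg' L.prod = (L.map neg').prod := by
  induction L with
  | nil => rw [List.prod_nil, neg'_one, List.map_nil, List.prod_nil]
  | cons a L ih => rw [List.prod_cons, neg'_mul, ih, List.map_cons, List.prod_cons]

theorem neg'_let (u : List (Λ × ℤ)) :
    neg' (let_ u : QSh Λ R q) = let_ (u.map (fun x => (x.1, -x.2))) := by
  unfold let_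
  rw [NegMap_prod, List.map_map, List.map_map]
  congr 1
  apply List.map_congr_left
  intro x _
  exact neg'_wd [x]

theorem neg'_prod (L : List (QSh Λ R q)) : neg' L.prod = (L.map neg').prod := NegMap_prod L

theorem neg'_rdet (p : R) (G : ℤ → ℤ → QSh Λ R q) (m : ℕ) (c e : Fin m → ℤ) :
    neg' (rdet p G m c e) = rdet p (fun s t => neg' (G s t)) m c e := by
  induction m with
  | zero => exact neg'_one
  | succ m ih =>
    have h1 : neg' (rdet p G (m + 1) c e) = negL (rdet p G (m + 1) c e) := rfl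
    rw [h1]
    unfold rdet
    rw [map_sum]
    apply Finset.sum_congr rfl
    intro k _
    rw [map_smul]
    have h2 : negL (G (c 0) (e k) * rdet p G m (fun i => c i.succ)
        (fun i => e (k.succAbove i))) = neg' (G (c 0) (e k) * rdet p G m (fun i => c i.succ)
        (fun i => e (k.succAbove i))) := rfl
    rw [h2, neg'_mul, ih]

variable {S : Type} [CommRing S] (φ : R →+* S) (q' : Sˣ)

theorem mp_add (f g : QSh Λ R q) : (mp φ q' (f + g) : QSh Λ S q') = mp φ q' f + mp φ q' g := by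
  ext w
  exact map_add φ (f w) (g w)

theorem NegMap_mp_sub (f g : QSh Λ R q) :
    (mp φ q' (f - g) : QSh Λ S q') = mp φ q' f - mp φ q' g := by
  ext w
  exact map_sub φ (f w) (g w)

theorem NegMap_mp_sum {ι : Type} (s : Finset ι) (F : ι → QSh Λ R q) :
    (mp φ q' (∑ i ∈ s, F i) : QSh Λ S q') = ∑ i ∈ s, mp φ q' (F i) := by
  classical
  induction s using Finset.induction_on with
  | empty =>
    rw [Finset.sum_empty, Finset.sum_empty]
    ext w
    exact map_zero φ
  | insert a s ha ih =>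
    rw [Finset.sum_insert ha, Finset.sum_insert ha, mp_add, ih]

theorem mp_smul (c : R) (f : QSh Λ R q) :
    (mp φ q' (c • f) : QSh Λ S q') = φ c • mp φ q' f := by
  ext w
  exact map_mul φ c (f w)

theorem mp_one : (mp φ q' (1 : QSh Λ R q) : QSh Λ S q') = 1 := by
  ext w
  cases w with
  | nil => exact map_one φ
  | cons x w => exact map_zero φ

theorem mp_D (x : Λ × ℤ) (f : QSh Λ R q) :
    (mp φ q' (D x f) : QSh Λ S q') = D x (mp φ q' f) := rfl

theorem NegMap_units (h : φ (q : R) = (q' : S)) (n : ℤ) :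
    φ ((q ^ n : Rˣ) : R) = ((q' ^ n : Sˣ) : S) := by
  have h1 : Units.map (φ : R →* S) q = q' := by
    apply Units.ext
    exact h
  rw [← h1, ← map_zpow]
  rfl

theorem mp_T (h : φ (q : R) = (q' : S)) (x : Λ × ℤ) (f : QSh Λ R q) :
    (mp φ q' (T x f) : QSh Λ S q') = T x (mp φ q' f) := by
  ext w
  change φ (((q ^ kap x w : Rˣ) : R) * f w) = ((q' ^ kap x w : Sˣ) : S) * φ (f w)
  rw [map_mul, NegMap_units φ q' h]

theorem mp_mul (h : φ (q : R) = (q' : S)) (f g : QSh Λ R q) :
    (mp φ q' (f * g) : QSh Λ S q') = mp φ q' f * mp φ q' g := by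
  have key : ∀ w : List (Λ × ℤ), ∀ f g : QSh Λ R q,
      (mp φ q' (f * g) : QSh Λ S q') w = (mp φ q' f * mp φ q' g : QSh Λ S q') w := by
    intro w
    induction w with
    | nil => intro f g; exact map_mul φ _ _
    | cons x u ih =>
      intro f g
      have e1 : (mp φ q' (f * g) : QSh Λ S q') (x :: u) =
          φ ((D x f * g) u + (T x f * D x g) u) := rfl
      have e2 : φ ((D x f * g) u) = (mp φ q' (D x f * g) : QSh Λ S q') u := rfl
      have e3 : φ ((T x f * D x g) u) = (mp φ q' (T x f * D x g) : QSh Λ S q') u := rfl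
      rw [e1, map_add, e2, e3, ih, ih, mul_cons, mp_D, mp_D, mp_T φ q' h]
  exact ext fun w => key w f g

theorem mp_prod (h : φ (q : R) = (q' : S)) (L : List (QSh Λ R q)) :
    (mp φ q' L.prod : QSh Λ S q') = (L.map (mp φ q')).prod := by
  induction L with
  | nil => rw [List.prod_nil, mp_one, List.map_nil, List.prod_nil]
  | cons a L ih => rw [List.prod_cons, mp_mul φ q' h, ih, List.map_cons, List.prod_cons]

theorem mp_neg' (f : QSh Λ R q) : (mp φ q' (neg' f) : QSh Λ S q') = neg' (mp φ q' f) := rfl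

theorem NegMap_mp_wd (u : List (Λ × ℤ)) :
    (mp φ q' (wd u : QSh Λ R q) : QSh Λ S q') = wd u := by
  ext w
  change φ (if w = u then (1 : R) else 0) = if w = u then (1 : S) else 0
  split_ifs
  · exact map_one φ
  · exact map_zero φ

theorem mp_seg (l : Λ) (i j : ℤ) : (mp φ q' (seg l i j : QSh Λ R q) : QSh Λ S q') = seg l i j := by
  unfold seg
  split_ifs
  · ext w
    exact map_zero φ
  · exact NegMap_mp_wd φ q' _

theorem mp_Sg (τ : Bool) (l : Λ) (i j : ℤ) :
    (mp φ q' (Sg τ l i j : QSh Λ R q) : QSh Λ S q') = Sg τ l i j := by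
  unfold Sg
  split_ifs
  · rw [mp_neg', mp_seg]
  · rw [mp_seg]

theorem mp_Eop (h : φ (q : R) = (q' : S)) (l : Λ) (i : ℤ) (n : ℕ) (f : QSh Λ R q) :
    (mp φ q' (Eop l i n f) : QSh Λ S q') = Eop l i n (mp φ q' f) := by
  induction n generalizing i f with
  | zero => rfl
  | succ n ih =>
    have e1 : Eop l i (n + 1) f = Eop l (i + 1) n (D (l, i) f) -
        ((q⁻¹ : Rˣ) : R) • (D (l, i) (Eop l (i + 1) n f)) := rfl
    have e2 : Eop l i (n + 1) (mp φ q' f : QSh Λ S q') =
        Eop l (i + 1) n (D (l, i) (mp φ q' f)) -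
        ((q'⁻¹ : Sˣ) : S) • (D (l, i) (Eop l (i + 1) n (mp φ q' f))) := rfl
    have e3 : φ ((q⁻¹ : Rˣ) : R) = ((q'⁻¹ : Sˣ) : S) := by
      have := NegMap_units φ q' h (-1)
      simpa using this
    rw [e1, e2, NegMap_mp_sub, mp_smul, ih, mp_D, mp_D, ih, e3]

theorem mp_Ev (h : φ (q : R) = (q' : S)) (τ : Bool) (l : Λ) (i j : ℤ) (f : QSh Λ R q) :
    (mp φ q' (Ev τ l i j f) : QSh Λ S q') = Ev τ l i j (mp φ q' f) := by
  cases τ with
  | false =>
    have e1 : (Ev false l i j : QSh Λ R q →ₗ[R] QSh Λ R q) = Eop l i (j - i).toNat := rfl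
    have e2 : (Ev false l i j : QSh Λ S q' →ₗ[S] QSh Λ S q') = Eop l i (j - i).toNat := rfl
    rw [e1, e2, mp_Eop φ q' h]
  | true =>
    have e1 : Ev true l i j f = neg' (Eop l (-j) (j - i).toNat (neg' f)) := rfl
    have e2 : Ev true l i j (mp φ q' f : QSh Λ S q') =
      neg' (Eop l (-j) (j - i).toNat (neg' (mp φ q' f))) := rfl
    rw [e1, e2, mp_neg', mp_Eop φ q' h, mp_neg']

theorem mp_rdet (h : φ (q : R) = (q' : S)) (p : R) (G : ℤ → ℤ → QSh Λ R q) (m : ℕ)
    (c e : Fin m → ℤ) :
    (mp φ q' (rdet p G m c e) : QSh Λ S q') = rdet (φ p) (fun s t => mp φ q' (G s t)) m c e := by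
  induction m with
  | zero => exact mp_one φ q'
  | succ m ih =>
    unfold rdet
    rw [NegMap_mp_sum]
    apply Finset.sum_congr rfl
    intro k _
    rw [mp_smul, mp_mul φ q' h, ih, map_pow]

/-- the operator version: products in the opposite algebra are compositions -/
theorem mp_rdet_op (h : φ (q : R) = (q' : S)) (p : R)
    (H : ℤ → ℤ → (QSh Λ R q →ₗ[R] QSh Λ R q)) (H' : ℤ → ℤ → (QSh Λ S q' →ₗ[S] QSh Λ S q'))
    (hH : ∀ s t f, (mp φ q' (H s t f) : QSh Λ S q') = H' s t (mp φ q' f))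
    (m : ℕ) (c e : Fin m → ℤ) (f : QSh Λ R q) :
    (mp φ q' ((rdet p (fun s t => (MulOpposite.op (H s t) : (Module.End R (QSh Λ R q))ᵐᵒᵖ))
        m c e).unop f) : QSh Λ S q') =
      (rdet (φ p) (fun s t => (MulOpposite.op (H' s t) : (Module.End S (QSh Λ S q'))ᵐᵒᵖ))
        m c e).unop (mp φ q' f) := by
  induction m generalizing f with
  | zero => rfl
  | succ m ih =>
    unfold rdet
    rw [Finset.unop_sum, Finset.unop_sum, LinearMap.sum_apply, LinearMap.sum_apply,
      NegMap_mp_sum]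
    apply Finset.sum_congr rfl
    intro k _
    rw [MulOpposite.unop_smul, MulOpposite.unop_smul, LinearMap.smul_apply, LinearMap.smul_apply,
      mp_smul, map_pow, MulOpposite.unop_mul, MulOpposite.unop_mul, Module.End.mul_apply,
      Module.End.mul_apply, ih, MulOpposite.unop_op, MulOpposite.unop_op, hH]

end QSh
end PC
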