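import Mathlib
import Pool.Agent.Lib.MP_ca1492_al.CombDefs

/-!
# MP_ca1492_al, module Seg: segments in the quantum shuffle algebra.

`seg l i j` is the indicator of the word `(l,i), ..., (l,j)`.  All statements are direct:
`up l i (n+1) = (l,i) :: up l (i+1) n`, so `wd (up l i (n+1)) (x :: w) = 1` iff `x = (l,i)` and
`w = up l (i+1) n`.  `T_seg`: evaluate at `w`; if `w` is the word of the segment then
`kap x w = sk l x i j` (induction on the length, for all `i`), otherwise both sides vanish.
-/

set_option linter.unusedSectionVars false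

namespace PC
namespace QSh

variable {Λ : Type} [DecidableEq Λ] {R : Type} [CommRing R] {q : Rˣ}

theorem seg_lt (l : Λ) {i j : ℤ} (h : j + 1 < i) : (seg l i j : QSh Λ R q) = 0 := by
  unfold seg
  rw [if_pos h]

theorem Seg_ge (l : Λ) {i j : ℤ} (h : ¬ j + 1 < i) :
    (seg l i j : QSh Λ R q) = wd (up l i (j + 1 - i).toNat) := by
  unfold seg
  rw [if_neg h]

theorem seg_one (l : Λ) (j : ℤ) : (seg l (j + 1) j : QSh Λ R q) = 1 := by
  rw [Seg_ge l (lt_irrefl _)]
  have h0 : (j + 1 - (j + 1)).toNat = 0 := by simp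
  rw [h0]
  rfl

theorem seg_single (l : Λ) (i : ℤ) : (seg l i i : QSh Λ R q) = wd [(l, i)] := by
  rw [Seg_ge l (by omega)]
  have h0 : (i + 1 - i).toNat = 1 := by
    have : i + 1 - i = 1 := by ring
    rw [this]
    rfl
  rw [h0]
  rfl

theorem seg_nil (l : Λ) (i j : ℤ) :
    (seg l i j : QSh Λ R q) [] = if i = j + 1 then 1 else 0 := by
  by_cases h : j + 1 < i
  · rw [seg_lt l h, if_neg (by omega)]
    rfl
  · by_cases h' : i = j + 1
    · subst h'
      rw [seg_one, if_pos rfl]
      rfl
    · rw [Seg_ge l h, if_neg h']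
      obtain ⟨n, hn⟩ : ∃ n : ℕ, (j + 1 - i).toNat = n + 1 := ⟨(j + 1 - i).toNat - 1, by omega⟩
      rw [hn, wd_apply, if_neg]
      intro h2
      exact List.cons_ne_nil _ _ h2.symm

theorem D_seg (l : Λ) (x : Λ × ℤ) (i j : ℤ) :
    D x (seg l i j : QSh Λ R q) = if x = (l, i) then seg l (i + 1) j else 0 := by
  by_cases h : j + 1 < i
  · rw [seg_lt l h, map_zero]
    split_ifs
    · rw [seg_lt l (by omega)]
    · rfl
  · by_cases h' : i = j + 1
    · subst h'
      rw [seg_one, D_one]
      split_ifs
      · rw [seg_lt l (by omega)]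
      · rfl
    · rw [Seg_ge l h]
      obtain ⟨n, hn⟩ : ∃ n : ℕ, (j + 1 - i).toNat = n + 1 := ⟨(j + 1 - i).toNat - 1, by omega⟩
      have hn' : (j + 1 - (i + 1)).toNat = n := by omega
      rw [hn]
      ext w
      rw [D_apply, wd_apply]
      have hu : up l i (n + 1) = (l, i) :: up l (i + 1) n := rfl
      rw [hu]
      by_cases hx : x = (l, i)
      · rw [if_pos hx, Seg_ge l (by omega), hn', wd_apply, hx]
        by_cases hw : w = up l (i + 1) n
        · rw [if_pos hw, if_pos (by rw [hw])]
        · rw [if_neg hw, if_neg]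
          intro h2
          exact hw (List.cons_injective h2)
      · rw [if_neg hx, if_neg]
        · rfl
        · intro h2
          exact hx (List.cons.inj h2).1

theorem Seg_kap (l : Λ) (x : Λ × ℤ) (n : ℕ) : ∀ i : ℤ,
    kap x (up l i n) = sk l x i (i + n - 1) := by
  induction n with
  | zero =>
    intro i
    have hu : up l i 0 = [] := rfl
    rw [hu, kap_nil]
    unfold sk
    rw [if_pos (Or.inl (by push_cast; omega))]
  | succ n ih =>
    intro i
    have hu : up l i (n + 1) = (l, i) :: up l (i + 1) n := rfl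
    rw [hu, kap_cons, ih (i + 1)]
    unfold sk kp
    by_cases hx : x.1 = l
    · have hx' : l = x.1 := hx.symm
      have hx'' : ¬ (x.1 ≠ l) := fun h => h hx
      push_cast
      simp only [hx', ne_eq, not_true_eq_false, or_false, if_true]
      split_ifs <;> omega
    · have hx' : ¬ l = x.1 := fun h => hx h.symm
      rw [if_pos (Or.inr hx), if_pos (Or.inr hx), if_neg hx']
      rfl

theorem T_seg (l : Λ) (x : Λ × ℤ) (i j : ℤ) :
    T x (seg l i j : QSh Λ R q) = ((q ^ sk l x i j : Rˣ) : R) • seg l i j := by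
  by_cases h : j + 1 < i
  · rw [seg_lt l h, map_zero, smul_zero]
  · rw [Seg_ge l h]
    ext w
    rw [T_apply, smul_apply, wd_apply]
    by_cases hw : w = up l i (j + 1 - i).toNat
    · rw [hw, Seg_kap]
      have e : i + ((j + 1 - i).toNat : ℤ) - 1 = j := by omega
      rw [e]
    · rw [if_neg hw, mul_zero, mul_zero]

theorem T_seg_far (l : Λ) (x i j : ℤ) (h : x + 1 < i) :
    T (l, x) (seg l i j : QSh Λ R q) = seg l i j := by
  have e : sk l (l, x) i j = 0 := by
    unfold sk
    split_ifs <;> omega
  rw [T_seg, e, zpow_zero, Units.val_one, one_smul]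

end QSh
end PC
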