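import Mathlib
import Pool.Agent.Lib.MP_ca1492_al.NegMap
import Pool.Agent.Lib.MP_ca1492_al.Seg

/-!
# MP_ca1492_al, module QOne: `q = 1`, the classical shuffle algebra.

`T x = id`, the product is commutative (induction on the word), `D x` is a derivation, hence the
iterated commutators `Eop` (here `Eop l i (n+1) = Eop l (i+1) n ∘ D (l,i) - D (l,i) ∘ Eop l (i+1) n`)
are derivations, hence `Ev`.
`Eop_seg`: induction on `n` for all `i`: `Eop l (i+1) n (D (l,i) [i',j'])` is `[i+n+2, j']` if
`i = i'`; the other term is `D (l,i)` of `[i+n+2, j']` (if `i' = i+1`), which is `0` by `D_seg`.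
`Eop_neg`: `D (l,i) (neg' [i',j']) = neg' (D (l,-i) [i',j'])` is `neg' [i'+1,j']` if `i' = -i`.
Induction: the first term asks for `i' = -i` and then `i + 1 + n = -(i'+1) = i - 1`: never; the
second is `- D (l,i)` of `(-1)^n neg' [-i, j']` (if `i + 1 + n = -i'`), i.e.
`(-1)^(n+1) neg' [1-i, j']`.
`Ev_pair`: the four cases of types, evaluated at the empty word with `seg_nil`; for different
types the value is `(-1)^(j-i)` if the sets of contents agree.
-/

set_option linter.unusedSectionVars false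

namespace PC
namespace QSh

variable {Λ : Type} [DecidableEq Λ]

theorem T_q_one (x : Λ × ℤ) (f : QSh Λ ℤ 1) : T x f = f := by
  ext w
  rw [T_apply, one_zpow, Units.val_one, one_mul]

theorem mul_comm_q_one (f g : QSh Λ ℤ 1) : f * g = g * f := by
  have h : ∀ w, ∀ f g : QSh Λ ℤ 1, (f * g) w = (g * f) w := by
    intro w
    induction w with
    | nil => intro f g; rw [mul_nil, mul_nil, mul_comm]
    | cons x u ih =>
      intro f g
      rw [mul_cons, mul_cons, T_q_one, T_q_one, ih (D x f) g, ih f (D x g), add_comm]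
  exact ext fun w => h w f g

theorem D_der (x : Λ × ℤ) (f g : QSh Λ ℤ 1) : D x (f * g) = D x f * g + f * D x g := by
  rw [D_mul, T_q_one]

theorem QOne_Eop_succ (l : Λ) (i : ℤ) (n : ℕ) (f : QSh Λ ℤ 1) :
    Eop l i (n + 1) f = Eop l (i + 1) n (D (l, i) f) - D (l, i) (Eop l (i + 1) n f) := by
  change Eop l (i + 1) n (D (l, i) f) -
      (((1 : ℤˣ)⁻¹ : ℤˣ) : ℤ) • (D (l, i) (Eop l (i + 1) n f)) = _
  rw [inv_one, Units.val_one, one_smul]

theorem Eop_der (l : Λ) (i : ℤ) (n : ℕ) (f g : QSh Λ ℤ 1) :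
    Eop l i n (f * g) = Eop l i n f * g + f * Eop l i n g := by
  induction n generalizing i f g with
  | zero => exact D_der (l, i) f g
  | succ n ih =>
    rw [QOne_Eop_succ, QOne_Eop_succ, QOne_Eop_succ, D_der, map_add, ih, ih, ih, map_add, D_der,
      D_der]
    noncomm_ring

theorem Ev_der (τ : Bool) (l : Λ) (i j : ℤ) (f g : QSh Λ ℤ 1) :
    Ev τ l i j (f * g) = Ev τ l i j f * g + f * Ev τ l i j g := by
  cases τ with
  | false => exact Eop_der l i (j - i).toNat f g
  | true =>
    change neg' (Eop l (-j) (j - i).toNat (neg' (f * g))) =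
      neg' (Eop l (-j) (j - i).toNat (neg' f)) * g + f * neg' (Eop l (-j) (j - i).toNat (neg' g))
    rw [neg'_mul, Eop_der]
    have h : ∀ a b : QSh Λ ℤ 1, neg' (a + b) = neg' a + neg' b := fun _ _ => rfl
    rw [h, neg'_mul, neg'_mul, neg'_neg', neg'_neg']

theorem Eop_seg (l l' : Λ) (i i' j' : ℤ) (n : ℕ) :
    Eop l i n (seg l' i' j' : QSh Λ ℤ 1) = if l = l' ∧ i = i' then seg l (i + n + 1) j' else 0 := by
  induction n generalizing i i' with
  | zero =>
    change D (l, i) (seg l' i' j' : QSh Λ ℤ 1) = _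
    rw [D_seg]
    by_cases h : l = l' ∧ i = i'
    · obtain ⟨rfl, rfl⟩ := h
      simp
    · rw [if_neg h, if_neg]
      intro h'
      exact h ⟨congrArg Prod.fst h', congrArg Prod.snd h'⟩
  | succ n ih =>
    rw [QOne_Eop_succ, D_seg, ih]
    have h2 : D (l, i) (if l = l' ∧ i + 1 = i' then seg l (i + 1 + n + 1) j' else 0 :
        QSh Λ ℤ 1) = 0 := by
      split_ifs with h
      · rw [D_seg, if_neg]
        intro h'
        have := congrArg Prod.snd h'
        simp only at this
        omega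
      · exact map_zero _
    rw [h2, sub_zero]
    by_cases h : l = l' ∧ i = i'
    · obtain ⟨rfl, rfl⟩ := h
      rw [if_pos rfl, ih, if_pos ⟨rfl, rfl⟩, if_pos ⟨rfl, rfl⟩]
      congr 1
      push_cast
      ring
    · rw [if_neg h, if_neg, map_zero]
      intro h'
      exact h ⟨congrArg Prod.fst h', congrArg Prod.snd h'⟩

theorem QOne_neg_zero : neg' (0 : QSh Λ ℤ 1) = 0 := rfl

theorem QOne_neg_smul (c : ℤ) (f : QSh Λ ℤ 1) : neg' (c • f) = c • neg' f := negL.map_smul c f

theorem QOne_D_neg_seg (l l' : Λ) (i i' j' : ℤ) :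
    D (l, i) (neg' (seg l' i' j') : QSh Λ ℤ 1) =
      if l = l' ∧ i = -i' then neg' (seg l (1 - i) j') else 0 := by
  rw [D_neg', D_seg]
  by_cases h : l = l' ∧ i = -i'
  · obtain ⟨rfl, rfl⟩ := h
    have e : (1 : ℤ) - -i' = i' + 1 := by ring
    rw [if_pos (by simp), if_pos ⟨rfl, rfl⟩, e]
  · rw [if_neg h, if_neg]
    · rfl
    · intro h'
      have h1 := congrArg Prod.fst h'
      have h2 := congrArg Prod.snd h'
      simp only at h1 h2
      exact h ⟨h1, by omega⟩

theorem Eop_neg (l l' : Λ) (i i' j' : ℤ) (n : ℕ) :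
    Eop l i n (neg' (seg l' i' j') : QSh Λ ℤ 1) =
      if l = l' ∧ i + n = -i' then ((-1 : ℤ) ^ n) • neg' (seg l (1 - i) j') else 0 := by
  induction n generalizing i i' with
  | zero =>
    change D (l, i) (neg' (seg l' i' j') : QSh Λ ℤ 1) = _
    rw [QOne_D_neg_seg]
    simp
  | succ n ih =>
    rw [QOne_Eop_succ, QOne_D_neg_seg, ih]
    have h1 : Eop l (i + 1) n (if l = l' ∧ i = -i' then neg' (seg l (1 - i) j') else 0 :
        QSh Λ ℤ 1) = 0 := by
      split_ifs with h
      · obtain ⟨rfl, rfl⟩ := h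
        rw [ih, if_neg]
        rintro ⟨-, h'⟩
        omega
      · exact map_zero _
    rw [h1, zero_sub]
    by_cases h : l = l' ∧ i + 1 + n = -i'
    · rw [if_pos h, if_pos ⟨h.1, by push_cast; omega⟩, map_smul, QOne_D_neg_seg,
        if_pos ⟨rfl, by ring⟩, pow_succ, mul_neg_one, neg_smul]
    · rw [if_neg h, if_neg, map_zero, neg_zero]
      rintro ⟨h1, h2⟩
      push_cast at h2
      exact h ⟨h1, by omega⟩

theorem QOne_neg_nil (f : QSh Λ ℤ 1) : (neg' f) [] = f [] := rfl

theorem Sg_nil (τ : Bool) (l : Λ) {i j : ℤ} (h : i ≤ j) : (Sg τ l i j : QSh Λ ℤ 1) [] = 0 := by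
  cases τ with
  | false =>
    change (seg l i j : QSh Λ ℤ 1) [] = 0
    rw [seg_nil, if_neg (by omega)]
  | true =>
    change (seg l (-j) (-i) : QSh Λ ℤ 1) [] = 0
    rw [seg_nil, if_neg (by omega)]

theorem QOne_smul_nil (c : ℤ) (f : QSh Λ ℤ 1) : (c • f) [] = c * f [] := rfl

theorem Ev_pair (τ τ' : Bool) (l l' : Λ) {i j i' j' : ℤ} (h : i ≤ j) (h' : i' ≤ j') :
    (Ev τ l i j (Sg τ' l' i' j' : QSh Λ ℤ 1)) [] =
      if (l, i, j) = (l', i', j') then sn τ i j * sn τ' i' j' else 0 := by
  have hn : ((j - i).toNat : ℤ) = j - i := Int.toNat_of_nonneg (by omega)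
  have hiff : (l, i, j) = (l', i', j') ↔ l = l' ∧ i = i' ∧ j = j' := by
    simp only [Prod.mk.injEq]
  have sf : ∀ a b : ℤ, sn false a b = 1 := fun _ _ => rfl
  have st : ∀ a b : ℤ, sn true a b = (-1) ^ (b - a).toNat := fun _ _ => rfl
  cases τ with
  | false =>
    cases τ' with
    | false =>
      change (Eop l i (j - i).toNat (seg l' i' j' : QSh Λ ℤ 1)) [] = _
      rw [Eop_seg, hn]
      by_cases h1 : l = l' ∧ i = i'
      · rw [if_pos h1, seg_nil]
        by_cases h2 : j = j'
        · rw [if_pos (by omega), if_pos (hiff.2 ⟨h1.1, h1.2, h2⟩), sf, sf, mul_one]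
        · rw [if_neg (by omega), if_neg]
          exact fun h3 => h2 (hiff.1 h3).2.2
      · rw [if_neg h1, if_neg]
        · rfl
        · exact fun h3 => h1 ⟨(hiff.1 h3).1, (hiff.1 h3).2.1⟩
    | true =>
      change (Eop l i (j - i).toNat (neg' (seg l' (-j') (-i')) : QSh Λ ℤ 1)) [] = _
      rw [Eop_neg, hn]
      by_cases h1 : l = l' ∧ i + (j - i) = - -j'
      · rw [if_pos h1, QOne_smul_nil, QOne_neg_nil, seg_nil]
        by_cases h2 : i = i'
        · have h3 : j = j' := by omega
          rw [if_pos (by omega), if_pos (hiff.2 ⟨h1.1, h2, h3⟩), sf, st, one_mul, mul_one, h2, h3]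
        · rw [if_neg (by omega), if_neg, mul_zero]
          exact fun h3 => h2 (hiff.1 h3).2.1
      · rw [if_neg h1, if_neg]
        · rfl
        · intro h3
          obtain ⟨a, b, c⟩ := hiff.1 h3
          exact h1 ⟨a, by omega⟩
  | true =>
    cases τ' with
    | false =>
      change (Eop l (-j) (j - i).toNat (neg' (seg l' i' j') : QSh Λ ℤ 1)) [] = _
      rw [Eop_neg, hn]
      by_cases h1 : l = l' ∧ -j + (j - i) = -i'
      · rw [if_pos h1, QOne_smul_nil, QOne_neg_nil, seg_nil]
        by_cases h2 : j = j'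
        · have h3 : i = i' := by omega
          rw [if_pos (by omega), if_pos (hiff.2 ⟨h1.1, h3, h2⟩), sf, st, mul_one]
        · rw [if_neg (by omega), if_neg, mul_zero]
          exact fun h3 => h2 (hiff.1 h3).2.2
      · rw [if_neg h1, if_neg]
        · rfl
        · intro h3
          obtain ⟨a, b, c⟩ := hiff.1 h3
          exact h1 ⟨a, by omega⟩
    | true =>
      change (Eop l (-j) (j - i).toNat
        (neg' (neg' (seg l' (-j') (-i'))) : QSh Λ ℤ 1)) [] = _
      rw [neg'_neg', Eop_seg, hn]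
      by_cases h1 : l = l' ∧ -j = -j'
      · rw [if_pos h1, seg_nil]
        by_cases h2 : i = i'
        · have h3 : j = j' := by omega
          rw [if_pos (by omega), if_pos (hiff.2 ⟨h1.1, h2, h3⟩), st, st, ← h2, ← h3, ← mul_pow,
            neg_one_mul, neg_neg, one_pow]
        · rw [if_neg (by omega), if_neg]
          exact fun h3 => h2 (hiff.1 h3).2.1
      · rw [if_neg h1, if_neg]
        · rfl
        · intro h3
          obtain ⟨a, b, c⟩ := hiff.1 h3
          exact h1 ⟨a, by omega⟩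

end QSh
end PC
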