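import Mathlib
import Pool.Agent.Lib.MP_ca1492_al.Seg

/-!
# MP_ca1492_al, module SegRel: `q`-commutation of segments.

Write `[i,j] = seg l i j`, all on one line `l`.  Five relations:
(F) `l+1 < k`: `[k,j][i,l] = [i,l][k,j]`;
(J) `i ≤ l < j`: `[l+1,j][i,l] - q⁻¹ [i,l][l+1,j] = (q - q⁻¹) [i,j]`;
(L) `i < k ≤ l < j`: `[k,j][i,l] - [i,l][k,j] = (q - q⁻¹) [i,j][k,l]`;
(N) `i < k ≤ l < j`: `[k,l][i,j] = [i,j][k,l]`;
(S) `i ≤ l < j`: `[i,j][i,l] = q [i,l][i,j]`.
Proof of the conjunction of all five, evaluated at a word `w`, for all parameters, by induction on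
`w`.  `w = []`: all sides are `0` (`seg_nil`).  `w = x :: u`: use `seg_mul_cons`; only the letters
`x` = first letters of the two factors contribute:
(F) both letters: again (F) (with `[l+1,l] = 1`, `[j+1,j] = 1` when a segment gets empty).
(J) letter `i`: if `i < l` again (J) for `i+1`; if `i = l` it reads
`q [l+1,j] - q⁻¹ [l+1,j] = (q - q⁻¹)[l+1,j]`.  Letter `l+1`: (F) for `[l+2,j]`, `[i,l]`.
(L) letter `i`: if `k > i+1` again (L); if `k = i+1`: `q[k,j][k,l] - [k,l][k,j] =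
(q - q⁻¹)[k,j][k,l]`, which is (S).  Letter `k`: if `k < l` again (L); if `k = l`:
`[l+1,j][i,l] - q⁻¹[i,l][l+1,j] = (q-q⁻¹)[i,j]`, which is (J).
(N) letter `i`: if `k > i+1` again (N), if `k = i+1` it is `q [k,l][k,j] = [k,j][k,l]`, (S).
Letter `k`: if `k < l` again (N), if `k = l` trivial.
(S) letter `i`, `l > i`: `[i+1,j][i,l] + q⁻¹[i,j][i+1,l] = q [i+1,l][i,j] + [i,l][i+1,j]`: from (N)
and (L) with `k = i+1`.  `l = i`: `[i+1,j][i,i] + q⁻¹[i,j] = q[i,j] + q⁻¹[i,i][i+1,j]`: (J).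
The exponents `sk l x i j` are computed by `unfold sk; split_ifs; omega`.
`seg_T_same`: if `x < e'` it is (S) and `T` gives `q` on both sides; if `e' = x` it is
`q [x+1,e] = q [x+1,e]`; if `e' < x` both sides are `0`.
`seg_split` is (J) for `i = l`, multiplied by `-q`.
-/

set_option linter.unusedSectionVars false

namespace PC
namespace QSh

variable {Λ : Type} [DecidableEq Λ] {R : Type} [CommRing R] {q : Rˣ}

theorem seg_mul_cons (l : Λ) (i j k n : ℤ) (x : Λ × ℤ) (w : List (Λ × ℤ)) :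
    (seg l i j * seg l k n : QSh Λ R q) (x :: w) =
      (if x = (l, i) then (seg l (i + 1) j * seg l k n : QSh Λ R q) w else 0) +
      (if x = (l, k) then
        ((q ^ sk l x i j : Rˣ) : R) * (seg l i j * seg l (k + 1) n : QSh Λ R q) w else 0) := by
  rw [mul_cons, D_seg, D_seg, T_seg]
  congr 1
  · split_ifs with h
    · rfl
    · rw [zero_mul, zero_apply]
  · split_ifs with h
    · rw [smul_mul_apply]
    · rw [mul_zero, zero_apply]

theorem SegRel_ne (l : Λ) {i k : ℤ} (h : i ≠ k) : ((l, i) : Λ × ℤ) ≠ (l, k) := fun hh =>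
  h (congrArg Prod.snd hh)

theorem SegRel_sk (l : Λ) (x i j : ℤ) : sk l (l, x) i j =
    if j < i then 0 else
    (if i ≤ x ∧ x ≤ j then -2 else 0) + (if i ≤ x - 1 ∧ x - 1 ≤ j then 1 else 0) +
      (if i ≤ x + 1 ∧ x + 1 ≤ j then 1 else 0) := by
  unfold sk
  simp only [ne_eq, not_true_eq_false, or_false]

/-- the five relations at the word `w` -/
def SegRel5 (q : Rˣ) (l : Λ) (w : List (Λ × ℤ)) : Prop :=
  (∀ i m k j : ℤ, m + 1 < k →
    (seg l k j * seg l i m : QSh Λ R q) w = (seg l i m * seg l k j : QSh Λ R q) w) ∧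
  (∀ i m j : ℤ, i ≤ m → m < j →
    (seg l (m + 1) j * seg l i m : QSh Λ R q) w
      - ((q⁻¹ : Rˣ) : R) * (seg l i m * seg l (m + 1) j : QSh Λ R q) w
      = ((q : R) - ((q⁻¹ : Rˣ) : R)) * (seg l i j : QSh Λ R q) w) ∧
  (∀ i k m j : ℤ, i < k → k ≤ m → m < j →
    (seg l k j * seg l i m : QSh Λ R q) w - (seg l i m * seg l k j : QSh Λ R q) w
      = ((q : R) - ((q⁻¹ : Rˣ) : R)) * (seg l i j * seg l k m : QSh Λ R q) w) ∧
  (∀ i k m j : ℤ, i < k → k ≤ m → m < j →
    (seg l k m * seg l i j : QSh Λ R q) w = (seg l i j * seg l k m : QSh Λ R q) w) ∧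
  (∀ i m j : ℤ, i ≤ m → m < j →
    (seg l i j * seg l i m : QSh Λ R q) w = (q : R) * (seg l i m * seg l i j : QSh Λ R q) w)

theorem SegRel_nil (l : Λ) : SegRel5 (R := R) q l [] := by
  have h0 : ∀ i j : ℤ, i ≤ j → (seg l i j : QSh Λ R q) [] = 0 := by
    intro i j h
    rw [seg_nil, if_neg (by omega)]
  refine ⟨?_, ?_, ?_, ?_, ?_⟩
  · intro i m k j _
    rw [mul_nil, mul_nil, mul_comm]
  · intro i m j h1 h2
    rw [mul_nil, mul_nil, h0 i m h1, h0 i j (by omega)]
    ring
  · intro i k m j h1 h2 h3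
    rw [mul_nil, mul_nil, mul_nil, h0 i m (by omega), h0 i j (by omega)]
    ring
  · intro i k m j h1 h2 h3
    rw [mul_nil, mul_nil, mul_comm]
  · intro i m j h1 h2
    rw [mul_nil, mul_nil, h0 i m (by omega), h0 i j (by omega)]
    ring

theorem SegRel_consF (l : Λ) (x : Λ × ℤ) (w : List (Λ × ℤ)) (ih : SegRel5 (R := R) q l w)
    (i m k j : ℤ) (h : m + 1 < k) :
    (seg l k j * seg l i m : QSh Λ R q) (x :: w) =
      (seg l i m * seg l k j : QSh Λ R q) (x :: w) := by
  obtain ⟨hF, -⟩ := ih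
  rcases lt_trichotomy (m + 1) i with hi | hi | hi
  · rw [seg_lt l hi, mul_zero, zero_mul]
  · subst hi
    rw [seg_one, mul_one, one_mul]
  rw [seg_mul_cons, seg_mul_cons]
  by_cases h1 : x = (l, i)
  · subst h1
    rw [if_neg (SegRel_ne l (by omega)), if_pos rfl, if_pos rfl,
      if_neg (SegRel_ne l (by omega)), SegRel_sk]
    have e : (if j < k then (0 : ℤ) else (if k ≤ i ∧ i ≤ j then -2 else 0) +
        (if k ≤ i - 1 ∧ i - 1 ≤ j then 1 else 0) +
        (if k ≤ i + 1 ∧ i + 1 ≤ j then 1 else 0)) = 0 := by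
      split_ifs <;> omega
    rw [e, zpow_zero, Units.val_one, one_mul, zero_add, add_zero]
    exact hF (i + 1) m k j h
  · by_cases h2 : x = (l, k)
    · subst h2
      rw [if_pos rfl, if_neg h1, if_neg h1, if_pos rfl, SegRel_sk]
      have e : (if m < i then (0 : ℤ) else (if i ≤ k ∧ k ≤ m then -2 else 0) +
          (if i ≤ k - 1 ∧ k - 1 ≤ m then 1 else 0) +
          (if i ≤ k + 1 ∧ k + 1 ≤ m then 1 else 0)) = 0 := by
        split_ifs <;> omega
      rw [e, zpow_zero, Units.val_one, one_mul, zero_add, add_zero]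
      exact hF i m (k + 1) j (by omega)
    · rw [if_neg h1, if_neg h2, if_neg h1, if_neg h2]

theorem SegRel_consJ (l : Λ) (x : Λ × ℤ) (w : List (Λ × ℤ)) (ih : SegRel5 (R := R) q l w)
    (i m j : ℤ) (h1 : i ≤ m) (h2 : m < j) :
    (seg l (m + 1) j * seg l i m : QSh Λ R q) (x :: w)
      - ((q⁻¹ : Rˣ) : R) * (seg l i m * seg l (m + 1) j : QSh Λ R q) (x :: w)
      = ((q : R) - ((q⁻¹ : Rˣ) : R)) * (seg l i j : QSh Λ R q) (x :: w) := by
  obtain ⟨hF, hJ, -⟩ := ih
  have hq : ((q⁻¹ : Rˣ) : R) * (q : R) = 1 := Units.inv_mul q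
  have hD : (seg l i j : QSh Λ R q) (x :: w) =
      if x = (l, i) then (seg l (i + 1) j : QSh Λ R q) w else 0 := by
    have := congrFun (D_seg (q := q) (R := R) l x i j) w
    rw [D_apply] at this
    rw [this]
    split_ifs <;> rfl
  rw [hD, seg_mul_cons, seg_mul_cons]
  by_cases hx : x = (l, i)
  · subst hx
    rw [if_neg (SegRel_ne l (by omega)), if_pos rfl, if_pos rfl,
      if_neg (SegRel_ne l (by omega)), if_pos rfl, SegRel_sk]
    rcases lt_or_eq_of_le h1 with h3 | h3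
    · have e : (if j < m + 1 then (0 : ℤ) else (if m + 1 ≤ i ∧ i ≤ j then -2 else 0) +
          (if m + 1 ≤ i - 1 ∧ i - 1 ≤ j then 1 else 0) +
          (if m + 1 ≤ i + 1 ∧ i + 1 ≤ j then 1 else 0)) = 0 := by
        split_ifs <;> omega
      rw [e, zpow_zero, Units.val_one, one_mul, zero_add, add_zero]
      exact hJ (i + 1) m j (by omega) h2
    · subst h3
      have e : (if j < i + 1 then (0 : ℤ) else (if i + 1 ≤ i ∧ i ≤ j then -2 else 0) +
          (if i + 1 ≤ i - 1 ∧ i - 1 ≤ j then 1 else 0) +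
          (if i + 1 ≤ i + 1 ∧ i + 1 ≤ j then 1 else 0)) = 1 := by
        split_ifs <;> omega
      rw [e, zpow_one, seg_one, mul_one, one_mul]
      ring
  · by_cases hy : x = (l, m + 1)
    · subst hy
      rw [if_pos rfl, if_neg hx, if_neg hx, if_pos rfl, if_neg hx, SegRel_sk]
      have e : (if m < i then (0 : ℤ) else (if i ≤ m + 1 ∧ m + 1 ≤ m then -2 else 0) +
          (if i ≤ m + 1 - 1 ∧ m + 1 - 1 ≤ m then 1 else 0) +
          (if i ≤ m + 1 + 1 ∧ m + 1 + 1 ≤ m then 1 else 0)) = 1 := by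
        split_ifs <;> omega
      rw [e, zpow_one, hF i m (m + 1 + 1) j (by omega)]
      linear_combination
        (-(seg l i m * seg l (m + 1 + 1) j : QSh Λ R q) w) * hq
    · rw [if_neg hx, if_neg hx, if_neg hx, if_neg hy, if_neg hy]
      ring

theorem SegRel_consL (l : Λ) (x : Λ × ℤ) (w : List (Λ × ℤ)) (ih : SegRel5 (R := R) q l w)
    (i k m j : ℤ) (h1 : i < k) (h2 : k ≤ m) (h3 : m < j) :
    (seg l k j * seg l i m : QSh Λ R q) (x :: w) - (seg l i m * seg l k j : QSh Λ R q) (x :: w)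
      = ((q : R) - ((q⁻¹ : Rˣ) : R)) * (seg l i j * seg l k m : QSh Λ R q) (x :: w) := by
  obtain ⟨-, hJ, hL, -, hS⟩ := ih
  have hq : ((q⁻¹ : Rˣ) : R) * (q : R) = 1 := Units.inv_mul q
  rw [seg_mul_cons, seg_mul_cons, seg_mul_cons]
  by_cases hx : x = (l, i)
  · subst hx
    rw [if_neg (SegRel_ne l (by omega)), if_pos rfl, if_pos rfl,
      if_neg (SegRel_ne l (by omega)), if_pos rfl, if_neg (SegRel_ne l (by omega)), SegRel_sk]
    rcases lt_or_eq_of_le (show i + 1 ≤ k by omega) with h4 | h4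
    · have e : (if j < k then (0 : ℤ) else (if k ≤ i ∧ i ≤ j then -2 else 0) +
          (if k ≤ i - 1 ∧ i - 1 ≤ j then 1 else 0) +
          (if k ≤ i + 1 ∧ i + 1 ≤ j then 1 else 0)) = 0 := by
        split_ifs <;> omega
      rw [e, zpow_zero, Units.val_one, one_mul, zero_add, add_zero, add_zero]
      exact hL (i + 1) k m j h4 h2 h3
    · subst h4
      have e : (if j < i + 1 then (0 : ℤ) else (if i + 1 ≤ i ∧ i ≤ j then -2 else 0) +
          (if i + 1 ≤ i - 1 ∧ i - 1 ≤ j then 1 else 0) +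
          (if i + 1 ≤ i + 1 ∧ i + 1 ≤ j then 1 else 0)) = 1 := by
        split_ifs <;> omega
      rw [e, zpow_one]
      have hs := hS (i + 1) m j h2 h3
      linear_combination ((q⁻¹ : Rˣ) : R) * hs +
        ((seg l (i + 1) m * seg l (i + 1) j : QSh Λ R q) w) * hq
  · by_cases hy : x = (l, k)
    · subst hy
      rw [if_pos rfl, if_neg hx, if_neg hx, if_pos rfl, if_neg hx, if_pos rfl, SegRel_sk,
        SegRel_sk]
      have e1 : (if j < i then (0 : ℤ) else (if i ≤ k ∧ k ≤ j then -2 else 0) +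
          (if i ≤ k - 1 ∧ k - 1 ≤ j then 1 else 0) +
          (if i ≤ k + 1 ∧ k + 1 ≤ j then 1 else 0)) = 0 := by
        split_ifs <;> omega
      rw [e1, zpow_zero, Units.val_one, one_mul]
      rcases lt_or_eq_of_le h2 with h4 | h4
      · have e : (if m < i then (0 : ℤ) else (if i ≤ k ∧ k ≤ m then -2 else 0) +
            (if i ≤ k - 1 ∧ k - 1 ≤ m then 1 else 0) +
            (if i ≤ k + 1 ∧ k + 1 ≤ m then 1 else 0)) = 0 := by
          split_ifs <;> omega
        rw [e, zpow_zero, Units.val_one, one_mul, zero_add, add_zero, zero_add]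
        exact hL i (k + 1) m j (by omega) h4 h3
      · subst h4
        have e : (if k < i then (0 : ℤ) else (if i ≤ k ∧ k ≤ k then -2 else 0) +
            (if i ≤ k - 1 ∧ k - 1 ≤ k then 1 else 0) +
            (if i ≤ k + 1 ∧ k + 1 ≤ k then 1 else 0)) = -1 := by
          split_ifs <;> omega
        rw [e, zpow_neg_one, seg_one, mul_one, zero_add, add_zero, zero_add]
        exact hJ i k j (by omega) h3
    · rw [if_neg hx, if_neg hx, if_neg hx, if_neg hy, if_neg hy, if_neg hy]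
      ring

theorem SegRel_consN (l : Λ) (x : Λ × ℤ) (w : List (Λ × ℤ)) (ih : SegRel5 (R := R) q l w)
    (i k m j : ℤ) (h1 : i < k) (h2 : k ≤ m) (h3 : m < j) :
    (seg l k m * seg l i j : QSh Λ R q) (x :: w) =
      (seg l i j * seg l k m : QSh Λ R q) (x :: w) := by
  obtain ⟨-, -, -, hN, hS⟩ := ih
  rw [seg_mul_cons, seg_mul_cons]
  by_cases hx : x = (l, i)
  · subst hx
    rw [if_neg (SegRel_ne l (by omega)), if_pos rfl, if_pos rfl,
      if_neg (SegRel_ne l (by omega)), SegRel_sk]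
    rcases lt_or_eq_of_le (show i + 1 ≤ k by omega) with h4 | h4
    · have e : (if m < k then (0 : ℤ) else (if k ≤ i ∧ i ≤ m then -2 else 0) +
          (if k ≤ i - 1 ∧ i - 1 ≤ m then 1 else 0) +
          (if k ≤ i + 1 ∧ i + 1 ≤ m then 1 else 0)) = 0 := by
        split_ifs <;> omega
      rw [e, zpow_zero, Units.val_one, one_mul, zero_add, add_zero]
      exact hN (i + 1) k m j h4 h2 h3
    · subst h4
      have e : (if m < i + 1 then (0 : ℤ) else (if i + 1 ≤ i ∧ i ≤ m then -2 else 0) +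
          (if i + 1 ≤ i - 1 ∧ i - 1 ≤ m then 1 else 0) +
          (if i + 1 ≤ i + 1 ∧ i + 1 ≤ m then 1 else 0)) = 1 := by
        split_ifs <;> omega
      rw [e, zpow_one, zero_add, add_zero]
      exact (hS (i + 1) m j h2 h3).symm
  · by_cases hy : x = (l, k)
    · subst hy
      rw [if_pos rfl, if_neg hx, if_neg hx, if_pos rfl, SegRel_sk]
      have e1 : (if j < i then (0 : ℤ) else (if i ≤ k ∧ k ≤ j then -2 else 0) +
          (if i ≤ k - 1 ∧ k - 1 ≤ j then 1 else 0) +
          (if i ≤ k + 1 ∧ k + 1 ≤ j then 1 else 0)) = 0 := by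
        split_ifs <;> omega
      rw [e1, zpow_zero, Units.val_one, one_mul, zero_add, add_zero]
      rcases lt_or_eq_of_le h2 with h4 | h4
      · exact hN i (k + 1) m j (by omega) h4 h3
      · subst h4
        rw [seg_one, mul_one, one_mul]
    · rw [if_neg hx, if_neg hx, if_neg hy, if_neg hy]

theorem SegRel_consS (l : Λ) (x : Λ × ℤ) (w : List (Λ × ℤ)) (ih : SegRel5 (R := R) q l w)
    (i m j : ℤ) (h1 : i ≤ m) (h2 : m < j) :
    (seg l i j * seg l i m : QSh Λ R q) (x :: w) =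
      (q : R) * (seg l i m * seg l i j : QSh Λ R q) (x :: w) := by
  obtain ⟨-, hJ, hL, hN, -⟩ := ih
  have hq : (q : R) * ((q⁻¹ : Rˣ) : R) = 1 := Units.mul_inv q
  rw [seg_mul_cons, seg_mul_cons]
  by_cases hx : x = (l, i)
  · subst hx
    rw [if_pos rfl, if_pos rfl, if_pos rfl, if_pos rfl, SegRel_sk, SegRel_sk]
    have e1 : (if j < i then (0 : ℤ) else (if i ≤ i ∧ i ≤ j then -2 else 0) +
        (if i ≤ i - 1 ∧ i - 1 ≤ j then 1 else 0) +
        (if i ≤ i + 1 ∧ i + 1 ≤ j then 1 else 0)) = -1 := by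
      split_ifs <;> omega
    rw [e1, zpow_neg_one]
    rcases lt_or_eq_of_le h1 with h4 | h4
    · have e : (if m < i then (0 : ℤ) else (if i ≤ i ∧ i ≤ m then -2 else 0) +
          (if i ≤ i - 1 ∧ i - 1 ≤ m then 1 else 0) +
          (if i ≤ i + 1 ∧ i + 1 ≤ m then 1 else 0)) = -1 := by
        split_ifs <;> omega
      rw [e, zpow_neg_one]
      have hn := hN i (i + 1) m j (by omega) (by omega) h2
      have hl := hL i (i + 1) m j (by omega) (by omega) h2
      linear_combination hl - (q : R) * hn -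
        ((seg l i m * seg l (i + 1) j : QSh Λ R q) w) * hq
    · subst h4
      have e : (if i < i then (0 : ℤ) else (if i ≤ i ∧ i ≤ i then -2 else 0) +
          (if i ≤ i - 1 ∧ i - 1 ≤ i then 1 else 0) +
          (if i ≤ i + 1 ∧ i + 1 ≤ i then 1 else 0)) = -1 + -1 := by
        split_ifs <;> omega
      rw [e, zpow_add, zpow_neg_one, Units.val_mul, seg_one, mul_one, one_mul]
      have hj := hJ i i j le_rfl h2
      linear_combination hj - ((q⁻¹ : Rˣ) : R) *
        ((seg l i i * seg l (i + 1) j : QSh Λ R q) w) * hq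
  · rw [if_neg hx, if_neg hx, if_neg hx, if_neg hx]
    ring

theorem SegRel_all (l : Λ) (w : List (Λ × ℤ)) : SegRel5 (R := R) q l w := by
  induction w with
  | nil => exact SegRel_nil l
  | cons x w ih =>
    exact ⟨fun i m k j h => SegRel_consF l x w ih i m k j h,
      fun i m j h1 h2 => SegRel_consJ l x w ih i m j h1 h2,
      fun i k m j h1 h2 h3 => SegRel_consL l x w ih i k m j h1 h2 h3,
      fun i k m j h1 h2 h3 => SegRel_consN l x w ih i k m j h1 h2 h3,
      fun i m j h1 h2 => SegRel_consS l x w ih i m j h1 h2⟩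

theorem seg_same (l : Λ) {i k j : ℤ} (h1 : i ≤ k) (h2 : k < j) :
    (seg l i j : QSh Λ R q) * seg l i k = (q : R) • (seg l i k * seg l i j) :=
  ext fun w => (SegRel_all l w).2.2.2.2 i k j h1 h2

theorem seg_T_same (l : Λ) {x e e' : ℤ} (h : e' < e) :
    T (l, x) (seg l (x + 1) e : QSh Λ R q) * seg l (x + 1) e' =
      (q : R) • (T (l, x) (seg l (x + 1) e' : QSh Λ R q) * seg l (x + 1) e) := by
  rcases lt_trichotomy e' x with h1 | h1 | h1
  · rw [seg_lt l (show e' + 1 < x + 1 by omega), map_zero, mul_zero, zero_mul, smul_zero]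
  · subst h1
    rw [seg_one, T_one, mul_one, one_mul, T_seg, SegRel_sk]
    have e1 : (if e < e' + 1 then (0 : ℤ) else (if e' + 1 ≤ e' ∧ e' ≤ e then -2 else 0) +
        (if e' + 1 ≤ e' - 1 ∧ e' - 1 ≤ e then 1 else 0) +
        (if e' + 1 ≤ e' + 1 ∧ e' + 1 ≤ e then 1 else 0)) = 1 := by
      split_ifs <;> omega
    rw [e1, zpow_one]
  · have e1 : ∀ a : ℤ, x < a → sk l (l, x) (x + 1) a = 1 := by
      intro a ha
      rw [SegRel_sk]
      split_ifs <;> omega
    rw [T_seg, T_seg, e1 e (by omega), e1 e' h1, zpow_one, smul_mul_assoc, smul_mul_assoc,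
      seg_same l (show x + 1 ≤ e' by omega) h]

theorem seg_split (l : Λ) {i j : ℤ} (h : i < j) :
    (1 - (q : R) ^ 2) • (seg l i j : QSh Λ R q) =
      wd [(l, i)] * seg l (i + 1) j - (q : R) • (seg l (i + 1) j * wd [(l, i)]) := by
  have hq : (q : R) * ((q⁻¹ : Rˣ) : R) = 1 := Units.mul_inv q
  rw [← seg_single]
  ext w
  have hj := (SegRel_all (R := R) (q := q) l w).2.1 i i j le_rfl h
  rw [sub_apply, smul_apply, smul_apply]
  linear_combination (q : R) * hj +
    ((seg l i i * seg l (i + 1) j : QSh Λ R q) w - (seg l i j : QSh Λ R q) w) * hq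

end QSh
end PC
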