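import Mathlib
import Pool.Agent.Lib.MP_ca1492_al.NegMap
import Pool.Agent.Lib.MP_ca1492_al.SegRel

/-!
# MP_ca1492_al, module GoodA: closure properties of `Good`.

`good_mul`: if `F = ∑ a_u x_u`, `F' = ∑ b_v x_v`, then `F * F' = ∑ a_u b_v x_{u ++ v}`
(`let_ (u ++ v) = let_ u * let_ v`), and `strip (u ++ v) g = strip v (strip u g)`, `strip` linear;
coefficients of the product: `a.sum fun u x => b.sum fun v y => Finsupp.single (u ++ v) (x * y)`.
`good_neg`: coefficients `a.mapDomain (List.map neg)`, `neg' (strip w (neg' g)) = strip (neg w) g`.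
`good_seg`: induction on `n`: `seg_split` gives
`(1-q²)^(n+1) • [i, i+n+1] = wd [(l,i)] * F' - q • (F' * wd [(l,i)])`,
`F' = (1-q²)^n • [i+1, i+1+n]`.
`good_rdet`: induction on `m` with the exact exponent `(∑ e i - ∑ c i).toNat` (all `c i ≤ e k`, so
`(e k - c 0) + (∑ e^k - ∑ c') = ∑ e - ∑ c`, all natural numbers).
-/

set_option linter.unusedSectionVars false

namespace PC
namespace QSh

variable {Λ : Type} [DecidableEq Λ] {R : Type} [CommRing R] {q : Rˣ} (bar : R →+* R)

theorem GoodA_congr {F F' : QSh Λ R q} {L L' : QSh Λ R q → QSh Λ R q} (h : Good bar F L)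
    (hF : F' = F) (hL : ∀ g, L' g = L g) : Good bar F' L' := by
  obtain ⟨a, h1, h2⟩ := h
  exact ⟨a, hF.trans h1, fun g => (hL g).trans (h2 g)⟩

/-- the element with the coefficients `a` -/
noncomputable def GoodA_Phi (a : List (Λ × ℤ) →₀ R) : QSh Λ R q := a.sum (fun w x => x • let_ w)

/-- the operator with the coefficients `bar a` -/
noncomputable def GoodA_Psi (a : List (Λ × ℤ) →₀ R) (g : QSh Λ R q) : QSh Λ R q :=
  a.sum (fun w x => bar x • strip w g)

theorem GoodA_mk (a : List (Λ × ℤ) →₀ R) :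
    Good bar (GoodA_Phi a : QSh Λ R q) (fun g => GoodA_Psi bar a g) := ⟨a, rfl, fun _ => rfl⟩

theorem GoodA_Phi_add (a b : List (Λ × ℤ) →₀ R) :
    (GoodA_Phi (a + b) : QSh Λ R q) = GoodA_Phi a + GoodA_Phi b := by
  unfold GoodA_Phi
  exact Finsupp.sum_add_index' (fun w => zero_smul _ _) (fun w x y => add_smul _ _ _)

theorem GoodA_Phi_smul (c : R) (a : List (Λ × ℤ) →₀ R) :
    (GoodA_Phi (c • a) : QSh Λ R q) = c • GoodA_Phi a := by
  unfold GoodA_Phi
  rw [Finsupp.sum_smul_index' (h := fun (w : List (Λ × ℤ)) (x : R) =>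
    x • (let_ w : QSh Λ R q)) (fun w => zero_smul _ _), Finsupp.smul_sum]
  simp only [smul_eq_mul, mul_smul]

theorem GoodA_Phi_zero : (GoodA_Phi (0 : List (Λ × ℤ) →₀ R) : QSh Λ R q) = 0 := by
  unfold GoodA_Phi
  exact Finsupp.sum_zero_index

theorem GoodA_Phi_single (w : List (Λ × ℤ)) (x : R) :
    (GoodA_Phi (Finsupp.single w x) : QSh Λ R q) = x • let_ w := by
  unfold GoodA_Phi
  exact Finsupp.sum_single_index (zero_smul _ _)

theorem GoodA_Psi_add (a b : List (Λ × ℤ) →₀ R) (g : QSh Λ R q) :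
    GoodA_Psi bar (a + b) g = GoodA_Psi bar a g + GoodA_Psi bar b g := by
  unfold GoodA_Psi
  exact Finsupp.sum_add_index' (fun w => by rw [map_zero, zero_smul])
    (fun w x y => by rw [map_add, add_smul])

theorem GoodA_Psi_smul (c : R) (a : List (Λ × ℤ) →₀ R) (g : QSh Λ R q) :
    GoodA_Psi bar (c • a) g = bar c • GoodA_Psi bar a g := by
  unfold GoodA_Psi
  rw [Finsupp.sum_smul_index' (fun w => by rw [map_zero, zero_smul]), Finsupp.smul_sum]
  simp only [smul_eq_mul, map_mul, mul_smul]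

theorem GoodA_Psi_zero (g : QSh Λ R q) :
    GoodA_Psi bar (0 : List (Λ × ℤ) →₀ R) g = 0 := by
  unfold GoodA_Psi
  exact Finsupp.sum_zero_index

theorem GoodA_Psi_single (w : List (Λ × ℤ)) (x : R) (g : QSh Λ R q) :
    GoodA_Psi bar (Finsupp.single w x) g = bar x • strip w g := by
  unfold GoodA_Psi
  exact Finsupp.sum_single_index (by rw [map_zero, zero_smul])

theorem GoodA_Psi_add_right (a : List (Λ × ℤ) →₀ R) (g g' : QSh Λ R q) :
    GoodA_Psi bar a (g + g') = GoodA_Psi bar a g + GoodA_Psi bar a g' := by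
  unfold GoodA_Psi
  rw [← Finsupp.sum_add]
  refine Finsupp.sum_congr fun w _ => ?_
  rw [← smul_add]
  rfl

theorem GoodA_Psi_zero_right (a : List (Λ × ℤ) →₀ R) :
    GoodA_Psi bar a (0 : QSh Λ R q) = 0 := by
  unfold GoodA_Psi
  refine Finset.sum_eq_zero fun w _ => ?_
  have h0 : strip w (0 : QSh Λ R q) = 0 := rfl
  show bar (a w) • strip w (0 : QSh Λ R q) = 0
  rw [h0, smul_zero]

theorem GoodA_let_append (u v : List (Λ × ℤ)) :
    (let_ (u ++ v) : QSh Λ R q) = let_ u * let_ v := by
  unfold let_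
  rw [List.map_append, List.prod_append]

theorem GoodA_strip_append (u v : List (Λ × ℤ)) (g : QSh Λ R q) :
    strip v (strip u g) = strip (u ++ v) g := by
  ext w
  show g (u ++ (v ++ w)) = g ((u ++ v) ++ w)
  rw [List.append_assoc]

theorem good_add {F F' : QSh Λ R q} {L L' : QSh Λ R q → QSh Λ R q} (h : Good bar F L)
    (h' : Good bar F' L') : Good bar (F + F') (fun g => L g + L' g) := by
  obtain ⟨a, h1, h2⟩ := h
  obtain ⟨b, h3, h4⟩ := h'
  refine GoodA_congr bar (GoodA_mk bar (a + b)) ?_ ?_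
  · rw [GoodA_Phi_add, h1, h3]
    rfl
  · intro g
    rw [GoodA_Psi_add, h2, h4]
    rfl

theorem good_smul (c : R) {F : QSh Λ R q} {L : QSh Λ R q → QSh Λ R q} (h : Good bar F L) :
    Good bar (c • F) (fun g => bar c • L g) := by
  obtain ⟨a, h1, h2⟩ := h
  refine GoodA_congr bar (GoodA_mk bar (c • a)) ?_ ?_
  · rw [GoodA_Phi_smul, h1]
    rfl
  · intro g
    rw [GoodA_Psi_smul, h2]
    rfl

theorem good_zero : Good bar (0 : QSh Λ R q) (fun _ => 0) :=
  GoodA_congr bar (GoodA_mk bar 0) GoodA_Phi_zero.symm (fun g => (GoodA_Psi_zero bar g).symm)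

theorem good_sum {ι : Type} (s : Finset ι) (F : ι → QSh Λ R q)
    (L : ι → QSh Λ R q → QSh Λ R q) (h : ∀ i ∈ s, Good bar (F i) (L i)) :
    Good bar (∑ i ∈ s, F i) (fun g => ∑ i ∈ s, L i g) := by
  classical
  induction s using Finset.induction_on with
  | empty => simpa using good_zero (q := q) bar
  | insert i s hi ih =>
    simp only [Finset.sum_insert hi]
    exact good_add bar (h i (Finset.mem_insert_self i s))
      (ih fun j hj => h j (Finset.mem_insert_of_mem hj))

theorem good_one : Good bar (1 : QSh Λ R q) (fun g => g) := by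
  refine GoodA_congr bar (GoodA_mk bar (Finsupp.single [] 1)) ?_ ?_
  · rw [GoodA_Phi_single, one_smul]
    rfl
  · intro g
    rw [GoodA_Psi_single, map_one, one_smul]
    rfl

theorem good_letter (x : Λ × ℤ) : Good bar (wd [x] : QSh Λ R q) (fun g => D x g) := by
  refine GoodA_congr bar (GoodA_mk bar (Finsupp.single [x] 1)) ?_ ?_
  · rw [GoodA_Phi_single, one_smul]
    unfold let_
    simp
  · intro g
    rw [GoodA_Psi_single, map_one, one_smul]
    rfl

theorem GoodA_mul (a b : List (Λ × ℤ) →₀ R) :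
    Good bar (GoodA_Phi a * GoodA_Phi b : QSh Λ R q)
      (fun g => GoodA_Psi bar b (GoodA_Psi bar a g)) := by
  induction a using Finsupp.induction_linear with
  | zero =>
    refine GoodA_congr bar (good_zero bar) ?_ ?_
    · rw [GoodA_Phi_zero, zero_mul]
    · intro g
      rw [GoodA_Psi_zero, GoodA_Psi_zero_right]
  | add a1 a2 h1 h2 =>
    refine GoodA_congr bar (good_add bar h1 h2) ?_ ?_
    · rw [GoodA_Phi_add, add_mul]
    · intro g
      rw [GoodA_Psi_add, GoodA_Psi_add_right]
  | single u x =>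
    induction b using Finsupp.induction_linear with
    | zero =>
      refine GoodA_congr bar (good_zero bar) ?_ ?_
      · rw [GoodA_Phi_zero, mul_zero]
      · intro g
        rw [GoodA_Psi_zero]
    | add b1 b2 h1 h2 =>
      refine GoodA_congr bar (good_add bar h1 h2) ?_ ?_
      · rw [GoodA_Phi_add, mul_add]
      · intro g
        rw [GoodA_Psi_add]
    | single v y =>
      refine GoodA_congr bar (GoodA_mk bar (Finsupp.single (u ++ v) (x * y))) ?_ ?_
      · rw [GoodA_Phi_single, GoodA_Phi_single, GoodA_Phi_single, GoodA_let_append,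
          smul_mul_smul_comm]
      · intro g
        rw [GoodA_Psi_single, GoodA_Psi_single, GoodA_Psi_single, ← GoodA_strip_append, map_mul,
          mul_comm, mul_smul]
        rfl

theorem good_mul {F F' : QSh Λ R q} {L L' : QSh Λ R q → QSh Λ R q} (h : Good bar F L)
    (h' : Good bar F' L') : Good bar (F * F') (fun g => L' (L g)) := by
  obtain ⟨a, h1, h2⟩ := h
  obtain ⟨b, h3, h4⟩ := h'
  refine GoodA_congr bar (GoodA_mul bar a b) ?_ ?_
  · rw [h1, h3]
    rfl
  · intro g
    rw [h2, h4]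
    rfl

theorem GoodA_neg (a : List (Λ × ℤ) →₀ R) :
    Good bar (neg' (GoodA_Phi a : QSh Λ R q)) (fun g => neg' (GoodA_Psi bar a (neg' g))) := by
  induction a using Finsupp.induction_linear with
  | zero =>
    refine GoodA_congr bar (good_zero bar) ?_ ?_
    · rw [GoodA_Phi_zero]
      rfl
    · intro g
      rw [GoodA_Psi_zero]
      rfl
  | add a1 a2 h1 h2 =>
    refine GoodA_congr bar (good_add bar h1 h2) ?_ ?_
    · rw [GoodA_Phi_add]
      rfl
    · intro g
      rw [GoodA_Psi_add]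
      rfl
  | single u x =>
    refine GoodA_congr bar
      (GoodA_mk bar (Finsupp.single (u.map (fun x => (x.1, -x.2))) x)) ?_ ?_
    · rw [GoodA_Phi_single, GoodA_Phi_single, ← neg'_let]
      rfl
    · intro g
      rw [GoodA_Psi_single, GoodA_Psi_single]
      ext w
      show bar x * g ((u ++ w.map (fun x => (x.1, -x.2))).map (fun x => (x.1, -x.2))) =
        bar x * g (u.map (fun x => (x.1, -x.2)) ++ w)
      rw [List.map_append, List.map_map]
      congr 3
      have : ((fun x : Λ × ℤ => (x.1, -x.2)) ∘ fun x => (x.1, -x.2)) = id := by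
        funext x
        simp
      rw [this, List.map_id]

theorem good_neg {F : QSh Λ R q} {L : QSh Λ R q → QSh Λ R q} (h : Good bar F L) :
    Good bar (neg' F) (fun g => neg' (L (neg' g))) := by
  obtain ⟨a, h1, h2⟩ := h
  refine GoodA_congr bar (GoodA_neg bar a) ?_ ?_
  · rw [h1]
    rfl
  · intro g
    rw [h2]
    rfl

theorem good_seg (hb : bar (q : R) = ((q⁻¹ : Rˣ) : R)) (l : Λ) (i : ℤ) (n : ℕ) :
    Good bar ((1 - (q : R) ^ 2) ^ n • (seg l i (i + n) : QSh Λ R q)) (fun g => Eop l i n g) := by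
  induction n generalizing i with
  | zero =>
    refine GoodA_congr bar (good_letter bar (l, i)) ?_ ?_
    · rw [pow_zero, one_smul, Nat.cast_zero, add_zero, seg_single]
    · intro g
      rfl
  | succ n ih =>
    have h1 := good_letter (q := q) bar (l, i)
    have h2 := ih (i + 1)
    have h3 := good_mul bar h1 h2
    have h4 := good_smul bar (-(q : R)) (good_mul bar h2 h1)
    refine GoodA_congr bar (good_add bar h3 h4) ?_ ?_
    · have e1 : i + 1 + (n : ℤ) = i + ((n + 1 : ℕ) : ℤ) := by push_cast; ring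
      have hs := seg_split (q := q) (R := R) l (show i < i + ((n + 1 : ℕ) : ℤ) by omega)
      rw [e1, pow_succ, mul_smul, hs, smul_sub, mul_smul_comm, smul_mul_assoc, neg_smul,
        sub_eq_add_neg, smul_comm ((1 - (q : R) ^ 2) ^ n) (q : R)]
    · intro g
      show Eop l (i + 1) n (D (l, i) g) - ((q⁻¹ : Rˣ) : R) • D (l, i) (Eop l (i + 1) n g) = _
      rw [map_neg, hb, neg_smul, sub_eq_add_neg]

theorem good_Sg (hb : bar (q : R) = ((q⁻¹ : Rˣ) : R)) (τ : Bool) (l : Λ) {i j : ℤ} (h : i ≤ j) :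
    Good bar ((1 - (q : R) ^ 2) ^ (j - i).toNat • (Sg τ l i j : QSh Λ R q))
      (fun g => Ev τ l i j g) := by
  cases τ with
  | false =>
    have h1 := good_seg bar hb l i (j - i).toNat
    have e1 : i + ((j - i).toNat : ℤ) = j := by omega
    rw [e1] at h1
    exact h1
  | true =>
    have h1 := good_neg bar (good_seg bar hb l (-j) (j - i).toNat)
    have e1 : -j + ((j - i).toNat : ℤ) = -i := by omega
    rw [e1] at h1
    exact h1

theorem good_rdet (hb : bar (q : R) = ((q⁻¹ : Rˣ) : R)) (G : ℤ → ℤ → QSh Λ R q)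
    (H : ℤ → ℤ → (QSh Λ R q →ₗ[R] QSh Λ R q)) {m : ℕ} (c e : Fin m → ℤ)
    (hce : ∀ i k, c i ≤ e k)
    (hG : ∀ i k, Good bar ((1 - (q : R) ^ 2) ^ (e k - c i).toNat • G (c i) (e k))
      (fun g => H (c i) (e k) g)) :
    Good bar ((1 - (q : R) ^ 2) ^ ((∑ i, e i) - ∑ i, c i).toNat • rdet (-(q : R)) G m c e)
      (fun g => (rdet (-((q⁻¹ : Rˣ) : R)) (fun s t =>
        (MulOpposite.op (H s t) : (Module.End R (QSh Λ R q))ᵐᵒᵖ)) m c e).unop g) := by
  induction m with
  | zero =>
    refine GoodA_congr bar (good_one bar) ?_ ?_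
    · simp [rdet]
    · intro g
      simp [rdet]
  | succ m ih =>
    have hk : ∀ k : Fin (m + 1), Good bar
        ((-(q : R)) ^ (k : ℕ) • (((1 - (q : R) ^ 2) ^ (e k - c 0).toNat • G (c 0) (e k)) *
          ((1 - (q : R) ^ 2) ^ ((∑ i, e (k.succAbove i)) - ∑ i : Fin m, c i.succ).toNat •
            rdet (-(q : R)) G m (fun i => c i.succ) (fun i => e (k.succAbove i)))))
        (fun g => bar ((-(q : R)) ^ (k : ℕ)) • (rdet (-((q⁻¹ : Rˣ) : R)) (fun s t =>
          (MulOpposite.op (H s t) : (Module.End R (QSh Λ R q))ᵐᵒᵖ)) m (fun i => c i.succ)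
            (fun i => e (k.succAbove i))).unop (H (c 0) (e k) g)) := by
      intro k
      refine good_smul bar _ (good_mul bar (hG 0 k) ?_)
      exact ih (fun i => c i.succ) (fun i => e (k.succAbove i)) (fun i k' => hce _ _)
        (fun i k' => hG _ _)
    refine GoodA_congr bar (good_sum bar Finset.univ _ _ (fun k _ => hk k)) ?_ ?_
    · rw [rdet, Finset.smul_sum]
      refine Finset.sum_congr rfl fun k _ => ?_
      have hexp : ((∑ i, e i) - ∑ i, c i).toNat = (e k - c 0).toNat +
          ((∑ i, e (k.succAbove i)) - ∑ i : Fin m, c i.succ).toNat := by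
        rw [Fin.sum_univ_succAbove e k, Fin.sum_univ_succ c]
        have h1 : c 0 ≤ e k := hce 0 k
        have h2 : ∑ i : Fin m, c i.succ ≤ ∑ i, e (k.succAbove i) :=
          Finset.sum_le_sum fun i _ => hce _ _
        omega
      rw [hexp, smul_comm, pow_add, smul_mul_smul_comm]
    · intro g
      rw [rdet, Finset.unop_sum, LinearMap.sum_apply]
      refine Finset.sum_congr rfl fun k _ => ?_
      rw [map_pow, map_neg, hb]
      rfl

end QSh
end PC
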