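import Mathlib
import Pool.Agent.Lib.MP_ca1492_al.Seg

/-!
# MP_ca1492_al, module Lgv0 (first part): the quantum determinant formula for the character of a shape.

`A(c,e) = rdet (-q) (seg l) m c e`, by Laplace expansion along the first row:
`A(c,e) = ∑_k (-q)^k [c 0, e k] * A(c', e^k)`, `c' i = c i.succ`, `e^k i = e (k.succAbove i)`.
* `rdet_D_none`: induction on `m`, `D x (f * g) = D x f * g + T x f * D x g` and `D_seg`.
* `rdet_D_ok`: induction on `m`.  If `i = 0`, `D (l, c 0)` hits the first factor
  (`D_seg`: `[c 0 + 1, e k]`), and `D` of the rest is `0` by `rdet_D_none` since `c' < c 0`.  If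
  `i = i'.succ`: `D` of the first factor is `0` (`c 0 > c i`), `T (l, c i)` fixes `[c 0, e k]` by
  `T_seg_far` since `c 0 ≥ c i + 2` (strictness of the updated sequence), then induction.
* `rdet_D_bad`: here `i ≠ 0` and `c (i-1) = c i + 1`.  If `i ≥ 2`, as before `c 0 ≥ c i + 2`, so
  the factor `[c 0, e k]` is fixed and induction applies.  If `i = 1`, `x = c 1`, `c 0 = x + 1`:
  the sum is `∑_k ∑_r (-q)^(k+r) T_x[x+1, e k] * [x+1, e (k.succAbove r)] * A(c'', e^{k,r})`
  (`m = m'' + 2`, first `rdet_D_ok` for `c'` and its first row).  The involution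
  `(k, r) ↦ (k.succAbove r, r.predAbove k)` of `Fin (m''+2) × Fin (m''+1)` preserves `A(c'', ·)`
  (`Fin.succAbove_succAbove_succAbove_predAbove`), changes `k + r` by one, and the two terms
  cancel by `seg_T_same` (`e k > e (k.succAbove r)` iff `k ≤ r.castSucc`...).  It may be easier to
  write the sum as a sum over pairs `a < b` in `Fin (m''+2)`.
* `rdet_nil`: induction on `m`: `seg_nil` leaves the terms with `e k + 1 = c 0`; for `k > 0` the
  rest vanishes by induction, since `c' 0 < c 0 = e k + 1 < e 0 + 1` and `e^k 0 = e 0`.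
* `lgv`: for all `u` and all strictly decreasing `c`, by induction on `u`.
-/

set_option linter.unusedSectionVars false

namespace PC
namespace QSh

variable {Λ : Type} [DecidableEq Λ] {R : Type} [CommRing R] {q : Rˣ}

theorem Lgv0_succ {A : Type} [Ring A] [Algebra R A] (p : R) (G : ℤ → ℤ → A) (m : ℕ)
    (c e : Fin (m + 1) → ℤ) :
    rdet p G (m + 1) c e = ∑ k : Fin (m + 1),
      p ^ (k : ℕ) • (G (c 0) (e k) *
        rdet p G m (fun i => c i.succ) (fun i => e (k.succAbove i))) := rfl

/-- the operator `D x` on the expansion along the first row -/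
theorem Lgv0_D_succ (p : R) (G : ℤ → ℤ → QSh Λ R q) (m : ℕ) (c e : Fin (m + 1) → ℤ)
    (x : Λ × ℤ) :
    D x (rdet p G (m + 1) c e) = ∑ k : Fin (m + 1),
      p ^ (k : ℕ) • (D x (G (c 0) (e k)) *
          rdet p G m (fun i => c i.succ) (fun i => e (k.succAbove i)) +
        T x (G (c 0) (e k)) *
          D x (rdet p G m (fun i => c i.succ) (fun i => e (k.succAbove i)))) := by
  rw [Lgv0_succ, map_sum]
  refine Finset.sum_congr rfl fun k _ => ?_
  rw [← D_mul]
  exact map_smul (D x) _ _

theorem rdet_D_none (l : Λ) {m : ℕ} (c e : Fin m → ℤ) (x : Λ × ℤ) (h : ∀ i, x ≠ (l, c i)) :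
    D x (rdet (-(q : R)) (seg l) m c e : QSh Λ R q) = 0 := by
  induction m with
  | zero => exact D_one x
  | succ m ih =>
    rw [Lgv0_D_succ]
    refine Finset.sum_eq_zero fun k _ => ?_
    rw [D_seg, if_neg (h 0), zero_mul, ih _ _ (fun i => h i.succ), mul_zero, add_zero, smul_zero]

theorem rdet_D_ok (l : Λ) {m : ℕ} (c e : Fin m → ℤ) (hc : StrictAnti c) (i : Fin m)
    (hi : StrictAnti (Function.update c i (c i + 1))) :
    D (l, c i) (rdet (-(q : R)) (seg l) m c e : QSh Λ R q) =
      rdet (-(q : R)) (seg l) m (Function.update c i (c i + 1)) e := by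
  induction m with
  | zero => exact i.elim0
  | succ m ih =>
    rw [Lgv0_D_succ, Lgv0_succ]
    refine Finset.sum_congr rfl fun k _ => ?_
    congr 1
    refine Fin.cases ?_ (fun j => ?_) i (motive := fun i =>
      StrictAnti (Function.update c i (c i + 1)) →
      D (l, c i) (seg l (c 0) (e k) : QSh Λ R q) *
          rdet (-(q : R)) (seg l) m (fun i => c i.succ) (fun i => e (k.succAbove i)) +
        T (l, c i) (seg l (c 0) (e k)) *
          D (l, c i) (rdet (-(q : R)) (seg l) m (fun i => c i.succ)
            (fun i => e (k.succAbove i))) =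
      seg l (Function.update c i (c i + 1) 0) (e k) *
        rdet (-(q : R)) (seg l) m (fun r => Function.update c i (c i + 1) r.succ)
          (fun i => e (k.succAbove i))) hi
    · intro _
      have h1 : ∀ r : Fin m, ((l, c 0) : Λ × ℤ) ≠ (l, (fun r : Fin m => c r.succ) r) := by
        intro r hr
        have h2 : c 0 = c r.succ := congrArg Prod.snd hr
        have h3 : c r.succ < c 0 := hc (Fin.succ_pos r)
        omega
      rw [D_seg, if_pos rfl, rdet_D_none l _ _ _ h1, mul_zero, add_zero, Function.update_self]
      congr 2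
    · intro hj
      have h3 : c j.succ < c 0 := hc (Fin.succ_pos j)
      have h4 : c j.succ + 1 < c 0 := by
        have h5 := hj (Fin.succ_pos j)
        rw [Function.update_self, Function.update_of_ne (Fin.succ_ne_zero j).symm] at h5
        exact h5
      have h6 : ((l, c j.succ) : Λ × ℤ) ≠ (l, c 0) := by
        intro h7
        have h8 : c j.succ = c 0 := congrArg Prod.snd h7
        omega
      have e1 : (fun r : Fin m => Function.update c j.succ (c j.succ + 1) r.succ) =
          Function.update (fun r : Fin m => c r.succ) j ((fun r : Fin m => c r.succ) j + 1) := by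
        funext r
        by_cases hr : r = j
        · subst hr
          rw [Function.update_self, Function.update_self]
        · rw [Function.update_of_ne hr,
            Function.update_of_ne (fun h => hr (Fin.succ_injective _ h))]
      have hc' : StrictAnti (fun r : Fin m => c r.succ) := fun a b hab =>
        hc (Fin.succ_lt_succ_iff.2 hab)
      have hi' : StrictAnti (Function.update (fun r : Fin m => c r.succ) j
          ((fun r : Fin m => c r.succ) j + 1)) := by
        rw [← e1]
        exact fun a b hab => hj (Fin.succ_lt_succ_iff.2 hab)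
      have h9 := ih (fun r : Fin m => c r.succ) (fun i => e (k.succAbove i)) hc' j hi'
      rw [D_seg, if_neg h6, zero_mul, zero_add, T_seg_far l _ _ _ h4, e1,
        Function.update_of_ne (Fin.succ_ne_zero j).symm]
      congr 1

theorem rdet_nil (l : Λ) {m : ℕ} (c e : Fin m → ℤ) (hc : StrictAnti c) (he : StrictAnti e) :
    (rdet (-(q : R)) (seg l) m c e : QSh Λ R q) [] = if ∀ i, c i = e i + 1 then 1 else 0 := by
  induction m with
  | zero =>
    rw [if_pos (fun i => i.elim0)]
    rfl
  | succ m ih =>
    have hc' : StrictAnti (fun r : Fin m => c r.succ) := fun a b hab =>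
      hc (Fin.succ_lt_succ_iff.2 hab)
    have he' : ∀ k : Fin (m + 1), StrictAnti (fun r : Fin m => e (k.succAbove r)) :=
      fun k a b hab => he (Fin.strictMono_succAbove k hab)
    have e0 : (rdet (-(q : R)) (seg l) (m + 1) c e : QSh Λ R q) [] =
        ∑ k : Fin (m + 1), (-(q : R)) ^ (k : ℕ) * ((if c 0 = e k + 1 then 1 else 0) *
          (if ∀ i : Fin m, c i.succ = e (k.succAbove i) + 1 then 1 else 0)) := by
      have e1 : (rdet (-(q : R)) (seg l) (m + 1) c e : QSh Λ R q) [] =
          eps (rdet (-(q : R)) (seg l) (m + 1) c e : QSh Λ R q) := rfl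
      rw [e1, Lgv0_succ, map_sum]
      refine Finset.sum_congr rfl fun k _ => ?_
      rw [← seg_nil (q := q) l (c 0) (e k), ← ih (fun r => c r.succ) _ hc' (he' k)]
      rfl
    rw [e0, Finset.sum_eq_single (0 : Fin (m + 1))]
    · rw [Fin.val_zero, pow_zero, one_mul]
      by_cases h : ∀ i, c i = e i + 1
      · have h1 : ∀ i : Fin m, c i.succ = e (Fin.succAbove 0 i) + 1 := by
          intro i
          rw [Fin.zero_succAbove]
          exact h i.succ
        rw [if_pos h, if_pos (h 0), if_pos h1, one_mul]
      · rw [if_neg h]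
        by_cases h0 : c 0 = e 0 + 1
        · have h1 : ¬ ∀ i : Fin m, c i.succ = e (Fin.succAbove 0 i) + 1 := by
            intro h2
            apply h
            intro i
            refine Fin.cases h0 (fun j => ?_) i
            have h3 := h2 j
            rwa [Fin.zero_succAbove] at h3
          rw [if_neg h1, mul_zero]
        · rw [if_neg h0, zero_mul]
    · intro k _ hk
      by_cases h0 : c 0 = e k + 1
      · have hno : ¬ ∀ i : Fin m, c i.succ = e (k.succAbove i) + 1 := by
          intro h1
          have hk0 : (0 : Fin (m + 1)) < k := Fin.pos_of_ne_zero hk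
          have hm : 0 < m := by
            have := k.isLt
            have h2 : 0 < (k : ℕ) := hk0
            omega
          have h2 := h1 ⟨0, hm⟩
          have h5 : k.succAbove ⟨0, hm⟩ = 0 := by
            rw [Fin.succAbove_of_castSucc_lt _ _ hk0]
            rfl
          rw [h5] at h2
          have h3 : e k < e 0 := he hk0
          have h4 : c (Fin.succ ⟨0, hm⟩) < c 0 := hc (Fin.succ_pos _)
          omega
        rw [if_neg hno, mul_zero, mul_zero]
      · rw [if_neg h0, zero_mul, mul_zero]
    · intro h
      exact absurd (Finset.mem_univ _) h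

end QSh
end PC
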