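import Mathlib
import Pool.Agent.Lib.MP_ca1492_al.Lgv0
import Pool.Agent.Lib.MP_ca1492_al.SegRel

/-!
# MP_ca1492_al, module LgvBad (rdet_D_bad): the quantum determinant formula for the character of a shape.

`A(c,e) = rdet (-q) (seg l) m c e`, by Laplace expansion along the first row:
`A(c,e) = ∑_k (-q)^k [c 0, e k] * A(c', e^k)`, `c' i = c i.succ`, `e^k i = e (k.succAbove i)`.
* `rdet_D_none`: induction on `m`, `D x (f * g) = D x f * g + T x f * D x g` and `D_seg`.
* `rdet_D_ok`: induction on `m`.  If `i = 0`, `D (l, c 0)` hits the first factor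
  (`D_seg`: `[c 0 + 1, e k]`), and `D` of the rest is `0` by `rdet_D_none` since `c' < c 0`.  If
  `i = i'.succ`: `D` of the first factor is `0` (`c 0 > c i`), `T (l, c i)` fixes `[c 0, e k]` by
  `T_seg_far` since `c 0 ≥ c i + 2` (strictness of the updated sequence), then induction.
* `rdet_D_bad`: here `i ≠ 0` and `c (i-1) = c i + 1`.  If `i ≥ 2`, as before `c 0 ≥ c i + 2`, so
  the factor `[c 0, e k]` is fixed and induction applies.  If `i = 1`, `x = c 1`, `c 0 = x + 1`:
  the sum is `∑_k ∑_r (-q)^(k+r) T_x[x+1, e k] * [x+1, e (k.succAbove r)] * A(c'', e^{k,r})`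
  (`m = m'' + 2`, first `rdet_D_ok` for `c'` and its first row).  The involution
  `(k, r) ↦ (k.succAbove r, r.predAbove k)` of `Fin (m''+2) × Fin (m''+1)` preserves `A(c'', ·)`
  (`Fin.succAbove_succAbove_succAbove_predAbove`), changes `k + r` by one, and the two terms
  cancel by `seg_T_same` (`e k > e (k.succAbove r)` iff `k ≤ r.castSucc`...).  It may be easier to
  write the sum as a sum over pairs `a < b` in `Fin (m''+2)`.
* `rdet_nil`: induction on `m`: `seg_nil` leaves the terms with `e k + 1 = c 0`; for `k > 0` the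
  rest vanishes by induction, since `c' 0 < c 0 = e k + 1 < e 0 + 1` and `e^k 0 = e 0`.
* `lgv`: for all `u` and all strictly decreasing `c`, by induction on `u`.
-/

set_option linter.unusedSectionVars false

namespace PC
namespace QSh

variable {Λ : Type} [DecidableEq Λ] {R : Type} [CommRing R] {q : Rˣ}

theorem LgvBad_rdet_succ (l : Λ) {m : ℕ} (c e : Fin (m + 1) → ℤ) :
    (rdet (-(q : R)) (seg l) (m + 1) c e : QSh Λ R q) = ∑ k : Fin (m + 1),
      (-(q : R)) ^ (k : ℕ) • (seg l (c 0) (e k) *
        rdet (-(q : R)) (seg l) m (fun i => c i.succ) (fun i => e (k.succAbove i))) := rfl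

theorem LgvBad_term (p : R) (a b : ℕ) (X Y A : QSh Λ R q) :
    p ^ a • (X * (p ^ b • (Y * A))) = p ^ (a + b) • (X * Y * A) := by
  rw [mul_smul_comm, smul_smul, ← pow_add, mul_assoc]

theorem LgvBad_pred {n : ℕ} (i : Fin (n + 2)) (j : Fin (n + 1)) :
    (j.predAbove i).predAbove (i.succAbove j) = j := by
  ext
  simp only [Fin.succAbove, Fin.predAbove, Fin.lt_def, Fin.val_castSucc, apply_dite Fin.val,
    Fin.val_pred, Fin.coe_castPred, dite_eq_ite, apply_ite Fin.val, Fin.val_succ]
  split_ifs <;> omega

theorem LgvBad_pair (l : Λ) (x : ℤ) {n : ℕ} (e : Fin (n + 2) → ℤ) (he : StrictAnti e)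
    (A : QSh Λ R q) (k : Fin (n + 2)) (r : Fin (n + 1)) :
    (-(q : R)) ^ ((k : ℕ) + (r : ℕ)) •
        (T (l, x) (seg l (x + 1) (e k) : QSh Λ R q) * seg l (x + 1) (e (k.succAbove r)) * A) +
      (-(q : R)) ^ ((k.succAbove r : ℕ) + (r.predAbove k : ℕ)) •
        (T (l, x) (seg l (x + 1) (e (k.succAbove r)) : QSh Λ R q) * seg l (x + 1) (e k) * A) =
      0 := by
  rcases lt_or_ge r.castSucc k with h | h
  · have h1 : k.succAbove r = r.castSucc := Fin.succAbove_of_castSucc_lt _ _ h
    have h2 : ((r.predAbove k : Fin (n + 1)) : ℕ) + 1 = (k : ℕ) := by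
      rw [Fin.predAbove_of_castSucc_lt _ _ h, Fin.val_pred]
      have : (r.castSucc : ℕ) < (k : ℕ) := h
      omega
    have h3 : e k < e (k.succAbove r) := he (by rw [h1]; exact h)
    have h4 : ((k.succAbove r : Fin (n + 2)) : ℕ) = (r : ℕ) := by rw [h1]; rfl
    rw [seg_T_same l h3, h4, ← h2, smul_mul_assoc, smul_smul, ← add_smul]
    have h5 : (-(q : R)) ^ ((r.predAbove k : ℕ) + 1 + (r : ℕ)) +
        (-(q : R)) ^ ((r : ℕ) + (r.predAbove k : ℕ)) * (q : R) = 0 := by
      rw [show (r.predAbove k : ℕ) + 1 + (r : ℕ) = ((r : ℕ) + (r.predAbove k : ℕ)) + 1 by ring,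
        pow_succ]
      ring
    rw [h5, zero_smul]
  · have h1 : k.succAbove r = r.succ := Fin.succAbove_of_le_castSucc _ _ h
    have h2 : ((r.predAbove k : Fin (n + 1)) : ℕ) = (k : ℕ) := by
      rw [Fin.predAbove_of_le_castSucc _ _ h, Fin.coe_castPred]
    have h3 : e (k.succAbove r) < e k := he (by
      rw [h1]
      exact Fin.lt_def.2 (by
        have h' : (k : ℕ) ≤ (r.castSucc : ℕ) := h
        rw [Fin.val_succ]
        have : (r.castSucc : ℕ) = (r : ℕ) := rfl
        omega))
    have h4 : ((k.succAbove r : Fin (n + 2)) : ℕ) = (r : ℕ) + 1 := by rw [h1]; rfl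
    rw [seg_T_same l h3, h4, h2, smul_mul_assoc, smul_smul, ← add_smul]
    have h5 : (-(q : R)) ^ ((k : ℕ) + (r : ℕ)) * (q : R) +
        (-(q : R)) ^ ((r : ℕ) + 1 + (k : ℕ)) = 0 := by
      rw [show (r : ℕ) + 1 + (k : ℕ) = ((k : ℕ) + (r : ℕ)) + 1 by ring, pow_succ]
      ring
    rw [h5, zero_smul]

theorem LgvBad_two (l : Λ) (x : ℤ) {n : ℕ} (c : Fin n → ℤ) (e : Fin (n + 2) → ℤ)
    (he : StrictAnti e) :
    ∑ k : Fin (n + 2), (-(q : R)) ^ (k : ℕ) • (T (l, x) (seg l (x + 1) (e k) : QSh Λ R q) *
      ∑ r : Fin (n + 1), (-(q : R)) ^ (r : ℕ) • (seg l (x + 1) (e (k.succAbove r)) *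
        rdet (-(q : R)) (seg l) n c (fun i => e (k.succAbove (r.succAbove i))))) = 0 := by
  have h0 : ∀ k : Fin (n + 2), (-(q : R)) ^ (k : ℕ) •
      (T (l, x) (seg l (x + 1) (e k) : QSh Λ R q) *
      ∑ r : Fin (n + 1), (-(q : R)) ^ (r : ℕ) • (seg l (x + 1) (e (k.succAbove r)) *
        rdet (-(q : R)) (seg l) n c (fun i => e (k.succAbove (r.succAbove i))))) =
      ∑ r : Fin (n + 1), (-(q : R)) ^ ((k : ℕ) + (r : ℕ)) •
        (T (l, x) (seg l (x + 1) (e k) : QSh Λ R q) * seg l (x + 1) (e (k.succAbove r)) *
        rdet (-(q : R)) (seg l) n c (fun i => e (k.succAbove (r.succAbove i)))) := by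
    intro k
    rw [Finset.mul_sum, Finset.smul_sum]
    refine Finset.sum_congr rfl fun r _ => ?_
    rw [LgvBad_term]
  rw [Finset.sum_congr rfl fun k _ => h0 k, ← Finset.sum_product', Finset.univ_product_univ]
  refine Finset.sum_involution (fun p _ => (p.1.succAbove p.2, p.2.predAbove p.1)) ?_ ?_ ?_ ?_
  · rintro ⟨k, r⟩ -
    have h1 : ∀ i, (k.succAbove r).succAbove ((r.predAbove k).succAbove i) =
        k.succAbove (r.succAbove i) := fun i =>
      Fin.succAbove_succAbove_succAbove_predAbove k r i
    have h2 : (k.succAbove r).succAbove (r.predAbove k) = k :=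
      Fin.succAbove_succAbove_predAbove k r
    simp only [h1, h2]
    exact LgvBad_pair l x e he _ k r
  · rintro ⟨k, r⟩ - -
    intro h
    exact Fin.succAbove_ne k r (congrArg Prod.fst h)
  · rintro ⟨k, r⟩ -
    exact Finset.mem_univ _
  · rintro ⟨k, r⟩ -
    exact Prod.ext (Fin.succAbove_succAbove_predAbove k r) (LgvBad_pred k r)

theorem rdet_D_bad (l : Λ) {m : ℕ} (c e : Fin m → ℤ) (hc : StrictAnti c) (he : StrictAnti e)
    (i : Fin m) (hi : ¬ StrictAnti (Function.update c i (c i + 1))) :
    D (l, c i) (rdet (-(q : R)) (seg l) m c e : QSh Λ R q) = 0 := by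
  induction m with
  | zero => exact i.elim0
  | succ m ih =>
    have hc' : StrictAnti (fun j : Fin m => c j.succ) := fun a b hab =>
      hc (Fin.succ_lt_succ_iff.2 hab)
    have hek : ∀ k : Fin (m + 1), StrictAnti (fun j : Fin m => e (k.succAbove j)) :=
      fun k a b hab => he (Fin.strictMono_succAbove k hab)
    obtain rfl | ⟨i', rfl⟩ := i.eq_zero_or_eq_succ
    · exfalso
      apply hi
      intro a b hab
      have hb : b ≠ 0 := fun hb0 => absurd hab (by rw [hb0]; exact not_lt_bot)
      rw [Function.update_of_ne hb]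
      by_cases ha : a = 0
      · subst ha
        rw [Function.update_self]
        have := hc hab
        omega
      · rw [Function.update_of_ne ha]
        exact hc hab
    · have h0i : c i'.succ < c 0 := hc (Fin.succ_pos i')
      have hexp : D (l, c i'.succ) (rdet (-(q : R)) (seg l) (m + 1) c e : QSh Λ R q) =
          ∑ k : Fin (m + 1), (-(q : R)) ^ (k : ℕ) •
            (T (l, c i'.succ) (seg l (c 0) (e k) : QSh Λ R q) *
              D (l, c i'.succ) (rdet (-(q : R)) (seg l) m (fun i => c i.succ)
                (fun i => e (k.succAbove i)))) := by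
        rw [LgvBad_rdet_succ, map_sum]
        refine Finset.sum_congr rfl fun k _ => ?_
        rw [map_smul, D_mul, D_seg, if_neg, zero_mul, zero_add]
        intro h
        have := congrArg Prod.snd h
        simp only at this
        omega
      rw [hexp]
      by_cases hs : StrictAnti (Function.update (fun j : Fin m => c j.succ) i'
          (c i'.succ + 1))
      · -- the update is bad because of the first row
        have h1 : c 0 = c i'.succ + 1 := by
          by_contra hne
          apply hi
          intro a b hab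
          have hb : b ≠ 0 := fun hb0 => absurd hab (by rw [hb0]; exact not_lt_bot)
          obtain ⟨b', rfl⟩ := Fin.exists_succ_eq.2 hb
          by_cases ha : a = 0
          · subst ha
            rw [Function.update_of_ne (Fin.succ_ne_zero i').symm]
            by_cases hbi : b' = i'
            · subst hbi
              rw [Function.update_self]
              omega
            · rw [Function.update_of_ne (fun h => hbi (Fin.succ_injective _ h))]
              exact hc hab
          · obtain ⟨a', rfl⟩ := Fin.exists_succ_eq.2 ha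
            have h2 : ∀ j : Fin m, Function.update c i'.succ (c i'.succ + 1) j.succ =
                Function.update (fun j : Fin m => c j.succ) i' (c i'.succ + 1) j := by
              intro j
              by_cases hj : j = i'
              · subst hj
                rw [Function.update_self, Function.update_self]
              · rw [Function.update_of_ne hj,
                  Function.update_of_ne (fun h => hj (Fin.succ_injective _ h))]
            rw [h2, h2]
            exact hs (Fin.succ_lt_succ_iff.1 hab)
        cases m with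
        | zero => exact i'.elim0
        | succ n =>
          have hi0 : i' = 0 := by
            by_contra hne
            have h2 : c i'.succ < c (Fin.succ 0) :=
              hc (Fin.succ_lt_succ_iff.2 (Fin.pos_of_ne_zero hne))
            have h3 : c (Fin.succ 0) < c 0 := hc (Fin.succ_pos 0)
            omega
          subst hi0
          have hk : ∀ k : Fin (n + 2), D (l, c (Fin.succ 0))
              (rdet (-(q : R)) (seg l) (n + 1) (fun i => c i.succ)
                (fun i => e (k.succAbove i)) : QSh Λ R q) =
              ∑ r : Fin (n + 1), (-(q : R)) ^ (r : ℕ) •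
                (seg l (c (Fin.succ 0) + 1) (e (k.succAbove r)) *
                rdet (-(q : R)) (seg l) n (fun i => c i.succ.succ)
                  (fun i => e (k.succAbove (r.succAbove i)))) := by
            intro k
            have h2 := rdet_D_ok (q := q) (R := R) l (fun j : Fin (n + 1) => c j.succ)
              (fun i => e (k.succAbove i)) hc' 0 hs
            rw [h2, LgvBad_rdet_succ]
            refine Finset.sum_congr rfl fun r _ => ?_
            rw [Function.update_self]
            have h3 : (fun i : Fin n => Function.update (fun j : Fin (n + 1) => c j.succ) 0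
                (c (Fin.succ 0) + 1) i.succ) = fun i => c i.succ.succ := by
              funext i
              rw [Function.update_of_ne (Fin.succ_ne_zero i)]
            rw [h3]
          rw [Finset.sum_congr rfl fun k _ => by rw [hk k, h1]]
          exact LgvBad_two l (c (Fin.succ 0)) (fun i => c i.succ.succ) e he
      · refine Finset.sum_eq_zero fun k _ => ?_
        have h2 := ih (fun j : Fin m => c j.succ) (fun i => e (k.succAbove i)) hc' (hek k) i' hs
        rw [h2, mul_zero, smul_zero]

end QSh
end PC
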