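import Mathlib
import Pool.Agent.Lib.MP_ca1492_al.LgvBad

/-!
# MP_ca1492_al, module Lgv (conclusion): the quantum determinant formula for the character of a shape.

`A(c,e) = rdet (-q) (seg l) m c e`, by Laplace expansion along the first row:
`A(c,e) = ∑_k (-q)^k [c 0, e k] * A(c', e^k)`, `c' i = c i.succ`, `e^k i = e (k.succAbove i)`.
* `rdet_D_none`: induction on `m`, `D x (f * g) = D x f * g + T x f * D x g` and `D_seg`.
* `rdet_D_ok`: induction on `m`.  If `i = 0`, `D (l, c 0)` hits the first factor
  (`D_seg`: `[c 0 + 1, e k]`), and `D` of the rest is `0` by `rdet_D_none` since `c' < c 0`.  If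
  `i = i'.succ`: `D` of the first factor is `0` (`c 0 > c i`), `T (l, c i)` fixes `[c 0, e k]` by
  `T_seg_far` since `c 0 ≥ c i + 2` (strictness of the updated sequence), then induction.
* `rdet_D_bad`: here `i ≠ 0` and `c (i-1) = c i + 1`.  If `i ≥ 2`, as before `c 0 ≥ c i + 2`, so
  the factor `[c 0, e k]` is fixed and induction applies.  If `i = 1`, `x = c 1`, `c 0 = x + 1`:
  the sum is `∑_k ∑_r (-q)^(k+r) T_x[x+1, e k] * [x+1, e (k.succAbove r)] * A(c'', e^{k,r})`
  (`m = m'' + 2`, first `rdet_D_ok` for `c'` and its first row).  The involution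
  `(k, r) ↦ (k.succAbove r, r.predAbove k)` of `Fin (m''+2) × Fin (m''+1)` preserves `A(c'', ·)`
  (`Fin.succAbove_succAbove_succAbove_predAbove`), changes `k + r` by one, and the two terms
  cancel by `seg_T_same` (`e k > e (k.succAbove r)` iff `k ≤ r.castSucc`...).  It may be easier to
  write the sum as a sum over pairs `a < b` in `Fin (m''+2)`.
* `rdet_nil`: induction on `m`: `seg_nil` leaves the terms with `e k + 1 = c 0`; for `k > 0` the
  rest vanishes by induction, since `c' 0 < c 0 = e k + 1 < e 0 + 1` and `e^k 0 = e 0`.
* `lgv`: for all `u` and all strictly decreasing `c`, by induction on `u`.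
-/

set_option linter.unusedSectionVars false

namespace PC
namespace QSh

variable {Λ : Type} [DecidableEq Λ] {R : Type} [CommRing R] {q : Rˣ}

/-- The quantum determinant formula. -/
theorem lgv (l : Λ) {m : ℕ} (c e : Fin m → ℤ) (hc : StrictAnti c) (he : StrictAnti e) :
    (chTab l c e : QSh Λ R q) = rdet (-(q : R)) (seg l) m c e := by
  have key : ∀ (u : List (Λ × ℤ)) (c : Fin m → ℤ), StrictAnti c →
      (chTab l c e : QSh Λ R q) u = (rdet (-(q : R)) (seg l) m c e : QSh Λ R q) u := by
    intro u
    induction u with
    | nil =>
      intro c hc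
      rw [rdet_nil l c e hc he]
      by_cases h : ∀ i, c i = e i + 1
      · rw [if_pos h]
        exact if_pos h
      · rw [if_neg h]
        exact if_neg h
    | cons x u ih =>
      intro c hc
      have e0 : (rdet (-(q : R)) (seg l) m c e : QSh Λ R q) (x :: u) =
          (D x (rdet (-(q : R)) (seg l) m c e : QSh Λ R q)) u := rfl
      rw [e0]
      by_cases hx : ∀ i, x ≠ (l, c i)
      · rw [rdet_D_none l c e x hx, zero_apply]
        refine if_neg ?_
        rintro ⟨i, h1, -, -⟩
        exact hx i h1
      · obtain ⟨i, hi⟩ : ∃ i, x = (l, c i) := by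
          by_contra hne
          exact hx (fun i hi => hne ⟨i, hi⟩)
        have huniq : ∀ j, x = (l, c j) → j = i := by
          intro j hj
          have h1 : (l, c j) = (l, c i) := by rw [← hj, ← hi]
          have h2 : c j = c i := congrArg Prod.snd h1
          exact hc.injective h2
        by_cases hs : StrictAnti (Function.update c i (c i + 1))
        · rw [hi, rdet_D_ok l c e hc i hs, ← ih _ hs]
          have hiff : IsTab l e ((l, c i) :: u) c ↔
              IsTab l e u (Function.update c i (c i + 1)) := by
            constructor
            · rintro ⟨j, h1, -, h3⟩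
              have hj : j = i := huniq j (by rw [hi]; exact h1)
              rw [hj] at h3
              exact h3
            · intro h
              exact ⟨i, rfl, hs, h⟩
          by_cases ht : IsTab l e u (Function.update c i (c i + 1))
          · exact (if_pos (hiff.2 ht)).trans (if_pos ht).symm
          · exact (if_neg (fun h => ht (hiff.1 h))).trans (if_neg ht).symm
        · rw [hi, rdet_D_bad l c e hc he i hs, zero_apply]
          refine if_neg ?_
          rintro ⟨j, h1, h2, -⟩
          have hj : j = i := huniq j (by rw [hi]; exact h1)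
          rw [hj] at h2
          exact hs h2
  exact ext fun w => key w c hc

end QSh
end PC
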