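import Mathlib
import Pool.Agent.Lib.MP_ca1492_al.CombDefs

/-!
# MP_ca1492_al, module Transp: transposition of rectangles.

`r.ch = neg' r.flip.ch`: the content words of the standard tableaux of the `a × b` rectangle with
corner content `t` are the negatives of those of the `b × a` rectangle with corner content `-t`.
Proof.  A state of the row process is `c i = t - i + λ i`, `λ : Fin a → ℕ` weakly decreasing,
`λ i ≤ b`; the column lengths are `μ j = #{i | j < λ i}`, and the state of the flipped process is
`c' j = -t - j + μ j`.  Taking the letter `c i` (i.e. `λ i ↦ λ i + 1`, allowed iff `λ` stays weakly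
decreasing, i.e. `i = 0` or `λ (i-1) > λ i`) adds the box `(i, j)`, `j = λ i`, of content
`t + j - i = c i`; then `μ j = i` before, and it is the move `μ j ↦ μ j + 1` of the flipped
process with letter `c' j = -t - j + i = -(c i)`, allowed for the same reason.  The relation of the
two states is `j < λ i ↔ i < μ j` (`TrRel`); a row that exceeds `b` never comes back
(`tr_no_over`).
-/

set_option linter.unusedSectionVars false

namespace PC

variable {Λ : Type} [DecidableEq Λ] {R : Type} [CommRing R] {q : Rˣ}

/-- a row that is too long never comes back -/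
theorem tr_no_over (l : Λ) {m : ℕ} (e : Fin m → ℤ) (u : List (Λ × ℤ)) :
    ∀ c : Fin m → ℤ, (∃ i, e i + 1 < c i) → ¬ QSh.IsTab l e u c := by
  induction u with
  | nil =>
    rintro c ⟨i, hi⟩ h
    have := h i
    omega
  | cons x u ih =>
    rintro c ⟨i, hi⟩ ⟨k, -, -, h⟩
    refine ih _ ⟨i, ?_⟩ h
    by_cases hik : i = k
    · subst hik
      rw [Function.update_self]
      omega
    · rw [Function.update_of_ne hik]
      exact hi

/-- the relation of the states of the row process and the column process -/
def TrRel (t : ℤ) (a b : ℕ) (c : Fin a → ℤ) (c' : Fin b → ℤ) : Prop :=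
  (∀ (i : Fin a) (j : Fin b), (t - (i : ℕ) + (j : ℕ) < c i ↔ -t - (j : ℕ) + (i : ℕ) < c' j)) ∧
    (∀ i : Fin a, t - (i : ℕ) ≤ c i ∧ c i ≤ t - (i : ℕ) + b) ∧
    ∀ j : Fin b, -t - (j : ℕ) ≤ c' j ∧ c' j ≤ -t - (j : ℕ) + a

/-- the main step: a word of the row process gives a word of the column process -/
theorem tr_step (l : Λ) (t : ℤ) (a b : ℕ) (u : List (Λ × ℤ)) :
    ∀ (c : Fin a → ℤ) (c' : Fin b → ℤ), TrRel t a b c c' →
      QSh.IsTab l (fun i : Fin a => t - (i : ℕ) + b - 1) u c →
      QSh.IsTab l (fun j : Fin b => -t - (j : ℕ) + a - 1) (u.map (fun x => (x.1, -x.2))) c' := by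
  induction u with
  | nil =>
    intro c c' hrel h j
    obtain ⟨h1, h2, h3⟩ := hrel
    have hj := h3 j
    show c' j = -t - (j : ℕ) + a - 1 + 1
    rcases Nat.eq_zero_or_pos a with ha | ha
    · subst ha
      push_cast at hj ⊢
      omega
    · have h4 := h ⟨a - 1, by omega⟩
      have h5 := (h1 ⟨a - 1, by omega⟩ j).mp (by
        have := j.isLt
        rw [h4]
        push_cast
        omega)
      have h6 : (((⟨a - 1, by omega⟩ : Fin a) : ℕ) : ℤ) = (a : ℤ) - 1 := by
        push_cast [Nat.cast_sub ha]
        rfl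
      rw [h6] at h5
      omega
  | cons x u ih =>
    rintro c c' hrel ⟨i, hx, hanti, h⟩
    obtain ⟨h1, h2, h3⟩ := hrel
    -- the row is not full
    have hlt : c i < t - (i : ℕ) + b := by
      by_contra hcon
      refine tr_no_over l _ u _ ⟨i, ?_⟩ h
      rw [Function.update_self]
      push Not at hcon
      show t - (i : ℕ) + b - 1 + 1 < c i + 1
      omega
    -- the column
    obtain ⟨j, hjb, hj⟩ : ∃ j : ℕ, j < b ∧ c i = t - (i : ℕ) + j := by
      have h4 := (h2 i).1
      refine ⟨(c i - (t - (i : ℕ))).toNat, by omega, by omega⟩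
    have hj' : c' ⟨j, hjb⟩ = -t - (j : ℕ) + (i : ℕ) := by
      have h5 : ¬ (-t - (j : ℕ) + (i : ℕ) < c' ⟨j, hjb⟩) := by
        intro h6
        have h7 := (h1 i ⟨j, hjb⟩).mpr h6
        have h8 : (((⟨j, hjb⟩ : Fin b) : ℕ) : ℤ) = j := rfl
        rw [h8] at h7
        omega
      have h9 : -t - (j : ℕ) + (i : ℕ) ≤ c' ⟨j, hjb⟩ := by
        rcases Nat.eq_zero_or_pos (i : ℕ) with hi | hi
        · have h10 := (h3 ⟨j, hjb⟩).1
          have h8 : (((⟨j, hjb⟩ : Fin b) : ℕ) : ℤ) = j := rfl
          rw [h8] at h10
          omega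
        · -- the previous row
          have hia := i.isLt
          have h11 : (⟨(i : ℕ) - 1, by omega⟩ : Fin a) < i := by
            rw [Fin.lt_def]
            show (i : ℕ) - 1 < i
            omega
          have h12 := hanti h11
          rw [Function.update_self, Function.update_of_ne (ne_of_lt h11)] at h12
          have h13 : ((((⟨(i : ℕ) - 1, by omega⟩ : Fin a) : ℕ)) : ℤ) = ((i : ℕ) : ℤ) - 1 := by
            push_cast [Nat.cast_sub hi]
            rfl
          have h14 := (h1 ⟨(i : ℕ) - 1, by omega⟩ ⟨j, hjb⟩).mp (by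
            have h8 : (((⟨j, hjb⟩ : Fin b) : ℕ) : ℤ) = j := rfl
            rw [h13, h8]
            omega)
          have h8 : (((⟨j, hjb⟩ : Fin b) : ℕ) : ℤ) = j := rfl
          rw [h13, h8] at h14
          omega
      omega
    have hc'anti : ∀ j1 j2 : Fin b, j1 < j2 → c' j2 < c' j1 := by
      intro j1 j2 hj12
      rw [Fin.lt_def] at hj12
      have h4 := h3 j1
      have h5 := h3 j2
      rcases Nat.eq_zero_or_pos a with ha | ha
      · subst ha
        exact i.elim0
      · -- the length of the column `j2`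
        by_contra hcon
        push Not at hcon
        have h6 : ∃ k : ℕ, k < a ∧ c' j1 = -t - (j1 : ℕ) + k := by
          refine ⟨(c' j1 - (-t - (j1 : ℕ))).toNat, by omega, by omega⟩
        obtain ⟨k, hk, hk'⟩ := h6
        have h7 := (h1 ⟨k, hk⟩ j1).mp
        have h8 : (((⟨k, hk⟩ : Fin a) : ℕ) : ℤ) = k := rfl
        rw [h8] at h7
        have h9 := (h1 ⟨k, hk⟩ j2).mpr
        rw [h8] at h9
        have h10 := h9 (by omega)
        have h11 := h7 (by omega)
        omega
    refine ⟨⟨j, hjb⟩, ?_, ?_, ?_⟩
    · rw [hx, hj', hj]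
      show ((l, -(t - (i : ℕ) + (j : ℤ))) : Λ × ℤ) = _
      congr 1
      ring
    · intro j1 j2 hj12
      by_cases e1 : j1 = ⟨j, hjb⟩
      · subst e1
        rw [Function.update_self, Function.update_of_ne (ne_of_gt hj12)]
        have := hc'anti _ _ hj12
        omega
      · by_cases e2 : j2 = ⟨j, hjb⟩
        · subst e2
          rw [Function.update_self, Function.update_of_ne (ne_of_lt hj12)]
          rw [Fin.lt_def] at hj12
          have h4 : ((j1 : ℕ)) < j := hj12
          have h5 := (h1 i j1).mp (by rw [hj]; omega)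
          rw [hj']
          omega
        · rw [Function.update_of_ne e1, Function.update_of_ne e2]
          exact hc'anti _ _ hj12
    · refine ih (Function.update c i (c i + 1)) (Function.update c' ⟨j, hjb⟩ (c' ⟨j, hjb⟩ + 1))
        ⟨?_, ?_, ?_⟩ h
      · intro i1 j1
        by_cases ei : i1 = i
        · by_cases ej : j1 = ⟨j, hjb⟩
          · subst ei; subst ej
            rw [Function.update_self, Function.update_self, hj', hj]
            constructor
            · intro _
              show -t - (j : ℕ) + (i1 : ℕ) < _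
              omega
            · intro _
              show t - (i1 : ℕ) + (j : ℕ) < _
              omega
          · subst ei
            rw [Function.update_self, Function.update_of_ne ej, ← h1 i1 j1, hj]
            have h4 : (j1 : ℕ) ≠ j := fun h => ej (Fin.ext h)
            omega
        · by_cases ej : j1 = ⟨j, hjb⟩
          · subst ej
            rw [Function.update_self, Function.update_of_ne ei, h1 i1 ⟨j, hjb⟩, hj']
            have h4 : (i1 : ℕ) ≠ i := fun h => ei (Fin.ext h)
            show -t - (j : ℕ) + (i1 : ℕ) < _ ↔ -t - (j : ℕ) + (i1 : ℕ) < _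
            omega
          · rw [Function.update_of_ne ei, Function.update_of_ne ej]
            exact h1 i1 j1
      · intro i1
        by_cases ei : i1 = i
        · subst ei
          rw [Function.update_self]
          have := h2 i1
          omega
        · rw [Function.update_of_ne ei]
          exact h2 i1
      · intro j1
        by_cases ej : j1 = ⟨j, hjb⟩
        · subst ej
          rw [Function.update_self]
          have h4 := h3 ⟨j, hjb⟩
          have h5 := i.isLt
          rw [hj'] at h4 ⊢
          have h8 : (((⟨j, hjb⟩ : Fin b) : ℕ) : ℤ) = j := rfl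
          rw [h8] at h4 ⊢
          omega
        · rw [Function.update_of_ne ej]
          exact h3 j1

theorem Rect.ch_flip (r : Rect Λ) : (r.ch : QSh Λ R q) = QSh.neg' r.flip.ch := by
  ext u
  have hrel : TrRel r.t r.a r.b r.rs r.flip.rs := by
    refine ⟨?_, ?_, ?_⟩
    · intro i j
      show r.t - (i : ℕ) + (j : ℕ) < r.t - (i : ℕ) ↔ -r.t - (j : ℕ) + (i : ℕ) < -r.t - (j : ℕ)
      omega
    · intro i
      show r.t - (i : ℕ) ≤ r.t - (i : ℕ) ∧ r.t - (i : ℕ) ≤ r.t - (i : ℕ) + r.b
      omega
    · intro j
      show -r.t - (j : ℕ) ≤ -r.t - (j : ℕ) ∧ -r.t - (j : ℕ) ≤ -r.t - (j : ℕ) + r.a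
      omega
  have hrel2 : TrRel (-r.t) r.b r.a r.flip.rs r.rs := by
    refine ⟨?_, ?_, ?_⟩
    · intro j i
      show -r.t - (j : ℕ) + (i : ℕ) < -r.t - (j : ℕ) ↔
        - -r.t - (i : ℕ) + (j : ℕ) < r.t - (i : ℕ)
      omega
    · intro j
      show -r.t - (j : ℕ) ≤ -r.t - (j : ℕ) ∧ -r.t - (j : ℕ) ≤ -r.t - (j : ℕ) + r.a
      omega
    · intro i
      show - -r.t - (i : ℕ) ≤ r.t - (i : ℕ) ∧ r.t - (i : ℕ) ≤ - -r.t - (i : ℕ) + r.b
      omega
  have hiff : QSh.IsTab r.l r.re u r.rs ↔
      QSh.IsTab r.flip.l r.flip.re (u.map (fun x => (x.1, -x.2))) r.flip.rs := by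
    constructor
    · intro h
      exact tr_step r.l r.t r.a r.b u _ _ hrel h
    · intro h
      have h1 := tr_step r.l (-r.t) r.b r.a _ _ _ hrel2 h
      rw [List.map_map] at h1
      have h2 : ((fun x : Λ × ℤ => (x.1, -x.2)) ∘ fun x : Λ × ℤ => (x.1, -x.2)) = id := by
        funext x
        simp
      rw [h2, List.map_id] at h1
      have h3 : (fun i : Fin r.a => - -r.t - (i : ℕ) + (r.b : ℤ) - 1) = r.re := by
        funext i
        show - -r.t - (i : ℕ) + (r.b : ℤ) - 1 = r.t - (i : ℕ) + r.b - 1
        omega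
      rw [h3] at h1
      exact h1
  by_cases h : QSh.IsTab r.l r.re u r.rs
  · have e1 : (r.ch : QSh Λ R q) u = 1 := if_pos h
    have e2 : (QSh.neg' r.flip.ch : QSh Λ R q) u = 1 := if_pos (hiff.mp h)
    rw [e1, e2]
  · have e1 : (r.ch : QSh Λ R q) u = 0 := if_neg h
    have e2 : (QSh.neg' r.flip.ch : QSh Λ R q) u = 0 := if_neg (fun h' => h (hiff.mpr h'))
    rw [e1, e2]

end PC
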