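import Mathlib
import Pool.Agent.Lib.MP_ca1492_al.GoodA
import Pool.Agent.Lib.MP_ca1492_al.Lgv
import Pool.Agent.Lib.MP_ca1492_al.Transp

/-!
# MP_ca1492_al, module RectEq: the character of a rectangle as a quantum determinant.
-/

set_option linter.unusedSectionVars false

namespace PC

open QSh

variable {Λ : Type} [DecidableEq Λ] {R : Type} [CommRing R] {q : Rˣ}

theorem Rect.rs_anti (r : Rect Λ) : StrictAnti r.rs := by
  intro i j h
  have : ((i : ℕ) : ℤ) < ((j : ℕ) : ℤ) := by exact_mod_cast h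
  unfold Rect.rs
  omega

theorem Rect.re_anti (r : Rect Λ) : StrictAnti r.re := by
  intro i j h
  have : ((i : ℕ) : ℤ) < ((j : ℕ) : ℤ) := by exact_mod_cast h
  unfold Rect.re
  omega

theorem Rect.ch_eq (r : Rect Λ) :
    (r.ch : QSh Λ R q) = rdet (-(q : R)) r.gS r.nrm.a r.nrm.rs r.nrm.re := by
  have e0 : ∀ r : Rect Λ, (r.ch : QSh Λ R q) = rdet (-(q : R)) (seg r.l) r.a r.rs r.re :=
    fun r => lgv r.l r.rs r.re r.rs_anti r.re_anti
  by_cases h : r.tall = true
  · have e1 : r.nrm = r.flip := by unfold Rect.nrm; rw [if_pos h]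
    rw [Rect.ch_flip, e0, neg'_rdet, e1]
    have e2 : (fun s t => neg' (seg r.flip.l s t) : ℤ → ℤ → QSh Λ R q) = r.gS := by
      funext s t
      unfold Rect.gS Sg
      rw [if_pos h]
      simp only [if_true, neg_neg]
      rfl
    rw [e2]
  · have e1 : r.nrm = r := by unfold Rect.nrm; rw [if_neg h]
    rw [e0, e1]
    have e2 : (seg r.l : ℤ → ℤ → QSh Λ R q) = r.gS := by
      funext s t
      unfold Rect.gS Sg
      rw [if_neg h]
      simp
    rw [e2]

theorem Rect.nrm_le (r : Rect Λ) : r.nrm.a ≤ r.nrm.b := by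
  unfold Rect.nrm
  by_cases h : r.tall = true
  · rw [if_pos h]
    unfold Rect.tall at h
    have := of_decide_eq_true h
    exact this.le
  · rw [if_neg h]
    unfold Rect.tall at h
    have : ¬ (r.b < r.a) := by simpa using h
    omega

theorem Rect.nrm_rs_le (r : Rect Λ) (i k : Fin r.nrm.a) : r.nrm.rs i ≤ r.nrm.re k := by
  have h1 := r.nrm_le
  have h2 := k.2
  unfold Rect.rs Rect.re
  omega

/-- operator of a rectangle, in the opposite algebra -/
noncomputable def Rect.opR (r : Rect Λ) : (Module.End R (QSh Λ R q))ᵐᵒᵖ :=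
  rdet (-((q⁻¹ : Rˣ) : R)) (fun s t =>
    (MulOpposite.op (r.gE s t) : (Module.End R (QSh Λ R q))ᵐᵒᵖ)) r.nrm.a r.nrm.rs r.nrm.re

theorem Rect.good_ch (bar : R →+* R) (hb : bar (q : R) = ((q⁻¹ : Rˣ) : R)) (r : Rect Λ) :
    ∃ n : ℕ, Good bar ((1 - (q : R) ^ 2) ^ n • (r.ch : QSh Λ R q))
      (fun g => (r.opR).unop g) := by
  refine ⟨((∑ i, r.nrm.re i) - ∑ i, r.nrm.rs i).toNat, ?_⟩
  rw [Rect.ch_eq]
  refine good_rdet bar hb r.gS r.gE r.nrm.rs r.nrm.re r.nrm_rs_le ?_
  intro i k
  have hle := r.nrm_rs_le i k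
  unfold Rect.gS Rect.gE
  by_cases h : r.tall = true
  · simp only [if_pos h]
    have := good_Sg (q := q) bar hb true r.l (i := -(r.nrm.re k)) (j := -(r.nrm.rs i)) (by omega)
    have e : (-(r.nrm.rs i) - -(r.nrm.re k)).toNat = (r.nrm.re k - r.nrm.rs i).toNat := by
      congr 1; ring
    rw [e] at this
    exact this
  · simp only [if_neg h]
    exact good_Sg (q := q) bar hb false r.l hle

theorem good_list (bar : R →+* R) (hb : bar (q : R) = ((q⁻¹ : Rˣ) : R)) (M : List (Rect Λ)) :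
    ∃ n : ℕ, Good bar ((1 - (q : R) ^ 2) ^ n • ((M.map Rect.ch).prod : QSh Λ R q))
      (fun g => ((M.map Rect.opR).prod : (Module.End R (QSh Λ R q))ᵐᵒᵖ).unop g) := by
  induction M with
  | nil =>
    refine ⟨0, ?_⟩
    simp only [pow_zero, one_smul, List.map_nil, List.prod_nil, MulOpposite.unop_one,
      Module.End.one_apply]
    exact good_one bar
  | cons r M ih =>
    obtain ⟨n, hn⟩ := ih
    obtain ⟨m, hm⟩ := r.good_ch (q := q) bar hb
    refine ⟨m + n, ?_⟩
    have := good_mul bar hm hn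
    rw [smul_mul_assoc, mul_smul_comm, smul_smul, ← pow_add] at this
    simp only [List.map_cons, List.prod_cons, MulOpposite.unop_mul, Module.End.mul_apply]
    exact this

end PC
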