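import Mathlib
import Pool.Agent.Lib.MP_ca1492_al.CombDefs

/-!
# MP_ca1492_al, module SyA: closure properties of `Sy`.

`Sy ok G G' d a b`: there is a list of pairs (integer, word of length `d` with letters `v`,
`ok v`) such that `a` is the sum of integer times the product of the `G v`, and `b` the same with
`G'`.  Sums: append the lists.  Products: all pairs, multiply the integers, append the words
(`List.flatMap`).  `sy_rdet`: induction on `m`.
-/

namespace PC

variable {V A B : Type} [Ring A] [Ring B] {ok : V → Prop} {G : V → A} {G' : V → B}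

theorem sy_one : Sy ok G G' 0 1 1 := by
  refine ⟨[(1, [])], ?_, ?_, ?_⟩
  · intro x hx
    rw [List.mem_singleton] at hx
    subst hx
    refine ⟨rfl, ?_⟩
    intro v hv
    exact absurd hv List.not_mem_nil
  · simp
  · simp

theorem sy_zero (d : ℕ) : Sy ok G G' d 0 0 := by
  refine ⟨[], ?_, ?_, ?_⟩
  · intro x hx
    exact absurd hx List.not_mem_nil
  · simp
  · simp

theorem sy_gen {v : V} (h : ok v) : Sy ok G G' 1 (G v) (G' v) := by
  refine ⟨[(1, [v])], ?_, ?_, ?_⟩
  · intro x hx
    rw [List.mem_singleton] at hx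
    subst hx
    refine ⟨rfl, ?_⟩
    intro w hw
    rw [List.mem_singleton] at hw
    rw [hw]
    exact h
  · simp
  · simp

theorem sy_add {d : ℕ} {a a' : A} {b b' : B} (h : Sy ok G G' d a b) (h' : Sy ok G G' d a' b') :
    Sy ok G G' d (a + a') (b + b') := by
  obtain ⟨t, h1, h2, h3⟩ := h
  obtain ⟨t', h1', h2', h3'⟩ := h'
  refine ⟨t ++ t', ?_, ?_, ?_⟩
  · intro x hx
    rcases List.mem_append.mp hx with hx | hx
    · exact h1 x hx
    · exact h1' x hx
  · rw [List.map_append, List.sum_append, h2, h2']
  · rw [List.map_append, List.sum_append, h3, h3']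

theorem sy_smul (c : ℤ) {d : ℕ} {a : A} {b : B} (h : Sy ok G G' d a b) :
    Sy ok G G' d (c • a) (c • b) := by
  obtain ⟨t, h1, h2, h3⟩ := h
  refine ⟨t.map (fun x => (c * x.1, x.2)), ?_, ?_, ?_⟩
  · intro x hx
    obtain ⟨y, hy, rfl⟩ := List.mem_map.mp hx
    exact h1 y hy
  · rw [h2, List.map_map]
    clear h1 h2 h3
    induction t with
    | nil => simp
    | cons y t ih =>
      rw [List.map_cons, List.sum_cons, List.map_cons, List.sum_cons, smul_add, ih]
      simp [mul_assoc]
  · rw [h3, List.map_map]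
    clear h1 h2 h3
    induction t with
    | nil => simp
    | cons y t ih =>
      rw [List.map_cons, List.sum_cons, List.map_cons, List.sum_cons, smul_add, ih]
      simp [mul_assoc]

theorem sy_sum {ι : Type} (s : Finset ι) {d : ℕ} (a : ι → A) (b : ι → B)
    (h : ∀ i ∈ s, Sy ok G G' d (a i) (b i)) : Sy ok G G' d (∑ i ∈ s, a i) (∑ i ∈ s, b i) := by
  classical
  induction s using Finset.induction_on with
  | empty =>
    rw [Finset.sum_empty, Finset.sum_empty]
    exact sy_zero d
  | insert i s hi ih =>
    rw [Finset.sum_insert hi, Finset.sum_insert hi]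
    exact sy_add (h i (Finset.mem_insert_self i s))
      (ih fun k hk => h k (Finset.mem_insert_of_mem hk))

/-- the product of two evaluated lists -/
theorem syA_mul_aux {W : Type} {C : Type} [Ring C] (F : W → C) (t t' : List (ℤ × List W)) :
    (t.map (fun x => x.1 • (x.2.map F).prod)).sum *
        (t'.map (fun x => x.1 • (x.2.map F).prod)).sum =
      ((t.flatMap fun x => t'.map fun y => (x.1 * y.1, x.2 ++ y.2)).map
        (fun x => x.1 • (x.2.map F).prod)).sum := by
  induction t with
  | nil => simp
  | cons z t ih =>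
    rw [List.map_cons, List.sum_cons, add_mul, ih, List.flatMap_cons, List.map_append,
      List.sum_append]
    congr 1
    rw [List.map_map]
    clear ih
    induction t' with
    | nil => simp
    | cons y t' ih' =>
      rw [List.map_cons, List.sum_cons, List.map_cons, List.sum_cons, mul_add, ih']
      congr 1
      simp only [Function.comp_apply, List.map_append, List.prod_append]
      rw [smul_mul_smul_comm]

theorem sy_mul {d d' : ℕ} {a a' : A} {b b' : B} (h : Sy ok G G' d a b)
    (h' : Sy ok G G' d' a' b') : Sy ok G G' (d + d') (a * a') (b * b') := by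
  obtain ⟨t, h1, h2, h3⟩ := h
  obtain ⟨t', h1', h2', h3'⟩ := h'
  refine ⟨t.flatMap fun x => t'.map fun y => (x.1 * y.1, x.2 ++ y.2), ?_, ?_, ?_⟩
  · intro x hx
    obtain ⟨z, hz, hx⟩ := List.mem_flatMap.mp hx
    obtain ⟨y, hy, rfl⟩ := List.mem_map.mp hx
    refine ⟨?_, ?_⟩
    · show (z.2 ++ y.2).length = d + d'
      rw [List.length_append, (h1 z hz).1, (h1' y hy).1]
    · intro v hv
      rcases List.mem_append.mp hv with hv | hv
      · exact (h1 z hz).2 v hv
      · exact (h1' y hy).2 v hv
  · rw [h2, h2', syA_mul_aux]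
  · rw [h3, h3', syA_mul_aux]

theorem sy_rdet (H : ℤ → ℤ → A) (H' : ℤ → ℤ → B) {m : ℕ} (c e : Fin m → ℤ)
    (h : ∀ i k, Sy ok G G' 1 (H (c i) (e k)) (H' (c i) (e k))) :
    Sy ok G G' m (rdet (-1 : ℤ) H m c e) (rdet (-1 : ℤ) H' m c e) := by
  induction m with
  | zero => exact sy_one
  | succ m ih =>
    show Sy ok G G' (m + 1)
      (∑ k : Fin (m + 1), (-1 : ℤ) ^ (k : ℕ) • (H (c 0) (e k) *
        rdet (-1 : ℤ) H m (fun i => c i.succ) (fun i => e (k.succAbove i))))
      (∑ k : Fin (m + 1), (-1 : ℤ) ^ (k : ℕ) • (H' (c 0) (e k) *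
        rdet (-1 : ℤ) H' m (fun i => c i.succ) (fun i => e (k.succAbove i))))
    apply sy_sum
    intro k _
    apply sy_smul
    have key := sy_mul (h 0 k) (ih (fun i => c i.succ) (fun i => e (k.succAbove i))
      fun i l => h i.succ (k.succAbove l))
    have e1 : 1 + m = m + 1 := add_comm 1 m
    rw [e1] at key
    exact key

theorem sy_list {ι : Type} (l : List ι) (d : ι → ℕ) (a : ι → A) (b : ι → B)
    (h : ∀ i ∈ l, Sy ok G G' (d i) (a i) (b i)) :
    Sy ok G G' (l.map d).sum (l.map a).prod (l.map b).prod := by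
  induction l with
  | nil => exact sy_one
  | cons i l ih =>
    rw [List.map_cons, List.sum_cons, List.map_cons, List.prod_cons, List.map_cons,
      List.prod_cons]
    exact sy_mul (h i List.mem_cons_self) (ih fun k hk => h k (List.mem_cons_of_mem i hk))

/-- in a commutative ring `rdet (-1)` is the determinant -/
theorem rdet_eq_det {S : Type} [CommRing S] (H : ℤ → ℤ → S) {m : ℕ} (c e : Fin m → ℤ) :
    rdet (-1 : ℤ) H m c e = Matrix.det (Matrix.of fun i k => H (c i) (e k)) := by
  induction m with
  | zero => rw [Matrix.det_fin_zero]; rfl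
  | succ m ih =>
    rw [Matrix.det_succ_row_zero]
    show (∑ k : Fin (m + 1), (-1 : ℤ) ^ (k : ℕ) • (H (c 0) (e k) *
        rdet (-1 : ℤ) H m (fun i => c i.succ) (fun i => e (k.succAbove i)))) = _
    refine Finset.sum_congr rfl fun k _ => ?_
    rw [ih, zsmul_eq_mul, mul_assoc]
    push_cast
    rfl

end PC
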