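import Mathlib
import Pool.Agent.Lib.MP_ca1492_al.Pair
import Pool.Agent.Lib.MP_ca1492_al.QOne
import Pool.Agent.Lib.MP_ca1492_al.RectEq
import Pool.Agent.Lib.MP_ca1492_al.SyA

/-!
# MP_ca1492_al, module EvalOne: the value at `q = 1` is a Fischer pairing.
-/

set_option linter.unusedSectionVars false

namespace PC

open QSh

variable {Λ : Type} [DecidableEq Λ]

/-! ### change of scalars -/

section mpsec

variable {R : Type} [CommRing R] {q : Rˣ} (φ : R →+* ℤ)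

theorem mp_ch (r : Rect Λ) : (mp φ 1 (r.ch : QSh Λ R q) : QSh Λ ℤ 1) = r.ch := by
  classical
  funext u
  by_cases h : IsTab r.l r.re u r.rs
  · have h1 : (r.ch : QSh Λ R q) u = 1 := if_pos h
    have h2 : (r.ch : QSh Λ ℤ 1) u = 1 := if_pos h
    change φ ((r.ch : QSh Λ R q) u) = _
    rw [h1, h2, map_one]
  · have h1 : (r.ch : QSh Λ R q) u = 0 := if_neg h
    have h2 : (r.ch : QSh Λ ℤ 1) u = 0 := if_neg h
    change φ ((r.ch : QSh Λ R q) u) = _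
    rw [h1, h2, map_zero]

theorem mp_gE (h : φ (q : R) = ((1 : ℤˣ) : ℤ)) (r : Rect Λ) (s t : ℤ) (f : QSh Λ R q) :
    (mp φ 1 (r.gE s t f) : QSh Λ ℤ 1) = r.gE s t (mp φ 1 f) := by
  unfold Rect.gE
  split_ifs
  · exact mp_Ev φ 1 h _ _ _ _ _
  · exact mp_Ev φ 1 h _ _ _ _ _

theorem mp_opR (h : φ (q : R) = ((1 : ℤˣ) : ℤ)) (r : Rect Λ) (f : QSh Λ R q) :
    (mp φ 1 ((r.opR).unop f) : QSh Λ ℤ 1) = (r.opR).unop (mp φ 1 f) := by
  have h1 := mp_rdet_op (q := q) φ 1 h (-((q⁻¹ : Rˣ) : R)) r.gE r.gE (mp_gE φ h r)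
    r.nrm.a r.nrm.rs r.nrm.re f
  have h2 : φ (-((q⁻¹ : Rˣ) : R)) = -(((1 : ℤˣ)⁻¹ : ℤˣ) : ℤ) := by
    rw [map_neg]
    congr 1
    have h3 : φ (q : R) * φ ((q⁻¹ : Rˣ) : R) = 1 := by
      rw [← map_mul, Units.mul_inv, map_one]
    rw [h] at h3
    simpa using h3
  rw [h2] at h1
  exact h1

theorem mp_list (h : φ (q : R) = ((1 : ℤˣ) : ℤ)) (M : List (Rect Λ)) (f : QSh Λ R q) :
    (mp φ 1 (((M.map Rect.opR).prod : (Module.End R (QSh Λ R q))ᵐᵒᵖ).unop f) : QSh Λ ℤ 1) =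
      ((M.map Rect.opR).prod : (Module.End ℤ (QSh Λ ℤ 1))ᵐᵒᵖ).unop (mp φ 1 f) := by
  induction M generalizing f with
  | nil => simp
  | cons r M ih =>
    simp only [List.map_cons, List.prod_cons, MulOpposite.unop_mul, Module.End.mul_apply]
    rw [ih, mp_opR φ h]

end mpsec

/-! ### words -/

theorem zsmul_nil (n : ℤ) (f : QSh Λ ℤ 1) : (n • f) [] = n * f [] := by
  have h := map_zsmul (eps : QSh Λ ℤ 1 →+* ℤ) n f
  rw [smul_eq_mul] at h
  exact h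

/-- letters of words of segments: type, line, first and last content -/
abbrev Vx (Λ : Type) := Bool × Λ × ℤ × ℤ

def okv (v : Vx Λ) : Prop := v.2.2.1 ≤ v.2.2.2

def vS (v : Vx Λ) : QSh Λ ℤ 1 := Sg v.1 v.2.1 v.2.2.1 v.2.2.2

def vE (v : Vx Λ) : (Module.End ℤ (QSh Λ ℤ 1))ᵐᵒᵖ :=
  MulOpposite.op (Ev v.1 v.2.1 v.2.2.1 v.2.2.2)

noncomputable def vX (v : Vx Λ) : MvPolynomial ((Λ × ℤ) × (Λ × ℤ)) ℤ :=
  MvPolynomial.C (sn v.1 v.2.2.1 v.2.2.2) *
    MvPolynomial.X ((v.2.1, v.2.2.1), (v.2.1, v.2.2.2))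

/-- the commutative ring structure at `q = 1` -/
@[reducible] def commOne : CommRing (QSh Λ ℤ 1) :=
  { (inferInstance : Ring (QSh Λ ℤ 1)) with mul_comm := mul_comm_q_one }

theorem foldl_unop (l : List (Vx Λ)) (f : QSh Λ ℤ 1) :
    ((l.map vE).prod).unop f = l.foldl (fun f v => Ev v.1 v.2.1 v.2.2.1 v.2.2.2 f) f := by
  induction l generalizing f with
  | nil => simp
  | cons v l ih =>
    simp only [List.map_cons, List.prod_cons, MulOpposite.unop_mul, Module.End.mul_apply,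
      List.foldl_cons]
    rw [ih]
    rfl

theorem pair_words (la lb : List (Vx Λ)) (hlen : la.length = lb.length)
    (ha : ∀ v ∈ la, okv v) (hb : ∀ v ∈ lb, okv v) :
    (((la.map vE).prod).unop ((lb.map vS).prod)) [] =
      Fis ((la.map vX).prod) ((lb.map vX).prod) := by
  letI : CommRing (QSh Λ ℤ 1) := commOne
  have h := pairing (S := QSh Λ ℤ 1) (eps : QSh Λ ℤ 1 →+* ℤ)
    (fun v f => Ev v.1 v.2.1 v.2.2.1 v.2.2.2 f)
    (fun v f g => map_add _ f g) (fun v f g => Ev_der _ _ _ _ f g)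
    vS (fun v : Vx Λ => ((v.2.1, v.2.2.1), (v.2.1, v.2.2.2)))
    (fun v : Vx Λ => ((v.2.1, v.2.2.1), (v.2.1, v.2.2.2)))
    (fun v => sn v.1 v.2.2.1 v.2.2.2) (fun v => sn v.1 v.2.2.1 v.2.2.2) la lb hlen
    (fun v hv => Sg_nil v.1 v.2.1 (hb v hv))
    (fun v hv w hw => by
      have h1 := Ev_pair v.1 w.1 v.2.1 w.2.1 (ha v hv) (hb w hw)
      refine h1.trans ?_
      refine if_congr ?_ rfl rfl
      simp only [Prod.mk.injEq]
      tauto)
  rw [foldl_unop]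
  exact h

theorem pair_sy {d : ℕ} {L : (Module.End ℤ (QSh Λ ℤ 1))ᵐᵒᵖ}
    {P Q : MvPolynomial ((Λ × ℤ) × (Λ × ℤ)) ℤ} {g : QSh Λ ℤ 1}
    (hL : Sy okv vE vX d L P) (hg : Sy okv vS vX d g Q) : (L.unop g) [] = Fis P Q := by
  obtain ⟨t, ht, rfl, rfl⟩ := hL
  obtain ⟨u, hu, rfl, rfl⟩ := hg
  induction t with
  | nil =>
    simp only [List.map_nil, List.sum_nil, MulOpposite.unop_zero]
    have h0 : Fis (0 : MvPolynomial ((Λ × ℤ) × (Λ × ℤ)) ℤ)
        (List.map (fun x => x.1 • (List.map vX x.2).prod) u).sum = 0 := by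
      unfold Fis; simp
    rw [h0]
    rfl
  | cons x t ih =>
    simp only [List.map_cons, List.sum_cons, MulOpposite.unop_add, LinearMap.add_apply,
      QSh.add_apply]
    rw [fis_add_left, ih (fun y hy => ht y (List.mem_cons_of_mem _ hy))]
    congr 1
    have hx := ht x List.mem_cons_self
    have e1 : (x.1 • (List.map vX x.2).prod : MvPolynomial ((Λ × ℤ) × (Λ × ℤ)) ℤ) =
        MvPolynomial.C x.1 * (List.map vX x.2).prod := by
      rw [← MvPolynomial.smul_eq_C_mul]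
    rw [e1, fis_smul_left, MulOpposite.unop_smul, LinearMap.smul_apply]
    refine (zsmul_nil _ _).trans ?_
    congr 1
    clear ih e1
    induction u with
    | nil =>
      simp only [List.map_nil, List.sum_nil]
      rw [map_zero]
      have h0 : Fis (List.map vX x.2).prod
          (0 : MvPolynomial ((Λ × ℤ) × (Λ × ℤ)) ℤ) = 0 := by
        unfold Fis; simp
      rw [h0]
      rfl
    | cons y u ih =>
      simp only [List.map_cons, List.sum_cons]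
      rw [map_add, QSh.add_apply, fis_add_right, ih (fun z hz => hu z (List.mem_cons_of_mem _ hz))]
      congr 1
      have hy := hu y List.mem_cons_self
      have e1 : (y.1 • (List.map vX y.2).prod : MvPolynomial ((Λ × ℤ) × (Λ × ℤ)) ℤ) =
          MvPolynomial.C y.1 * (List.map vX y.2).prod := by
        rw [← MvPolynomial.smul_eq_C_mul]
      rw [e1, fis_smul_right, map_zsmul]
      have e2 := pair_words x.2 y.2 (hx.1.trans hy.1.symm) hx.2 hy.2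
      rw [← e2]
      exact zsmul_nil _ _

/-! ### rectangles -/

theorem sy_E (r : Rect Λ) : Sy okv vE vX r.nrm.a (r.opR : (Module.End ℤ (QSh Λ ℤ 1))ᵐᵒᵖ)
    (rdet (-1 : ℤ) r.gX r.nrm.a r.nrm.rs r.nrm.re) := by
  have e : (r.opR : (Module.End ℤ (QSh Λ ℤ 1))ᵐᵒᵖ) = rdet (-1 : ℤ) (fun s t =>
      (MulOpposite.op (r.gE s t) : (Module.End ℤ (QSh Λ ℤ 1))ᵐᵒᵖ)) r.nrm.a r.nrm.rs r.nrm.re := by
    unfold Rect.opR
    congr 1
  rw [e]
  refine sy_rdet _ _ _ _ ?_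
  intro i k
  have hle := r.nrm_rs_le i k
  unfold Rect.gE Rect.gX
  by_cases h : r.tall = true
  · simp only [if_pos h]
    exact sy_gen (G := vE) (G' := vX) (v := (true, r.l, -(r.nrm.re k), -(r.nrm.rs i)))
      (by unfold okv; simp only; omega)
  · simp only [if_neg h]
    exact sy_gen (G := vE) (G' := vX) (v := (false, r.l, r.nrm.rs i, r.nrm.re k)) hle

theorem sy_S (r : Rect Λ) : Sy okv vS vX r.nrm.a (r.ch : QSh Λ ℤ 1)
    (rdet (-1 : ℤ) r.gX r.nrm.a r.nrm.rs r.nrm.re) := by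
  have e : (r.ch : QSh Λ ℤ 1) = rdet (-1 : ℤ) r.gS r.nrm.a r.nrm.rs r.nrm.re := by
    rw [Rect.ch_eq]
    congr 1
  have e3 : (QSh.instAlgebra : Algebra ℤ (QSh Λ ℤ 1)) = Ring.toIntAlgebra (QSh Λ ℤ 1) :=
    Subsingleton.elim _ _
  rw [e, e3]
  refine sy_rdet (V := Vx Λ) (A := QSh Λ ℤ 1) (B := MvPolynomial ((Λ × ℤ) × (Λ × ℤ)) ℤ)
    (G := vS) (G' := vX) r.gS r.gX r.nrm.rs r.nrm.re ?_
  intro i k
  have hle := r.nrm_rs_le i k
  unfold Rect.gS Rect.gX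
  by_cases h : r.tall = true
  · simp only [if_pos h]
    exact sy_gen (G := vS) (G' := vX) (v := (true, r.l, -(r.nrm.re k), -(r.nrm.rs i)))
      (by unfold okv; simp only; omega)
  · simp only [if_neg h]
    exact sy_gen (G := vS) (G' := vX) (v := (false, r.l, r.nrm.rs i, r.nrm.re k)) hle

/-- the symbol of a list of rectangles -/
noncomputable def symb (M : List (Rect Λ)) : MvPolynomial ((Λ × ℤ) × (Λ × ℤ)) ℤ :=
  (M.map (fun r => rdet (-1 : ℤ) r.gX r.nrm.a r.nrm.rs r.nrm.re)).prod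

theorem value_one (M N : List (Rect Λ))
    (h : (M.map (fun r => r.nrm.a)).sum = (N.map (fun r => r.nrm.a)).sum) :
    (((M.map Rect.opR).prod : (Module.End ℤ (QSh Λ ℤ 1))ᵐᵒᵖ).unop
      ((N.map Rect.ch).prod : QSh Λ ℤ 1)) [] = Fis (symb M) (symb N) := by
  have h1 := sy_list (V := Vx Λ) (A := (Module.End ℤ (QSh Λ ℤ 1))ᵐᵒᵖ)
    (B := MvPolynomial ((Λ × ℤ) × (Λ × ℤ)) ℤ) (ok := okv) (G := vE) (G' := vX)
    M (fun r => r.nrm.a)
    (fun r => (r.opR : (Module.End ℤ (QSh Λ ℤ 1))ᵐᵒᵖ))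
    (fun r => rdet (-1 : ℤ) r.gX r.nrm.a r.nrm.rs r.nrm.re) (fun r _ => sy_E r)
  have h2 := sy_list (V := Vx Λ) (A := QSh Λ ℤ 1)
    (B := MvPolynomial ((Λ × ℤ) × (Λ × ℤ)) ℤ) (ok := okv) (G := vS) (G' := vX)
    N (fun r => r.nrm.a)
    (fun r => (r.ch : QSh Λ ℤ 1))
    (fun r => rdet (-1 : ℤ) r.gX r.nrm.a r.nrm.rs r.nrm.re) (fun r _ => sy_S r)
  rw [← h] at h2
  exact pair_sy h1 h2

end PC
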