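import Mathlib
import Pool.Agent.Lib.MP_ca1492_al.EvalOne

/-!
# MP_ca1492_al, module SymbDet: the symbol of a rectangle is, up to sign, a principal minor.
-/

set_option linter.unusedSectionVars false

namespace PC

open QSh MvPolynomial

variable {Λ : Type} [DecidableEq Λ]

/-- the variable with smallest content `x` and largest content `δ - y` -/
def labd (δ : Λ → ℤ) (x y : Λ × ℤ) : (Λ × ℤ) × (Λ × ℤ) := (x, (y.1, δ y.1 - y.2))

theorem labd_inj (δ : Λ → ℤ) (a b a' b' : Λ × ℤ) (h : labd δ a b = labd δ a' b') :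
    a = a' ∧ b = b' := by
  unfold labd at h
  simp only [Prod.mk.injEq] at h
  obtain ⟨h1, h2, h3⟩ := h
  refine ⟨h1, Prod.ext h2 ?_⟩
  rw [h2] at h3
  omega

/-- the matrix of the principal minor -/
noncomputable def pmat (δ : Λ → ℤ) (r : Rect Λ) :
    Matrix (Fin r.nrm.a) (Fin r.nrm.a) (MvPolynomial ((Λ × ℤ) × (Λ × ℤ)) ℤ) :=
  Matrix.of fun i k => X (labd δ (r.low i) (r.low k))

/-- the sign of an integer -/
def sg (z : ℤ) : ℤ := ((Int.negOnePow z : ℤˣ) : ℤ)

theorem sg_mul (x y : ℤ) (h : x ≤ y) : ((-1 : ℤ)) ^ (y - x).toNat = sg y * sg x := by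
  obtain ⟨n, rfl⟩ : ∃ n : ℕ, y = x + n := ⟨(y - x).toNat, by omega⟩
  have e : (x + (n : ℤ) - x).toNat = n := by omega
  rw [e]
  unfold sg
  rw [Int.negOnePow_add, ← Units.val_mul, mul_comm x.negOnePow, mul_assoc, ← Int.negOnePow_add,
    Int.negOnePow_even (x + x) ⟨x, rfl⟩, mul_one]
  rw [Int.negOnePow_def]
  simp

theorem sg_ne (z : ℤ) : sg z ≠ 0 := Units.ne_zero _

theorem symb_one (δ : Λ → ℤ) (r : Rect Λ) (hr : 2 * r.t - r.a + r.b = δ r.l) :
    ∃ s : ℤ, s ≠ 0 ∧ rdet (-1 : ℤ) r.gX r.nrm.a r.nrm.rs r.nrm.re = C s * (pmat δ r).det := by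
  have e0 : rdet (-1 : ℤ) r.gX r.nrm.a r.nrm.rs r.nrm.re =
      Matrix.det (Matrix.of fun i k => r.gX (r.nrm.rs i) (r.nrm.re k)) :=
    rdet_eq_det r.gX r.nrm.rs r.nrm.re
  rw [e0]
  have hperm : ((pmat δ r).submatrix id (Fin.revPerm : Equiv.Perm (Fin r.nrm.a))).det =
      C ((Equiv.Perm.sign (Fin.revPerm : Equiv.Perm (Fin r.nrm.a)) : ℤˣ) : ℤ) *
        (pmat δ r).det := by
    rw [Matrix.det_permute']
    congr 1
  by_cases h : r.tall = true
  · -- tall
    have hn : r.nrm = r.flip := by unfold Rect.nrm; rw [if_pos h]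
    have ha : r.nrm.a = r.b := by rw [hn]; rfl
    have hb : r.nrm.b = r.a := by rw [hn]; rfl
    have ht : r.nrm.t = -r.t := by rw [hn]; rfl
    refine ⟨(∏ i, sg (r.nrm.rs i)) * (∏ i, sg (r.nrm.re i)) *
      ((Equiv.Perm.sign (Fin.revPerm : Equiv.Perm (Fin r.nrm.a)) : ℤˣ) : ℤ), ?_, ?_⟩
    · refine mul_ne_zero (mul_ne_zero ?_ ?_) (Units.ne_zero _)
      · exact Finset.prod_ne_zero_iff.2 fun i _ => sg_ne _
      · exact Finset.prod_ne_zero_iff.2 fun i _ => sg_ne _
    · have e1 : (Matrix.of fun i k => r.gX (r.nrm.rs i) (r.nrm.re k)) =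
          Matrix.of fun i k => (C (sg (r.nrm.rs i)) : MvPolynomial ((Λ × ℤ) × (Λ × ℤ)) ℤ) *
            (Matrix.of fun i k => (C (sg (r.nrm.re k)) : MvPolynomial ((Λ × ℤ) × (Λ × ℤ)) ℤ) *
              ((pmat δ r).submatrix id (Fin.revPerm : Equiv.Perm (Fin r.nrm.a))).transpose i k)
              i k := by
        ext1 i k
        have hle := r.nrm_rs_le i k
        simp only [Matrix.of_apply, Matrix.transpose_apply, Matrix.submatrix_apply, id]
        unfold Rect.gX pmat Rect.low labd sn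
        simp only [if_pos h, Matrix.of_apply]
        have e2 : (-(r.nrm.rs i) - -(r.nrm.re k)).toNat = (r.nrm.re k - r.nrm.rs i).toNat := by
          congr 1; ring
        rw [e2]
        simp only [if_true]
        rw [sg_mul _ _ hle, C_mul]
        have e3 : -(r.nrm.rs i) = δ r.l - -(r.nrm.re (Fin.revPerm i)) := by
          have h1 : ((Fin.revPerm i : Fin r.nrm.a) : ℕ) = r.nrm.a - (i + 1) := by
            rw [Fin.revPerm_apply, Fin.val_rev]
          have h2 := i.2
          unfold Rect.rs Rect.re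
          rw [h1, ht]
          omega
        rw [← e3]
        ring
      rw [e1, Matrix.det_mul_column, Matrix.det_mul_row, Matrix.det_transpose, hperm]
      simp only [C_mul, map_prod]
      ring
  · -- wide
    have hn : r.nrm = r := by unfold Rect.nrm; rw [if_neg h]
    refine ⟨((Equiv.Perm.sign (Fin.revPerm : Equiv.Perm (Fin r.nrm.a)) : ℤˣ) : ℤ),
      Units.ne_zero _, ?_⟩
    rw [← hperm]
    congr 1
    ext1 i k
    simp only [Matrix.of_apply, Matrix.submatrix_apply, id]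
    unfold Rect.gX pmat Rect.low labd sn
    simp only [if_neg h, Matrix.of_apply]
    have e3 : r.nrm.re k = δ r.l - r.nrm.rs (Fin.revPerm k) := by
      have h1 : ((Fin.revPerm k : Fin r.nrm.a) : ℕ) = r.nrm.a - (k + 1) := by
        rw [Fin.revPerm_apply, Fin.val_rev]
      have h2 := k.2
      have ha : r.nrm.a = r.a := by rw [hn]
      have hb : r.nrm.b = r.b := by rw [hn]
      have ht : r.nrm.t = r.t := by rw [hn]
      unfold Rect.rs Rect.re
      rw [h1, ht, hb]
      omega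
    rw [← e3]
    simp

theorem symb_list (δ : Λ → ℤ) (M : List (Rect Λ))
    (hM : ∀ r ∈ M, 2 * r.t - r.a + r.b = δ r.l) :
    ∃ s : ℤ, s ≠ 0 ∧ symb M = C s * ∏ j : Fin M.length, (pmat δ (M.get j)).det := by
  induction M with
  | nil =>
    refine ⟨1, one_ne_zero, ?_⟩
    unfold symb
    simp
  | cons r M ih =>
    obtain ⟨s, hs, h⟩ := ih fun r' hr' => hM r' (List.mem_cons_of_mem _ hr')
    obtain ⟨s', hs', h'⟩ := symb_one δ r (hM r List.mem_cons_self)
    refine ⟨s' * s, mul_ne_zero hs' hs, ?_⟩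
    have e : symb (r :: M) = rdet (-1 : ℤ) r.gX r.nrm.a r.nrm.rs r.nrm.re * symb M := by
      unfold symb; simp
    have e2 : (∏ j : Fin (r :: M).length, (pmat δ ((r :: M).get j)).det) =
        (pmat δ r).det * ∏ j : Fin M.length, (pmat δ (M.get j)).det :=
      Fin.prod_univ_succ _
    rw [e, h, h', e2, C_mul]
    ring

end PC
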