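import Mathlib
import Pool.Agent.Lib.MP_ca1492_al.CombDefs

/-!
# MP_ca1492_al, module TabWords: the content words of standard tableaux form a homogeneous set.

`W = {u | IsTab l e u c}`, `c` strictly decreasing.
* `IsTab.perm`: the weight of `u` is the sum of the rows `[c i, e i]`.
* no letter is repeated: after taking `x` from row `i` the positions are strictly decreasing and
  row `i` is at `x + 1`, so no row is at `x`.
* no factor `x, x+1, x` and no factor `x, x-1, x`.
* closed under exchanging neighbours `x, y` with `|x - y| ≥ 2`: they come from different rows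
  `i ≠ k`, and the two moves commute.
`IsTab.append`: the process is a path: `IsTab (u ++ v)` iff after the moves of `u` the word `v` is
a tableau word; convenient: `Path l u c c'` (the moves of `u` lead from `c` to `c'`).
-/

set_option linter.unusedSectionVars false

namespace PC
namespace QSh

variable {Λ : Type} [DecidableEq Λ]

/-- the moves of `u` lead from `c` to `c'` -/
def Path (l : Λ) {m : ℕ} : List (Λ × ℤ) → (Fin m → ℤ) → (Fin m → ℤ) → Prop
  | [], c, c' => c = c'
  | x :: u, c, c' => ∃ i, x = (l, c i) ∧ StrictAnti (Function.update c i (c i + 1)) ∧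
      Path l u (Function.update c i (c i + 1)) c'

theorem isTab_append (l : Λ) {m : ℕ} (e c : Fin m → ℤ) (u v : List (Λ × ℤ)) :
    IsTab l e (u ++ v) c ↔ ∃ c', Path l u c c' ∧ IsTab l e v c' := by
  induction u generalizing c with
  | nil =>
    constructor
    · intro h
      exact ⟨c, rfl, h⟩
    · rintro ⟨c', hc', h⟩
      have hc'' : c = c' := hc'
      subst hc''
      exact h
  | cons x u ih =>
    constructor
    · rintro ⟨i, h1, h2, h3⟩
      obtain ⟨c', h4, h5⟩ := (ih _).1 h3
      exact ⟨c', ⟨i, h1, h2, h4⟩, h5⟩
    · rintro ⟨c', ⟨i, h1, h2, h4⟩, h5⟩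
      exact ⟨i, h1, h2, (ih _).2 ⟨c', h4, h5⟩⟩

theorem Path.anti (l : Λ) {m : ℕ} {u : List (Λ × ℤ)} {c c' : Fin m → ℤ} (h : Path l u c c')
    (hc : StrictAnti c) : StrictAnti c' := by
  induction u generalizing c with
  | nil =>
    have hc' : c = c' := h
    rwa [← hc']
  | cons x u ih =>
    obtain ⟨i, _, h2, h3⟩ := h
    exact ih h3 h2

theorem IsTab.perm (l : Λ) {m : ℕ} (e c : Fin m → ℤ) (u : List (Λ × ℤ)) (h : IsTab l e u c) :
    (∀ i, c i ≤ e i + 1) ∧
    (u : Multiset (Λ × ℤ)) = ∑ i, ((up l (c i) (e i + 1 - c i).toNat : List (Λ × ℤ)) :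
      Multiset (Λ × ℤ)) := by
  induction u generalizing c with
  | nil =>
    have h' : ∀ i, c i = e i + 1 := h
    refine ⟨fun i => (h' i).le, ?_⟩
    rw [Finset.sum_eq_zero]
    · rfl
    · intro i _
      rw [h' i, sub_self]
      rfl
  | cons x u ih =>
    obtain ⟨i, h1, h2, h3⟩ := h
    obtain ⟨h4, h5⟩ := ih _ h3
    have h6 : ∀ j, c j ≤ e j + 1 := by
      intro j
      have := h4 j
      rw [Function.update_apply] at this
      split_ifs at this with hj
      · subst hj
        omega
      · exact this
    have h7 : c i + 1 ≤ e i + 1 := by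
      have := h4 i
      rwa [Function.update_self] at this
    refine ⟨h6, ?_⟩
    have h8 : ∀ j, ((up l (c j) (e j + 1 - c j).toNat : List (Λ × ℤ)) : Multiset (Λ × ℤ)) =
        (if j = i then ({x} : Multiset (Λ × ℤ)) else 0) +
        ((up l (Function.update c i (c i + 1) j)
          (e j + 1 - Function.update c i (c i + 1) j).toNat : List (Λ × ℤ)) :
            Multiset (Λ × ℤ)) := by
      intro j
      by_cases hj : j = i
      · subst hj
        rw [if_pos rfl, Function.update_self]
        have h9 : (e j + 1 - c j).toNat = (e j + 1 - (c j + 1)).toNat + 1 := by omega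
        rw [h9, h1]
        rfl
      · rw [if_neg hj, Function.update_of_ne hj, zero_add]
    rw [Finset.sum_congr rfl (fun j _ => h8 j), Finset.sum_add_distrib, ← h5]
    rw [Finset.sum_ite_eq' Finset.univ i, if_pos (Finset.mem_univ i)]
    rfl

theorem IsTab.ne (l : Λ) {m : ℕ} (e c : Fin m → ℤ) (hc : StrictAnti c) (u v : List (Λ × ℤ))
    (x : Λ × ℤ) : ¬ IsTab l e (u ++ x :: x :: v) c := by
  intro h
  obtain ⟨c', hp, h⟩ := (isTab_append l e c u _).1 h
  have hc' := hp.anti l hc
  obtain ⟨i, h1, h2, j, h3, h4, h5⟩ := h
  rw [h1] at h3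
  have h6 : c' i = Function.update c' i (c' i + 1) j := congrArg Prod.snd h3
  rw [Function.update_apply] at h6
  split_ifs at h6 with hj
  · omega
  · exact hj (hc'.injective h6).symm

theorem IsTab.braid (l : Λ) {m : ℕ} (e c : Fin m → ℤ) (hc : StrictAnti c) (u v : List (Λ × ℤ))
    (x y : Λ × ℤ) (h : y.2 = x.2 + 1 ∨ y.2 = x.2 - 1) : ¬ IsTab l e (u ++ x :: y :: x :: v) c := by
  intro h'
  obtain ⟨c', hp, h'⟩ := (isTab_append l e c u _).1 h'
  have hc' := hp.anti l hc
  obtain ⟨i, h1, h2, j, h3, h4, k, h5, h6, h7⟩ := h'
  set c1 := Function.update c' i (c' i + 1) with hc1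
  set c2 := Function.update c1 j (c1 j + 1) with hc2
  have hx : x.2 = c' i := congrArg Prod.snd h1
  have hy : y.2 = c1 j := congrArg Prod.snd h3
  have hz : x.2 = c2 k := congrArg Prod.snd h5
  have e1 : c1 i = c' i + 1 := by rw [hc1, Function.update_self]
  rcases h with h | h
  · have hji : j = i := h2.injective (by rw [e1]; omega)
    subst hji
    have hkj : k ≠ j := by
      rintro rfl
      have : c2 k = c1 k + 1 := by rw [hc2, Function.update_self]
      omega
    have e2 : c2 k = c' k := by
      rw [hc2, Function.update_of_ne hkj, hc1, Function.update_of_ne hkj]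
    exact hkj (hc'.injective (by omega))
  · have hij : i ≠ j := by
      rintro rfl
      omega
    have e2 : c2 j = c1 j + 1 := by rw [hc2, Function.update_self]
    have hkj : k = j := h4.injective (by omega)
    subst hkj
    have e3 : Function.update c2 k (c2 k + 1) k = c2 k + 1 := Function.update_self ..
    have e4 : Function.update c2 k (c2 k + 1) i = c1 i := by
      rw [Function.update_of_ne hij, hc2, Function.update_of_ne hij]
    exact hij (h6.injective (by rw [e3, e4]; omega))

theorem IsTab.swap (l : Λ) {m : ℕ} (e c : Fin m → ℤ) (hc : StrictAnti c) (u v : List (Λ × ℤ))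
    (x y : Λ × ℤ) (h : y.2 ≠ x.2 + 1 ∧ y.2 ≠ x.2 - 1) (hu : IsTab l e (u ++ x :: y :: v) c) :
    IsTab l e (u ++ y :: x :: v) c := by
  obtain ⟨c', hp, h'⟩ := (isTab_append l e c u _).1 hu
  refine (isTab_append l e c u _).2 ⟨c', hp, ?_⟩
  have hc' := hp.anti l hc
  obtain ⟨i, h1, h2, j, h3, h4, h5⟩ := h'
  have hx : x.2 = c' i := congrArg Prod.snd h1
  have hy : y.2 = Function.update c' i (c' i + 1) j := congrArg Prod.snd h3
  have hji : j ≠ i := by
    rintro rfl
    rw [Function.update_self] at hy
    omega
  rw [Function.update_of_ne hji] at hy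
  have e1 : Function.update c' i (c' i + 1) j = c' j := Function.update_of_ne hji ..
  have e2 : Function.update c' j (c' j + 1) i = c' i := Function.update_of_ne hji.symm ..
  rw [e1] at h3 h4 h5
  have e3 : Function.update (Function.update c' j (c' j + 1)) i (c' i + 1) =
      Function.update (Function.update c' i (c' i + 1)) j (c' j + 1) :=
    Function.update_comm hji _ _ _
  refine ⟨j, h3, ?_, i, ?_, ?_, ?_⟩
  · intro a b hab
    have k1 := hc' hab
    have k2 := h4 hab
    simp only [Function.update_apply] at k2 ⊢
    by_cases ha : a = i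
    · subst ha
      have hba : b ≠ a := hab.ne'
      by_cases hb : b = j
      · subst hb
        rw [if_pos rfl, if_neg hba.symm]
        omega
      · rw [if_neg hb, if_neg hji.symm]
        exact k1
    · by_cases hb : b = i
      · subst hb
        rw [if_neg hji.symm]
        split_ifs with h7
        · subst h7
          omega
        · exact k1
      · by_cases hb' : b = j
        · subst hb'
          have hab' : a ≠ b := hab.ne
          rw [if_pos rfl, if_neg hab'] at k2 ⊢
          rw [if_neg ha] at k2
          exact k2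
        · by_cases ha' : a = j
          · subst ha'
            rw [if_neg hb', if_pos rfl]
            omega
          · rw [if_neg hb', if_neg ha']
            exact k1
  · rw [e2]
    exact h1
  · rw [e2, e3]
    exact h4
  · rw [e2, e3]
    exact h5

end QSh
end PC
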