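import Mathlib
import Pool.Agent.Lib.MP_ca1492_al.TabWords

/-!
# MP_ca1492_al, module Weight: characters are supported on words of one weight.
-/

set_option linter.unusedSectionVars false

namespace PC
namespace QSh

variable {Λ : Type} [DecidableEq Λ] {R : Type} [CommRing R] {q : Rˣ}

/-- `f` is supported on the words of weight `ν` -/
def Wt (ν : Multiset (Λ × ℤ)) (f : QSh Λ R q) : Prop :=
  ∀ u : List (Λ × ℤ), f u ≠ 0 → (u : Multiset (Λ × ℤ)) = ν

theorem wt_one : Wt (0 : Multiset (Λ × ℤ)) (1 : QSh Λ R q) := by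
  intro u hu
  cases u with
  | nil => rfl
  | cons x u => exact absurd rfl hu

theorem wt_T (x : Λ × ℤ) {ν : Multiset (Λ × ℤ)} {f : QSh Λ R q} (h : Wt ν f) : Wt ν (T x f) := by
  intro u hu
  refine h u fun h0 => hu ?_
  rw [T_apply, h0, mul_zero]

theorem wt_D {x : Λ × ℤ} {ν : Multiset (Λ × ℤ)} {f : QSh Λ R q} (h : Wt (x ::ₘ ν) f) :
    Wt ν (D x f) := by
  intro u hu
  have := h (x :: u) hu
  rw [← Multiset.cons_coe] at this
  exact (Multiset.cons_inj_right x).1 this

theorem wt_D_zero {x : Λ × ℤ} {ν : Multiset (Λ × ℤ)} {f : QSh Λ R q} (h : Wt ν f)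
    (hx : x ∉ ν) : D x f = 0 := by
  funext u
  by_contra h0
  have := h (x :: u) h0
  apply hx
  rw [← this]
  simp

theorem wt_mul {ν ν' : Multiset (Λ × ℤ)} {f g : QSh Λ R q} (hf : Wt ν f) (hg : Wt ν' g) :
    Wt (ν + ν') (f * g) := by
  intro u
  induction u generalizing f g ν ν' with
  | nil =>
    intro h
    rw [mul_nil] at h
    have h1 : f [] ≠ 0 := left_ne_zero_of_mul h
    have h2 : g [] ≠ 0 := right_ne_zero_of_mul h
    rw [← hf [] h1, ← hg [] h2]
    rfl
  | cons x u ih =>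
    intro h
    rw [mul_cons] at h
    have h3 : (D x f * g) u ≠ 0 ∨ (T x f * D x g) u ≠ 0 := by
      by_contra hcon
      push Not at hcon
      rw [hcon.1, hcon.2, add_zero] at h
      exact h rfl
    rw [← Multiset.cons_coe]
    rcases h3 with h3 | h3
    · by_cases hx : x ∈ ν
      · obtain ⟨ν₁, rfl⟩ := Multiset.exists_cons_of_mem hx
        rw [ih (wt_D hf) hg h3, Multiset.cons_add]
      · rw [wt_D_zero hf hx, zero_mul] at h3
        exact absurd rfl h3
    · by_cases hx : x ∈ ν'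
      · obtain ⟨ν₁, rfl⟩ := Multiset.exists_cons_of_mem hx
        rw [ih (wt_T x hf) (wt_D hg) h3, Multiset.add_cons]
      · rw [wt_D_zero hg hx, mul_zero] at h3
        exact absurd rfl h3

theorem wt_wd (u : List (Λ × ℤ)) : Wt (u : Multiset (Λ × ℤ)) (wd u : QSh Λ R q) := by
  intro v hv
  rw [wd_apply] at hv
  by_cases h : v = u
  · rw [h]
  · rw [if_neg h] at hv
    exact absurd rfl hv

theorem wt_let (u : List (Λ × ℤ)) : Wt (u : Multiset (Λ × ℤ)) (let_ u : QSh Λ R q) := by
  induction u with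
  | nil => exact wt_one
  | cons x u ih =>
    have h := wt_mul (wt_wd (R := R) (q := q) [x]) ih
    have e : (([x] : List (Λ × ℤ)) : Multiset (Λ × ℤ)) + (u : Multiset (Λ × ℤ)) =
        ((x :: u : List (Λ × ℤ)) : Multiset (Λ × ℤ)) := by
      rw [Multiset.coe_add]
      rfl
    rw [e] at h
    exact h

theorem up_eq (l : Λ) (i : ℤ) (n : ℕ) : ((up l i n : List (Λ × ℤ)) : Multiset (Λ × ℤ)) =
    ∑ k : Fin n, {(l, i + ((k : ℕ) : ℤ))} := by
  induction n generalizing i with
  | zero => rfl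
  | succ n ih =>
    rw [Fin.sum_univ_succ]
    have e : ((up l i (n + 1) : List (Λ × ℤ)) : Multiset (Λ × ℤ)) =
        {(l, i)} + ((up l (i + 1) n : List (Λ × ℤ)) : Multiset (Λ × ℤ)) := by
      rw [Multiset.singleton_add]
      rfl
    rw [e, ih]
    congr 1
    · simp
    · refine Finset.sum_congr rfl fun k _ => ?_
      congr 2
      rw [Fin.val_succ]
      push_cast
      ring

end QSh

open QSh

variable {Λ : Type} [DecidableEq Λ] {R : Type} [CommRing R] {q : Rˣ}

theorem wt_ch (r : Rect Λ) : Wt r.cont (r.ch : QSh Λ R q) := by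
  classical
  intro u hu
  have h1 : IsTab r.l r.re u r.rs := by
    by_contra h
    exact hu (if_neg h)
  have h2 := (IsTab.perm r.l r.re r.rs u h1).2
  rw [h2]
  unfold Rect.cont
  have e : (Multiset.map (fun p : Fin r.a × Fin r.b => (r.l, r.t + ((p.2 : ℕ) : ℤ) -
      ((p.1 : ℕ) : ℤ))) (Finset.univ : Finset (Fin r.a × Fin r.b)).val) =
      ∑ p : Fin r.a × Fin r.b, {(r.l, r.t + ((p.2 : ℕ) : ℤ) - ((p.1 : ℕ) : ℤ))} := by
    have h3 := Multiset.map_map (fun a => ({a} : Multiset (Λ × ℤ)))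
      (fun p : Fin r.a × Fin r.b => (r.l, r.t + ((p.2 : ℕ) : ℤ) - ((p.1 : ℕ) : ℤ)))
      (Finset.univ : Finset (Fin r.a × Fin r.b)).val
    have h4 := congrArg Multiset.sum h3
    rw [Multiset.sum_map_singleton] at h4
    exact h4
  rw [e, Fintype.sum_prod_type]
  refine Finset.sum_congr rfl fun i _ => ?_
  rw [up_eq]
  have e2 : (r.re i + 1 - r.rs i).toNat = r.b := by
    unfold Rect.re Rect.rs
    omega
  rw [e2]
  refine Finset.sum_congr rfl fun k _ => ?_
  congr 2
  unfold Rect.rs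
  ring

theorem wt_list (M : List (Rect Λ)) :
    Wt (M.map Rect.cont).sum ((M.map Rect.ch).prod : QSh Λ R q) := by
  induction M with
  | nil => exact wt_one
  | cons r M ih =>
    simp only [List.map_cons, List.sum_cons, List.prod_cons]
    exact wt_mul (wt_ch r) ih

end PC
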