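import Mathlib
import Pool.Agent.Lib.MP_ca1492_al.FisPos
import Pool.Agent.Lib.MP_ca1492_al.Supp
import Pool.Agent.Lib.MP_ca1492_al.SymbDet
import Pool.Agent.Lib.MP_ca1492_al.Weight

/-!
# MP_ca1492_al, module CombMain: the combinatorial theorem.

`M`, `N` lists of rectangles with the same multiset of contents, centred on their lines.  Over
`ℤ[q, q⁻¹]` a nonzero multiple of the character of `M` (the product of the characters of its
rectangles in the quantum shuffle algebra) is a combination of the products of letters, and the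
corresponding combination of the coefficients of the character of `N` is not zero.
-/

set_option linter.unusedSectionVars false

namespace PC

open QSh LaurentPolynomial

variable {Λ : Type} [DecidableEq Λ]

/-- the unit `q` of `ℤ[q, q⁻¹]` -/
noncomputable def qq : (LaurentPolynomial ℤ)ˣ :=
  ⟨T 1, T (-1), by rw [← T_add]; simp, by rw [← T_add]; simp⟩

/-- the character of a product of rectangles -/
noncomputable def chL {R : Type} [CommRing R] {q : Rˣ} (M : List (Rect Λ)) : QSh Λ R q :=
  (M.map Rect.ch).prod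

theorem CombMain_list_sum {A : Type} (M : List A) (F : A → ℕ) :
    (M.map F).sum = ∑ j : Fin M.length, F (M.get j) := by
  induction M with
  | nil => rfl
  | cons r M ih =>
    have e2 : (∑ j : Fin (r :: M).length, F ((r :: M).get j)) =
        F r + ∑ j : Fin M.length, F (M.get j) := Fin.sum_univ_succ _
    rw [e2, List.map_cons, List.sum_cons, ih]

theorem CombMain_count (M : List (Rect Λ)) (x : Λ × ℤ) :
    Fintype.card {e : Σ j : Fin M.length, Fin (M.get j).nrm.a // (M.get e.1).low e.2 = x} =
      ((M.map Rect.lowM).sum).count x := by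
  classical
  have h1 : ((M.map Rect.lowM).sum).count x = (M.map (fun r => r.lowM.count x)).sum := by
    have := map_list_sum (Multiset.countAddMonoidHom x) (M.map Rect.lowM)
    rw [List.map_map] at this
    exact this
  rw [h1, CombMain_list_sum, Fintype.card_subtype, Finset.card_filter, Fintype.sum_sigma]
  refine Finset.sum_congr rfl fun j _ => ?_
  unfold Rect.lowM
  rw [Multiset.count_map, ← Finset.card_filter]
  have e : Multiset.filter (fun a => x = (M.get j).low a)
      (Finset.univ : Finset (Fin (M.get j).nrm.a)).val =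
      (Finset.univ.filter (fun i => (M.get j).low i = x)).val := by
    rw [Finset.filter_val]
    refine Multiset.filter_congr fun i _ => ?_
    exact eq_comm
  rw [e]
  rfl

theorem CombMain_low_inj (r : Rect Λ) : Function.Injective r.low := by
  intro i k h
  unfold Rect.low at h
  have h2 := (Prod.mk.inj h).2
  by_cases ht : r.tall = true
  · rw [if_pos ht, if_pos ht] at h2
    have h3 : r.nrm.re i = r.nrm.re k := by omega
    exact r.nrm.re_anti.injective h3
  · rw [if_neg ht, if_neg ht] at h2
    exact r.nrm.rs_anti.injective h2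

theorem fis_symb_ne (M N : List (Rect Λ)) (δ : Λ → ℤ)
    (hM : ∀ r ∈ M, 0 < r.a ∧ 0 < r.b ∧ 2 * r.t - r.a + r.b = δ r.l)
    (hN : ∀ r ∈ N, 0 < r.a ∧ 0 < r.b ∧ 2 * r.t - r.a + r.b = δ r.l)
    (h : (M.map Rect.cont).sum = (N.map Rect.cont).sum) :
    Fis (symb M) (symb N) ≠ 0 := by
  classical
  obtain ⟨s, hs, e1⟩ := symb_list δ M fun r hr => (hM r hr).2.2
  obtain ⟨s', hs', e2⟩ := symb_list δ N fun r hr => (hN r hr).2.2
  rw [e1, e2, fis_smul_left, fis_smul_right]
  refine mul_ne_zero hs (mul_ne_zero hs' ?_)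
  have hlow := lowM_eq M N δ hM hN h
  have := fis_pos (ι := Fin M.length) (κ := Fin N.length) (T := Λ × ℤ)
    (V := (Λ × ℤ) × (Λ × ℤ)) (fun j => (M.get j).nrm.a) (fun j => (M.get j).low)
    (fun j => CombMain_low_inj _) (fun j => (N.get j).nrm.a) (fun j => (N.get j).low)
    (fun j => CombMain_low_inj _) (labd δ) (labd_inj δ)
    (fun x => by rw [CombMain_count, CombMain_count, hlow])
  exact this.ne'

theorem card_eq (M N : List (Rect Λ)) (hlow : (M.map Rect.lowM).sum = (N.map Rect.lowM).sum) :
    (M.map (fun r => r.nrm.a)).sum = (N.map (fun r => r.nrm.a)).sum := by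
  have key : ∀ M : List (Rect Λ), (M.map (fun r => r.nrm.a)).sum =
      Multiset.card ((M.map Rect.lowM).sum) := by
    intro M
    have := map_list_sum (Multiset.cardHom : Multiset (Λ × ℤ) →+ ℕ) (M.map Rect.lowM)
    rw [List.map_map] at this
    rw [show Multiset.card ((M.map Rect.lowM).sum) =
      Multiset.cardHom ((M.map Rect.lowM).sum) from rfl, this]
    congr 1
    refine List.map_congr_left fun r _ => ?_
    simp [Rect.lowM]
  rw [key, key, hlow]

/-- evaluation at a word -/
def evw {R : Type} [CommRing R] {q : Rˣ} (u : List (Λ × ℤ)) : QSh Λ R q →ₗ[R] R where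
  toFun f := f u
  map_add' _ _ := rfl
  map_smul' _ _ := rfl

theorem comb_main (M N : List (Rect Λ)) (δ : Λ → ℤ)
    (hM : ∀ r ∈ M, 0 < r.a ∧ 0 < r.b ∧ 2 * r.t - r.a + r.b = δ r.l)
    (hN : ∀ r ∈ N, 0 < r.a ∧ 0 < r.b ∧ 2 * r.t - r.a + r.b = δ r.l)
    (h : (M.map Rect.cont).sum = (N.map Rect.cont).sum) :
    ∃ (c : LaurentPolynomial ℤ) (a : List (Λ × ℤ) →₀ LaurentPolynomial ℤ), c ≠ 0 ∧
      (∀ w ∈ a.support, (w : Multiset (Λ × ℤ)) = (M.map Rect.cont).sum) ∧
      c • (chL M : QSh Λ (LaurentPolynomial ℤ) qq) = a.sum (fun w x => x • let_ w) ∧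
      a.sum (fun w x => (invert x) * (chL N : QSh Λ (LaurentPolynomial ℤ) qq) w) ≠ 0 := by
  classical
  set φ : LaurentPolynomial ℤ →+* ℤ := LaurentPolynomial.eval₂ (RingHom.id ℤ) (1 : ℤˣ) with hφ
  have hφq : φ ((qq : (LaurentPolynomial ℤ)ˣ) : LaurentPolynomial ℤ) = ((1 : ℤˣ) : ℤ) := by
    change LaurentPolynomial.eval₂ (RingHom.id ℤ) (1 : ℤˣ) (T 1) = 1
    rw [LaurentPolynomial.eval₂_T]
    simp
  let bar : LaurentPolynomial ℤ →+* LaurentPolynomial ℤ :=
    ((invert : LaurentPolynomial ℤ ≃ₐ[ℤ] LaurentPolynomial ℤ) :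
      LaurentPolynomial ℤ →+* LaurentPolynomial ℤ)
  have hbar : ∀ x, bar x = invert x := fun x => rfl
  have hb : bar ((qq : (LaurentPolynomial ℤ)ˣ) : LaurentPolynomial ℤ) =
      ((qq⁻¹ : (LaurentPolynomial ℤ)ˣ) : LaurentPolynomial ℤ) := by
    change invert (LaurentPolynomial.T 1) = (LaurentPolynomial.T (-1) : LaurentPolynomial ℤ)
    exact invert_T 1
  obtain ⟨n, a, ha1, ha2⟩ := good_list (q := qq) bar hb M
  set ν : Multiset (Λ × ℤ) := (M.map Rect.cont).sum with hν
  have hwM : Wt ν (chL M : QSh Λ (LaurentPolynomial ℤ) qq) := wt_list M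
  have hwN : Wt ν (chL N : QSh Λ (LaurentPolynomial ℤ) qq) := by
    have := wt_list (R := LaurentPolynomial ℤ) (q := qq) N
    rw [← h] at this
    exact this
  refine ⟨(1 - ((qq : (LaurentPolynomial ℤ)ˣ) : LaurentPolynomial ℤ) ^ 2) ^ n,
    a.filter (fun w : List (Λ × ℤ) => (w : Multiset (Λ × ℤ)) = ν), ?_, ?_, ?_, ?_⟩
  · refine pow_ne_zero _ fun h0 => ?_
    have h1 := congrArg (LaurentPolynomial.eval₂ (Int.castRingHom ℚ)
      (Units.mk0 (2 : ℚ) two_ne_zero)) h0
    rw [map_sub, map_one, map_pow, map_zero] at h1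
    have h2 : LaurentPolynomial.eval₂ (Int.castRingHom ℚ) (Units.mk0 (2 : ℚ) two_ne_zero)
        ((qq : (LaurentPolynomial ℤ)ˣ) : LaurentPolynomial ℤ) = 2 := by
      change LaurentPolynomial.eval₂ (Int.castRingHom ℚ) (Units.mk0 (2 : ℚ) two_ne_zero)
        (T 1) = 2
      rw [LaurentPolynomial.eval₂_T]
      simp
    rw [h2] at h1
    norm_num at h1
  · intro w hw
    rw [Finsupp.support_filter, Finset.mem_filter] at hw
    exact hw.2
  · have e1 : ∀ u, (a.sum (fun w x => x • (let_ w : QSh Λ (LaurentPolynomial ℤ) qq))) u =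
        a.sum (fun w x => x * (let_ w : QSh Λ (LaurentPolynomial ℤ) qq) u) := by
      intro u
      have := map_finsuppSum (evw u : QSh Λ (LaurentPolynomial ℤ) qq →ₗ[_] _) a
        (fun w x => x • (let_ w : QSh Λ (LaurentPolynomial ℤ) qq))
      exact this
    have e2 : ∀ u, ((a.filter (fun w : List (Λ × ℤ) => (w : Multiset (Λ × ℤ)) = ν)).sum
        (fun w x => x • (let_ w : QSh Λ (LaurentPolynomial ℤ) qq))) u =
        (a.filter (fun w : List (Λ × ℤ) => (w : Multiset (Λ × ℤ)) = ν)).sum
          (fun w x => x * (let_ w : QSh Λ (LaurentPolynomial ℤ) qq) u) := by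
      intro u
      have := map_finsuppSum (evw u : QSh Λ (LaurentPolynomial ℤ) qq →ₗ[_] _)
        (a.filter (fun w : List (Λ × ℤ) => (w : Multiset (Λ × ℤ)) = ν))
        (fun w x => x • (let_ w : QSh Λ (LaurentPolynomial ℤ) qq))
      exact this
    funext u
    rw [e2, Finsupp.sum_filter_index]
    by_cases hu : (u : Multiset (Λ × ℤ)) = ν
    · have e3 := congrFun ha1 u
      refine e3.trans ?_
      rw [e1]
      unfold Finsupp.sum
      rw [Finsupp.support_filter, Finset.sum_filter]
      refine Finset.sum_congr rfl fun w _ => ?_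
      by_cases hw : (w : Multiset (Λ × ℤ)) = ν
      · rw [if_pos hw]
      · rw [if_neg hw]
        have h3 : (let_ w : QSh Λ (LaurentPolynomial ℤ) qq) u = 0 := by
          by_contra h4
          exact hw ((wt_let w u h4).symm.trans hu)
        change a w * (let_ w : QSh Λ (LaurentPolynomial ℤ) qq) u = 0
        rw [h3, mul_zero]
    · have h3 : (chL M : QSh Λ (LaurentPolynomial ℤ) qq) u = 0 := by
        by_contra h4
        exact hu (hwM u h4)
      rw [QSh.smul_apply, h3, mul_zero]
      rw [Finsupp.support_filter]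
      refine (Finset.sum_eq_zero fun w hw => ?_).symm
      rw [Finset.mem_filter] at hw
      have h4 : (let_ w : QSh Λ (LaurentPolynomial ℤ) qq) u = 0 := by
        by_contra h5
        exact hu ((wt_let w u h5).trans hw.2)
      rw [h4, mul_zero]
  · have e1 : (a.filter (fun w : List (Λ × ℤ) => (w : Multiset (Λ × ℤ)) = ν)).sum
        (fun w x => (invert x) * (chL N : QSh Λ (LaurentPolynomial ℤ) qq) w) =
        a.sum (fun w x => (invert x) * (chL N : QSh Λ (LaurentPolynomial ℤ) qq) w) := by
      rw [Finsupp.sum_filter_index]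
      unfold Finsupp.sum
      rw [Finsupp.support_filter, Finset.sum_filter]
      refine Finset.sum_congr rfl fun w _ => ?_
      by_cases hw : (w : Multiset (Λ × ℤ)) = ν
      · rw [if_pos hw]
      · rw [if_neg hw]
        have h3 : (chL N : QSh Λ (LaurentPolynomial ℤ) qq) w = 0 := by
          by_contra h4
          exact hw (hwN w h4)
        change 0 = invert (a w) * (chL N : QSh Λ (LaurentPolynomial ℤ) qq) w
        rw [h3, mul_zero]
    rw [e1]
    have e2 := congrFun (ha2 (chL N)) []
    have e3 : (a.sum (fun w x => bar x • strip w (chL N : QSh Λ (LaurentPolynomial ℤ) qq))) [] =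
        a.sum (fun w x => (invert x) * (chL N : QSh Λ (LaurentPolynomial ℤ) qq) w) := by
      have := map_finsuppSum (evw [] : QSh Λ (LaurentPolynomial ℤ) qq →ₗ[_] _) a
        (fun w x => bar x • strip w (chL N : QSh Λ (LaurentPolynomial ℤ) qq))
      refine this.trans ?_
      refine Finsupp.sum_congr fun w _ => ?_
      change bar (a w) * (chL N : QSh Λ (LaurentPolynomial ℤ) qq) (w ++ []) = _
      rw [List.append_nil, hbar]
    rw [e3] at e2
    rw [← e2]
    intro h0
    have e4 := congrArg φ h0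
    rw [map_zero] at e4
    have e5 : (mp φ 1 (((M.map Rect.opR).prod :
        (Module.End (LaurentPolynomial ℤ) (QSh Λ (LaurentPolynomial ℤ) qq))ᵐᵒᵖ).unop
          (chL N)) : QSh Λ ℤ 1) [] = 0 := e4
    rw [mp_list φ hφq] at e5
    have e6 : (mp φ 1 (chL N : QSh Λ (LaurentPolynomial ℤ) qq) : QSh Λ ℤ 1) =
        (N.map Rect.ch).prod := by
      unfold chL
      rw [mp_prod φ 1 hφq, List.map_map]
      congr 1
      refine List.map_congr_left fun r _ => ?_
      exact mp_ch φ r
    rw [e6, value_one M N (card_eq M N (lowM_eq M N δ hM hN h))] at e5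
    exact fis_symb_ne M N δ hM hN h e5

end PC
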